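import Pool.Agent.TM2Lib.Tree

/-!
# The problems: truth of `∀∃`-sentences over the reals and surjectivity of polynomial maps

Instances, their codes by binary trees (`D`, with string code `encD`), decision problems and
polynomial time many-one reductions (by Mathlib's `Turing.TM2ComputableInPolyTime`).
-/

namespace Pool.Agent.helper88.Surj

open Pool.Agent.TM2Lib Pool.Agent.TM2Lib.D

/-! ### syntax and semantics of the quantifier-free formulas -/

/-- Arithmetic terms in `n` variables with integer constants. -/
inductive Tm (n : ℕ) : Type
  | var (i : Fin n)
  | const (c : ℤ)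
  | add (a b : Tm n)
  | mul (a b : Tm n)

/-- The real value of a term. -/
def Tm.val {n : ℕ} (v : Fin n → ℝ) : Tm n → ℝ
  | .var i => v i
  | .const c => (c : ℝ)
  | .add a b => a.val v + b.val v
  | .mul a b => a.val v * b.val v

/-- Boolean combinations of polynomial equations and inequalities in `n` variables. -/
inductive Fm (n : ℕ) : Type
  | eq (a b : Tm n)
  | lt (a b : Tm n)
  | le (a b : Tm n)
  | and (φ ψ : Fm n)
  | or (φ ψ : Fm n)
  | not (φ : Fm n)

/-- Truth of a formula at a real point. -/
def Fm.holds {n : ℕ} (v : Fin n → ℝ) : Fm n → Prop
  | .eq a b => a.val v = b.val v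
  | .lt a b => a.val v < b.val v
  | .le a b => a.val v ≤ b.val v
  | .and φ ψ => φ.holds v ∧ ψ.holds v
  | .or φ ψ => φ.holds v ∨ ψ.holds v
  | .not φ => ¬ φ.holds v

/-- A sentence `∀ x ∈ ℝ^k, ∃ y ∈ ℝ^l, φ(x, y)`. -/
structure Sentence where
  /-- number of universally quantified variables -/
  k : ℕ
  /-- number of existentially quantified variables -/
  l : ℕ
  /-- the quantifier-free part -/
  φ : Fm (k + l)

/-- Truth of a sentence over the reals. -/
def Sentence.IsTrue (S : Sentence) : Prop :=
  ∀ x : Fin S.k → ℝ, ∃ y : Fin S.l → ℝ, S.φ.holds (Fin.append x y)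

/-! ### polynomial maps -/

/-- Sparse representation of integer polynomials in `n` variables: the list of monomials, each with
its integer coefficient and the list of its variables. -/
abbrev Poly (n : ℕ) : Type := List (ℤ × List (Fin n))

/-- The polynomial represented. -/
noncomputable def Poly.toMv {n : ℕ} (p : Poly n) : MvPolynomial (Fin n) ℤ :=
  (p.map fun m => MvPolynomial.C m.1 * (m.2.map MvPolynomial.X).prod).sum

/-- An integer polynomial map `ℝ^n → ℝ^m`, where `m` is the length of the list `fs`. -/
structure PolyMap where
  /-- number of variables -/
  n : ℕ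
  /-- the components -/
  fs : List (Poly n)

/-- The function `ℝ^n → ℝ^m` given by a polynomial map. -/
noncomputable def PolyMap.toFun (F : PolyMap) (x : Fin F.n → ℝ) : Fin F.fs.length → ℝ :=
  fun i => MvPolynomial.aeval x (F.fs.get i).toMv

/-- The map is surjective. -/
def PolyMap.IsSurj (F : PolyMap) : Prop := Function.Surjective F.toFun

/-! ### codes -/

/-- Natural numbers in unary. -/
def un : ℕ → D
  | 0 => .nil
  | n + 1 => .cons .nil (un n)

/-- Bit strings as trees. -/
def bitsD : List Bool → D
  | [] => .nil
  | b :: l => .cons (ofBool b) (bitsD l)

/-- Integers in binary: sign and the binary digits of the absolute value. -/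
def encInt (z : ℤ) : D := .cons (ofBool (decide (z < 0))) (bitsD z.natAbs.bits)

/-- Codes of lists. -/
def encList {α : Type} (f : α → D) : List α → D
  | [] => .nil
  | a :: l => .cons (f a) (encList f l)

/-- Codes of terms. -/
def encTm {n : ℕ} : Tm n → D
  | .var i => .cons (un 0) (un i)
  | .const c => .cons (un 1) (encInt c)
  | .add a b => .cons (un 2) (.cons (encTm a) (encTm b))
  | .mul a b => .cons (un 3) (.cons (encTm a) (encTm b))

/-- Codes of formulas. -/
def encFm {n : ℕ} : Fm n → D
  | .eq a b => .cons (un 4) (.cons (encTm a) (encTm b))
  | .lt a b => .cons (un 5) (.cons (encTm a) (encTm b))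
  | .le a b => .cons (un 6) (.cons (encTm a) (encTm b))
  | .and φ ψ => .cons (un 7) (.cons (encFm φ) (encFm ψ))
  | .or φ ψ => .cons (un 8) (.cons (encFm φ) (encFm ψ))
  | .not φ => .cons (un 9) (encFm φ)

/-- Codes of sentences. -/
def encSentence (S : Sentence) : D := .cons (un S.k) (.cons (un S.l) (encFm S.φ))

/-- Codes of polynomials. -/
def encPoly {n : ℕ} (p : Poly n) : D :=
  encList (fun m => .cons (encInt m.1) (encList (fun i : Fin n => un i) m.2)) p

/-- Codes of polynomial maps. -/
def encPolyMap (F : PolyMap) : D := .cons (un F.n) (encList encPoly F.fs)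

/-! ### injectivity of the codes -/

theorem un_injective : Function.Injective un := by
  intro a
  induction a with
  | zero => intro b h; cases b with
    | zero => rfl
    | succ b => simp [un] at h
  | succ a ih => intro b h; cases b with
    | zero => simp [un] at h
    | succ b => simp only [un, D.cons.injEq, true_and] at h; rw [ih h]

theorem ofBool_injective : Function.Injective ofBool := by
  intro a b h
  cases a <;> cases b <;> simp_all [ofBool]

theorem bitsD_injective : Function.Injective bitsD := by
  intro a
  induction a with
  | nil => intro b h; cases b with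
    | nil => rfl
    | cons b l => simp [bitsD] at h
  | cons x a ih => intro b h; cases b with
    | nil => simp [bitsD] at h
    | cons b l =>
      simp only [bitsD, D.cons.injEq] at h
      rw [ih h.2, ofBool_injective h.1]

/-- value of a string of binary digits -/
def ofB : List Bool → ℕ
  | [] => 0
  | b :: l => 2 * ofB l + b.toNat

theorem ofB_bits (n : ℕ) : ofB n.bits = n := by
  induction n using Nat.strong_induction_on with
  | _ n ih =>
    rcases Nat.even_or_odd' n with ⟨m, hm | hm⟩
    · rcases Nat.eq_zero_or_pos m with h0 | h0
      · subst h0; subst hm; simp [Nat.zero_bits, ofB]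
      · subst hm
        rw [Nat.bit0_bits m (by omega), ofB, ih m (by omega)]
        simp
    · subst hm
      rw [Nat.bit1_bits, ofB, ih m (by omega)]
      simp

theorem bits_injective : Function.Injective Nat.bits :=
  Function.LeftInverse.injective (g := ofB) ofB_bits

theorem encInt_injective : Function.Injective encInt := by
  intro a b h
  simp only [encInt, D.cons.injEq] at h
  have h1 := ofBool_injective h.1
  have h2 := bits_injective (bitsD_injective h.2)
  simp only [decide_eq_decide] at h1
  omega

theorem encList_injective {α : Type} {f : α → D} (hf : Function.Injective f) :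
    Function.Injective (encList f) := by
  intro a
  induction a with
  | nil => intro b h; cases b with
    | nil => rfl
    | cons b l => simp [encList] at h
  | cons x a ih => intro b h; cases b with
    | nil => simp [encList] at h
    | cons b l =>
      simp only [encList, D.cons.injEq] at h
      rw [ih h.2, hf h.1]

theorem encTm_injective {n : ℕ} : Function.Injective (encTm (n := n)) := by
  intro a
  induction a with
  | var i =>
    intro b h
    cases b <;> simp only [encTm, un, D.cons.injEq, reduceCtorEq, false_and, and_false,
      true_and] at h
    rw [Fin.ext (un_injective h)]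
  | const c =>
    intro b h
    cases b <;> simp only [encTm, un, D.cons.injEq, reduceCtorEq, false_and, and_false,
      true_and] at h
    rw [encInt_injective h]
  | add a₁ a₂ ih₁ ih₂ =>
    intro b h
    cases b <;> simp only [encTm, un, D.cons.injEq, reduceCtorEq, false_and, and_false,
      true_and] at h
    rw [ih₁ h.1, ih₂ h.2]
  | mul a₁ a₂ ih₁ ih₂ =>
    intro b h
    cases b <;> simp only [encTm, un, D.cons.injEq, reduceCtorEq, false_and, and_false,
      true_and] at h
    rw [ih₁ h.1, ih₂ h.2]

theorem encFm_injective {n : ℕ} : Function.Injective (encFm (n := n)) := by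
  intro a
  induction a with
  | eq a₁ a₂ =>
    intro b h
    cases b <;> simp only [encFm, un, D.cons.injEq, reduceCtorEq, false_and, and_false,
      true_and] at h
    rw [encTm_injective h.1, encTm_injective h.2]
  | lt a₁ a₂ =>
    intro b h
    cases b <;> simp only [encFm, un, D.cons.injEq, reduceCtorEq, false_and, and_false,
      true_and] at h
    rw [encTm_injective h.1, encTm_injective h.2]
  | le a₁ a₂ =>
    intro b h
    cases b <;> simp only [encFm, un, D.cons.injEq, reduceCtorEq, false_and, and_false,
      true_and] at h
    rw [encTm_injective h.1, encTm_injective h.2]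
  | and a₁ a₂ ih₁ ih₂ =>
    intro b h
    cases b <;> simp only [encFm, un, D.cons.injEq, reduceCtorEq, false_and, and_false,
      true_and] at h
    rw [ih₁ h.1, ih₂ h.2]
  | or a₁ a₂ ih₁ ih₂ =>
    intro b h
    cases b <;> simp only [encFm, un, D.cons.injEq, reduceCtorEq, false_and, and_false,
      true_and] at h
    rw [ih₁ h.1, ih₂ h.2]
  | not a₁ ih₁ =>
    intro b h
    cases b <;> simp only [encFm, un, D.cons.injEq, reduceCtorEq, false_and, and_false,
      true_and] at h
    rw [ih₁ h]

theorem encSentence_injective : Function.Injective encSentence := by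
  rintro ⟨k, l, φ⟩ ⟨k', l', φ'⟩ h
  simp only [encSentence, D.cons.injEq] at h
  obtain ⟨h1, h2, h3⟩ := h
  obtain rfl := un_injective h1
  obtain rfl := un_injective h2
  rw [encFm_injective h3]

theorem encPoly_injective {n : ℕ} : Function.Injective (encPoly (n := n)) := by
  refine encList_injective ?_
  rintro ⟨a, b⟩ ⟨a', b'⟩ h
  simp only [D.cons.injEq] at h
  have h2 := encList_injective (f := fun i : Fin n => un i)
    (fun i j hij => Fin.ext (un_injective hij)) h.2
  rw [encInt_injective h.1, h2]

theorem encPolyMap_injective : Function.Injective encPolyMap := by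
  rintro ⟨n, fs⟩ ⟨n', fs'⟩ h
  simp only [encPolyMap, D.cons.injEq] at h
  obtain ⟨h1, h2⟩ := h
  obtain rfl := un_injective h1
  rw [encList_injective encPoly_injective h2]

theorem encD_append_inj (a : D) : ∀ (b : D) (x y : List Bool), encD a ++ x = encD b ++ y →
    a = b ∧ x = y := by
  induction a with
  | nil =>
    intro b x y h
    cases b with
    | nil => simpa [encD] using h
    | cons b₁ b₂ => simp [encD] at h
  | cons a₁ a₂ ih₁ ih₂ =>
    intro b x y h
    cases b with
    | nil => simp [encD] at h
    | cons b₁ b₂ =>
      simp only [encD, List.cons_append, List.append_assoc, List.cons.injEq, true_and] at h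
      obtain ⟨h1, h2⟩ := ih₁ _ _ _ h
      obtain ⟨h3, h4⟩ := ih₂ _ _ _ h2
      exact ⟨by rw [h1, h3], h4⟩

theorem encD_injective : Function.Injective encD := by
  intro a b h
  exact (encD_append_inj a b [] [] (by rw [h])).1

/-! ### decision problems -/

/-- A decision problem: instances, a binary code of the instances, and the yes-instances. -/
structure Problem where
  /-- the instances -/
  Inst : Type
  /-- the binary code of an instance -/
  code : Inst → List Bool
  /-- different instances have different codes -/
  code_injective : Function.Injective code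
  /-- the yes-instances -/
  Yes : Inst → Prop

/-- Polynomial time many-one reducibility: a function from the instances of `P` to the instances of
`Q`, computed on the codes by a multi-stack Turing machine in polynomial time, that preserves and
reflects the answer. -/
def Problem.ReducesTo (P Q : Problem) : Prop :=
  ∃ f : P.Inst → Q.Inst, Nonempty (Turing.TM2ComputableInPolyTime P.code Q.code f) ∧
    ∀ a, P.Yes a ↔ Q.Yes (f a)

/-- Truth over `ℝ` of sentences `∀ x ∈ ℝ^k, ∃ y ∈ ℝ^l, φ(x, y)`. -/
def AETruth : Problem where
  Inst := Sentence
  code S := encD (encSentence S)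
  code_injective := encD_injective.comp encSentence_injective
  Yes S := S.IsTrue

/-- The full-space version of the surjectivity problem: is the given integer polynomial map
`ℝ^n → ℝ^m` surjective? -/
def Surjectivity : Problem where
  Inst := PolyMap
  code F := encD (encPolyMap F)
  code_injective := encD_injective.comp encPolyMap_injective
  Yes F := F.IsSurj

/-- The class `∀∃ℝ`: the problems with a polynomial time many-one reduction to the truth of
`∀∃`-sentences over `ℝ`. -/
def InAER (P : Problem) : Prop := P.ReducesTo AETruth

/-- `∀∃ℝ`-hardness. -/
def AERHard (P : Problem) : Prop := ∀ Q : Problem, InAER Q → Q.ReducesTo P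

/-- `∀∃ℝ`-completeness. -/
def AERComplete (P : Problem) : Prop := InAER P ∧ AERHard P

end Pool.Agent.helper88.Surj
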