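import Pool.Agent.helper88.SurjProg

/-!
# The reduction is computable in polynomial time
-/

namespace Pool.Agent.helper88.Surj

open Pool.Agent.TM2Lib Pool.Agent.TM2Lib.D Pool.Agent.helper88

/-! ### sizes -/

theorem size_un (n : ℕ) : (un n).size = 2 * n + 1 := by
  induction n with
  | zero => rfl
  | succ n ih => simp only [un, size_cons, size_nil, ih]; omega

theorem len_un (n : ℕ) : (un n).len = n := by
  induction n with
  | zero => rfl
  | succ n ih => simp only [un, D.len, ih]

theorem size_one : (encInt 1).size = 7 := by
  simp [encInt, Nat.one_bits, bitsD, ofBool]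

theorem size_neg : (encInt (-1)).size = 9 := by
  simp [encInt, Nat.one_bits, bitsD, ofBool]

theorem encList_append {α : Type} (f : α → D) (a b : List α) :
    (encList f (a ++ b)).size + 1 = (encList f a).size + (encList f b).size := by
  induction a with
  | nil => simp [encList]; omega
  | cons x a ih => simp only [List.cons_append, encList, size_cons]; omega

theorem polysOf_append (a b : List Entry) : polysOf (a ++ b) = polysOf a ++ polysOf b := by
  simp [polysOf]

/-- size of the stack -/
def stS {n : ℕ} (S : St n) : ℕ := (encList encSI S.stack).size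

/-- size of the output -/
def outS {n : ℕ} (S : St n) : ℕ := (encList encRPoly (polysOf S.out)).size

theorem size_kids {n : ℕ} (c : ℕ) (it : Item n) :
    (encList encSI (kids c it)).size ≤ (encItem it).size + 4 * c + 12 := by
  rcases it with t | φ
  · rcases t with z | z | ⟨a, b⟩ | ⟨a, b⟩ <;>
      simp only [kids, encList, encSI, encItem, encTm, size_cons, size_nil, size_un] <;> omega
  · rcases φ with ⟨a, b⟩ | ⟨a, b⟩ | ⟨a, b⟩ | ⟨a, b⟩ | ⟨a, b⟩ | a <;>
      simp only [kids, encList, encSI, encItem, encFm, size_cons, size_nil, size_un] <;> omega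

theorem size_eqs {n : ℕ} (i c : ℕ) (hn : n ≤ c) (hi : i < c) (it : Item n) :
    (encList encRPoly (polysOf (gads c (eqs i c it)))).size ≤
      1000 * ((encItem it).size + c + 1) := by
  rcases it with t | φ
  · rcases t with z | z | ⟨a, b⟩ | ⟨a, b⟩ <;>
      simp only [eqs, gads, polysOf, List.flatMap_cons, List.flatMap_nil, Entry.polys,
        List.append_nil, List.cons_append, List.nil_append, List.map_cons, List.map_nil,
        encList, encRPoly, encItem, encTm, size_cons, size_nil, size_un, size_one,
        size_neg]
    · have := z.2; omega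
    · omega
    · omega
    · omega
  · rcases φ with ⟨a, b⟩ | ⟨a, b⟩ | ⟨a, b⟩ | ⟨a, b⟩ | ⟨a, b⟩ | a <;>
      simp only [eqs, gads, polysOf, List.flatMap_cons, List.flatMap_nil, Entry.polys,
        List.append_nil, List.cons_append, List.nil_append, List.map_cons, List.map_nil,
        encList, encRPoly, encItem, encFm, size_cons, size_nil, size_un, size_one,
        size_neg] <;> omega

theorem step_bounds {n k base : ℕ} {S : St n} (hI : Inv k base S) :
    (step S).c ≤ S.c + 9 ∧ (step S).kc ≤ S.kc ∧ stS (step S) ≤ stS S + (4 * S.c + 12) ∧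
      outS (step S) ≤ outS S + 1000 * (stS S + S.c + 1) := by
  obtain ⟨stack, c, out, kc⟩ := S
  obtain ⟨hn, hk, hkn, hb, hm, hstack, hout, hnodup, hst, hidn⟩ := hI
  rcases stack with _ | ⟨⟨i, it⟩, st⟩
  · rcases kc with _ | j
    · refine ⟨by simp [step], le_rfl, by simp [step], by simp [step]⟩
    · simp only at hk hb
      refine ⟨by simp [step], by simp [step], by simp [step, stS], ?_⟩
      simp only [step, outS, stS, polysOf, List.flatMap_cons, Entry.polys, List.cons_append,
        List.nil_append, encList, encRPoly, size_cons, size_nil, size_un, size_one]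
      omega
  · simp only at hb
    have hi := (hstack (i, it) (by simp)).1
    simp only at hi
    have h1 := size_kids c it
    have h2 := size_eqs i c (by omega) hi it
    have h3 := encList_append encSI (kids c it) st
    have h4 := encList_append encRPoly (polysOf (gads c (eqs i c it))) (polysOf out)
    refine ⟨le_rfl, le_rfl, ?_, ?_⟩
    · simp only [step, stS, encList, size_cons]
      have : (encSI (i, it)).size = (un i).size + (encItem it).size + 1 := size_cons _ _
      omega
    · simp only [step, outS, stS, polysOf_append, encList, size_cons]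
      have : (encSI (i, it)).size = (un i).size + (encItem it).size + 1 := size_cons _ _
      omega

theorem iterate_bounds {n k base : ℕ} {S : St n} (hI : Inv k base S) (N K : ℕ) (hK : K ≤ N) :
    (step^[K] S).c ≤ S.c + 9 * K ∧ (step^[K] S).kc ≤ S.kc ∧
      stS (step^[K] S) ≤ stS S + K * (4 * (S.c + 9 * N) + 12) ∧
      outS (step^[K] S) ≤ outS S +
        K * (1000 * (stS S + N * (4 * (S.c + 9 * N) + 12) + (S.c + 9 * N) + 1)) := by
  induction K with
  | zero => simp
  | succ K ih =>
    obtain ⟨h1, h2, h3, h4⟩ := ih (by omega)
    obtain ⟨g1, g2, g3, g4⟩ := step_bounds (hI.iterate K)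
    rw [Function.iterate_succ_apply']
    have hc : (step^[K] S).c ≤ S.c + 9 * N := by omega
    obtain ⟨A, hA⟩ : ∃ A, A = 4 * (S.c + 9 * N) + 12 := ⟨_, rfl⟩
    rw [← hA] at h3 h4 ⊢
    have hs : stS (step^[K] S) ≤ stS S + N * A :=
      h3.trans (Nat.add_le_add_left (Nat.mul_le_mul_right _ (by omega)) _)
    obtain ⟨NA, hNA⟩ : ∃ NA, NA = N * A := ⟨_, rfl⟩
    rw [← hNA] at hs h4 ⊢
    obtain ⟨B, hB⟩ : ∃ B, B = 1000 * (stS S + NA + (S.c + 9 * N) + 1) := ⟨_, rfl⟩
    rw [← hB] at h4 ⊢
    refine ⟨by omega, by omega, ?_, ?_⟩
    · rw [Nat.succ_mul]; omega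
    · rw [Nat.succ_mul]; omega

theorem size_encSt {n : ℕ} (S : St n) :
    (encSt S).size = stS S + outS S + 2 * S.c + 2 * S.kc + 5 := by
  simp only [encSt, size_cons, size_un, stS, outS]
  omega

/-! ### number of steps -/

theorem sz_tm_le {n : ℕ} (t : Tm n) : t.sz ≤ (encTm t).size := by
  induction t with
  | var i => simp only [Tm.sz, encTm, size_cons]; omega
  | const c => simp only [Tm.sz, encTm, size_cons]; omega
  | add a b iha ihb => simp only [Tm.sz, encTm, size_cons]; omega
  | mul a b iha ihb => simp only [Tm.sz, encTm, size_cons]; omega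

theorem sz_fm_le {n : ℕ} (t : Fm n) : t.sz ≤ (encFm t).size := by
  induction t with
  | eq a b =>
    have := sz_tm_le a; have := sz_tm_le b; simp only [Fm.sz, encFm, size_cons]; omega
  | lt a b =>
    have := sz_tm_le a; have := sz_tm_le b; simp only [Fm.sz, encFm, size_cons]; omega
  | le a b =>
    have := sz_tm_le a; have := sz_tm_le b; simp only [Fm.sz, encFm, size_cons]; omega
  | and a b iha ihb => simp only [Fm.sz, encFm, size_cons]; omega
  | or a b iha ihb => simp only [Fm.sz, encFm, size_cons]; omega
  | not a iha => simp only [Fm.sz, encFm, size_cons]; omega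

/-- number of steps of the machine -/
def nSteps (S : Sentence) : ℕ := (encD (encSentence S)).length

theorem mu_le (S : Sentence) : (init S).mu ≤ nSteps S := by
  have h1 := sz_fm_le S.φ
  have h2 : nSteps S = (encSentence S).size := rfl
  rw [h2]
  simp only [encSentence, size_cons, size_un, init, St.mu, List.map_cons, List.map_nil,
    List.sum_cons, List.sum_nil, Item.sz]
  omega

/-- the reduction -/
def red (S : Sentence) : PolyMap := finalMap (step^[nSteps S] (init S))

theorem red_correct (S : Sentence) : (red S).IsSurj ↔ S.IsTrue := correct S _ (mu_le S)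

/-! ### the program -/

theorem iterate_succ_un (k l : ℕ) : (D.cons D.nil)^[k] (un l) = un (k + l) := by
  induction k with
  | zero => simp
  | succ k ih =>
    rw [Function.iterate_succ_apply', ih]
    have : k + 1 + l = (k + l) + 1 := by omega
    rw [this]; rfl

theorem comp_sum : Comp (fun S : Sentence => encD (encSentence S))
    (fun S => encD (un (S.k + S.l))) := by
  have hs : PD (fun d => D.cons D.nil d) := PD.cons (PD.const _) PD.id
  have h := Comp.iter (α := Sentence) (σ := D) (encσ := fun d => d)
    (step := fun d => D.cons D.nil d) hs (fun S => un S.k) (fun S => un S.l)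
    (4 * Polynomial.X) (by
      intro S j hj
      rw [len_un] at hj
      have e : (fun d => D.cons D.nil d)^[j] (un S.l) = un (j + S.l) := iterate_succ_un j S.l
      rw [e, size_un]
      have : (encD (D.cons (un S.k) (un S.l))).length = (un S.k).size + (un S.l).size + 1 :=
        size_cons _ _
      simp only [Polynomial.eval_mul, Polynomial.eval_ofNat, Polynomial.eval_X, this, size_un]
      omega)
  have e : (fun S : Sentence => encD ((fun d => D.cons D.nil d)^[(un S.k).len] (un S.l))) =
      fun S => encD (un (S.k + S.l)) := by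
    funext S
    rw [len_un]
    exact congrArg encD (iterate_succ_un S.k S.l)
  rw [e] at h
  have h0 : Comp (fun S : Sentence => encD (encSentence S))
      (fun S => encD (D.cons (un S.k) (un S.l))) := by
    exact Comp.reindex (Ex.pd (.cons (.hd .inp) (.hd (.tl .inp)))) encSentence
  exact h0.trans h

/-- program for the initial state -/
def initEx : Ex :=
  .cons (.cons (.cons (.hd .inp) (.tl (.tl (.tl .inp)))) (.lit .nil))
    (.cons (P.sucs 10 (.hd .inp))
      (.cons (P.eL [
          P.poly [(P.one, [P.sucs 4 (.hd .inp), P.sucs 5 (.hd .inp)]), (P.one, []),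
            (P.neg, [.hd .inp])],
          P.poly [(P.one, [P.sucs 4 (.hd .inp), P.sucs 4 (.hd .inp), P.sucs 4 (.hd .inp),
            P.sucs 5 (.hd .inp)]), (P.neg, [P.sucs 5 (.hd .inp)]),
            (P.one, [P.sucs 4 (.hd .inp), P.sucs 4 (.hd .inp)]),
            (P.neg, [P.sucs 4 (.hd .inp), P.sucs 4 (.hd .inp), .hd .inp])]] (.lit .nil))
        (.hd (.tl .inp))))

theorem initEx_eval (S : Sentence) :
    initEx.eval (D.cons (un (S.k + S.l)) (encSentence S)) = encSt (init S) := rfl

theorem comp_init : Comp (fun S : Sentence => encD (encSentence S))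
    (fun S => encD (encSt (init S))) := by
  have h1 : Comp (fun S : Sentence => encD (encSentence S))
      (fun S => encD (D.cons (un (S.k + S.l)) (encSentence S))) :=
    Comp.pair comp_sum (Comp.refl _)
  have h2 := Comp.reindex (Ex.pd initEx)
    (fun S : Sentence => D.cons (un (S.k + S.l)) (encSentence S))
  simp only [initEx_eval] at h2
  exact h1.trans h2

theorem iterate_eval {n : ℕ} (S : St n) (K : ℕ) :
    P.stepEx.eval^[K] (encSt S) = encSt (step^[K] S) := by
  induction K with
  | zero => rfl
  | succ K ih =>
    rw [Function.iterate_succ_apply', Function.iterate_succ_apply', ih, stepEx_eval]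

theorem comp_run : Comp (fun S : Sentence => encD (encSentence S))
    (fun S => encD (encSt (step^[nSteps S] (init S)))) := by
  have h1 : Comp (fun S : Sentence => encD (encSentence S))
      (fun S => encD (D.cons (ofBits (encD (encSentence S))) (encSt (init S)))) :=
    Comp.pair (Comp.bits _) comp_init
  have h2 := Comp.iter (α := Sentence) (σ := D) (encσ := fun d => d)
    (step := P.stepEx.eval) (Ex.pd P.stepEx) (fun S => ofBits (encD (encSentence S)))
    (fun S => encSt (init S))
    (Polynomial.X + Polynomial.X * (4 * (Polynomial.X + 9 * Polynomial.X) + 12) +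
      (Polynomial.X + Polynomial.X * (1000 * (Polynomial.X + Polynomial.X *
        (4 * (Polynomial.X + 9 * Polynomial.X) + 12) + (Polynomial.X + 9 * Polynomial.X)
          + 1))) + 2 * (Polynomial.X + 9 * Polynomial.X) + 2 * Polynomial.X + 5) (by
      intro S j hj
      rw [len_ofBits] at hj
      obtain ⟨L, hL⟩ : ∃ L, L = (encD (D.cons (ofBits (encD (encSentence S)))
        (encSt (init S)))).length := ⟨_, rfl⟩
      rw [← hL, iterate_eval, size_encSt]
      have hL' : L = (ofBits (encD (encSentence S))).size + (encSt (init S)).size + 1 := by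
        rw [hL]; exact size_cons _ _
      have h3 := len_lt_size (ofBits (encD (encSentence S)))
      rw [len_ofBits] at h3
      have h4 := size_encSt (init S)
      obtain ⟨N, hN⟩ : ∃ N, N = (encD (encSentence S)).length := ⟨_, rfl⟩
      rw [← hN] at hj h3
      obtain ⟨g1, g2, g3, g4⟩ := iterate_bounds (inv_init S) N j hj
      have hNL : N ≤ L := by omega
      have hcL : (init S).c ≤ L := by omega
      have hkL : (init S).kc ≤ L := by omega
      have hsL : stS (init S) ≤ L := by omega
      have hoL : outS (init S) ≤ L := by omega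
      have e1 : (step^[j] (init S)).c ≤ L + 9 * L := by omega
      have e2 : (step^[j] (init S)).kc ≤ L := by omega
      have e3 : stS (step^[j] (init S)) ≤ L + L * (4 * (L + 9 * L) + 12) := by
        refine g3.trans (Nat.add_le_add hsL (Nat.mul_le_mul (by omega) ?_))
        omega
      have e5 : N * (4 * ((init S).c + 9 * N) + 12) ≤ L * (4 * (L + 9 * L) + 12) :=
        Nat.mul_le_mul hNL (by omega)
      have e4 : outS (step^[j] (init S)) ≤
          L + L * (1000 * (L + L * (4 * (L + 9 * L) + 12) + (L + 9 * L) + 1)) := by
        refine g4.trans (Nat.add_le_add hoL (Nat.mul_le_mul (by omega) ?_))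
        omega
      simp only [Polynomial.eval_add, Polynomial.eval_mul, Polynomial.eval_X,
        Polynomial.eval_ofNat, Polynomial.eval_one]
      omega)
  have e : (fun S : Sentence => encD (P.stepEx.eval^[(ofBits (encD (encSentence S))).len]
      (encSt (init S)))) = fun S => encD (encSt (step^[nSteps S] (init S))) := by
    funext S
    rw [len_ofBits, iterate_eval]
    rfl
  rw [e] at h2
  exact h1.trans h2

/-! ### the final map -/

theorem encPoly_conv (N : ℕ) (p : RPoly) (h : ∀ i ∈ pvars p, i < N + 1) :
    encPoly (conv N p) = encRPoly p := by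
  induction p with
  | nil => rfl
  | cons m p ih =>
    have h1 : encPoly (conv N (m :: p)) = .cons (.cons (encInt m.1)
      (encList (fun i : Fin (N + 1) => un i) (m.2.map (Fin.ofNat (N + 1)))))
      (encPoly (conv N p)) := rfl
    have h2 : encRPoly (m :: p) = .cons (.cons (encInt m.1) (encList un m.2)) (encRPoly p) :=
      rfl
    have h3 : ∀ l : List ℕ, (∀ i ∈ l, i < N + 1) →
        encList (fun i : Fin (N + 1) => un i) (l.map (Fin.ofNat (N + 1))) = encList un l := by
      intro l hl
      induction l with
      | nil => rfl
      | cons a l ih =>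
        simp only [List.map_cons, encList]
        rw [ih (fun i hi => hl i (by simp [hi]))]
        have := hl a (by simp)
        simp only [Fin.ofNat]
        rw [Nat.mod_eq_of_lt this]
    have h4 : ∀ i ∈ m.2, i < N + 1 := fun i hi => h i (by
      simp only [pvars, List.flatMap_cons, List.mem_append]; exact Or.inl hi)
    have h5 : ∀ i ∈ pvars p, i < N + 1 := fun i hi => h i (by
      simp only [pvars, List.flatMap_cons, List.mem_append] at hi ⊢; exact Or.inr hi)
    rw [h1, h2, ih h5, h3 m.2 h4]

theorem encPolyMap_finalMap {n k base : ℕ} {S : St n} (hI : Inv k base S)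
    : encPolyMap (finalMap S) =
      .cons (un (S.c + 1)) (encList encRPoly (polysOf S.out)) := by
  obtain ⟨hn, hk, hkn, hb, hm, hstack, hout, hnodup, hst, hidn⟩ := hI
  have hidlt : ∀ j, j ∈ idns S.out → j < k := by
    intro j
    rw [hidn, List.mem_range'_1]; omega
  have hvars : ∀ q ∈ polysOf S.out, ∀ i ∈ pvars q, i < S.c + 1 := by
    intro q hq i hi
    rcases polysOf_vars hq hi with h | h | ⟨s, t, p, h, h'⟩
    · have := hidlt i h; omega
    · have := (hst i h).1; omega
    · have := (hout s t p h i h').1; omega
  have h1 : encPolyMap (finalMap S) = .cons (un (S.c + 1))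
    (encList encPoly ((polysOf S.out).map (conv S.c))) := rfl
  rw [h1]
  congr 1
  generalize polysOf S.out = l at hvars
  induction l with
  | nil => rfl
  | cons q l ih =>
    simp only [List.map_cons, encList]
    rw [encPoly_conv S.c q (hvars q (by simp)), ih (fun q hq => hvars q (by simp [hq]))]

/-- program for the final map -/
def finEx : Ex := .cons (P.sucs 1 (.hd (.tl .inp))) (.hd (.tl (.tl .inp)))

theorem finEx_eval {n : ℕ} (S : St n) : finEx.eval (encSt S) =
    .cons (un (S.c + 1)) (encList encRPoly (polysOf S.out)) := rfl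

theorem comp_red : Comp (fun S : Sentence => encD (encSentence S))
    (fun S => encD (encPolyMap (red S))) := by
  have h := Comp.reindex (Ex.pd finEx) (fun S : Sentence => encSt (step^[nSteps S] (init S)))
  have e : (fun S : Sentence => encD (finEx.eval (encSt (step^[nSteps S] (init S))))) =
      fun S => encD (encPolyMap (red S)) := by
    funext S
    rw [finEx_eval, red, encPolyMap_finalMap ((inv_init S).iterate _)]
  rw [e] at h
  exact comp_run.trans h

theorem ReducesTo.trans {P Q R : Problem} (h1 : P.ReducesTo Q) (h2 : Q.ReducesTo R) :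
    P.ReducesTo R := by
  obtain ⟨f, ⟨hf⟩, hf'⟩ := h1
  obtain ⟨g, ⟨hg⟩, hg'⟩ := h2
  have c1 := Comp.of_tm hf
  have c2 := Comp.reindex (Comp.of_tm hg) f
  exact ⟨fun a => g (f a), (Comp.trans c1 c2).to_tm, fun a => (hf' a).trans (hg' (f a))⟩

theorem AETruth_reducesTo : AETruth.ReducesTo Surjectivity :=
  ⟨red, Comp.to_tm comp_red, fun S => (red_correct S).symm⟩

/-- the surjectivity problem is `∀∃ℝ`-hard -/
theorem hard : AERHard Surjectivity := fun _ hQ => ReducesTo.trans hQ AETruth_reducesTo

end Pool.Agent.helper88.Surj
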