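import Mathlib

/-!
# Online load balancing of unit tasks under restricted assignment, with reassignments

The model of the problem MP_4bcfd7_lc.

There are `n` machines, the elements of `Fin n`. An online sequence is a finite list of events. Each
event is the arrival of a new unit task (named by a natural number, together with its nonempty set of
eligible machines), or the departure of a task that is currently active. Nothing is said about the
duration of a task before it departs.

An online algorithm says, for each history (list of the events so far), on which machine each active
task sits after the algorithm has reacted to the last event. Between two consecutive histories the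
number of tasks that are active both before and after the new event, and that sit on different
machines before and after, is counted as the number of reassignments (the least number of single moves
that leads from one placement to the other). Placing a newly arrived task is not a reassignment.
-/

set_option autoImplicit false

namespace Pool.Agent.Helper88.LoadModel

/-- An event for `n` machines. -/
inductive Event (n : ℕ)
  /-- a new unit task, named `j`, arrives; `M` is its set of eligible machines -/
  | arrive (j : ℕ) (M : Finset (Fin n))
  /-- the task named `j` departs -/
  | depart (j : ℕ)

/-- What a sequence of events leads to. -/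
structure State (n : ℕ) where
  /-- the names of all tasks that have arrived so far -/
  seen : Finset ℕ
  /-- the names of the active tasks: those that have arrived and not departed -/
  active : Finset ℕ
  /-- the eligible sets of the tasks that have arrived -/
  elig : ℕ → Finset (Fin n)

/-- The effect of one event. -/
def State.step {n : ℕ} (s : State n) : Event n → State n
  | .arrive j M => ⟨insert j s.seen, insert j s.active, Function.update s.elig j M⟩
  | .depart j => ⟨s.seen, s.active.erase j, s.elig⟩

/-- The state after the sequence `σ` of events; at the start there is no task. -/
def stateAfter {n : ℕ} (σ : List (Event n)) : State n :=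
  σ.foldl State.step ⟨∅, ∅, fun _ => ∅⟩

/-- An arriving task is new and has a nonempty eligible set; a departing task is active. -/
def State.Legal {n : ℕ} (s : State n) : Event n → Prop
  | .arrive j M => j ∉ s.seen ∧ M.Nonempty
  | .depart j => j ∈ s.active

/-- `σ` is a legal sequence: each of its events is legal after the events before it. -/
def Valid {n : ℕ} (σ : List (Event n)) : Prop :=
  ∀ (p : List (Event n)) (a : Event n) (q : List (Event n)), σ = p ++ a :: q →
    (stateAfter p).Legal a

/-- The placement `f` puts each active task on one of its eligible machines. -/
def Respects {n : ℕ} (s : State n) (f : ℕ → Fin n) : Prop := ∀ j ∈ s.active, f j ∈ s.elig j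

/-- The load of the machine `i`: the number of active tasks that `f` puts on `i`. -/
def load {n : ℕ} (s : State n) (f : ℕ → Fin n) (i : Fin n) : ℕ :=
  (s.active.filter fun j => f j = i).card

/-- The maximum load over all machines. -/
def maxLoad {n : ℕ} (s : State n) (f : ℕ → Fin n) : ℕ := Finset.univ.sup fun i => load s f i

/-- The least possible maximum load of a placement of the active tasks on eligible machines. -/
noncomputable def optAt {n : ℕ} (s : State n) : ℕ :=
  sInf {k | ∃ f : ℕ → Fin n, Respects s f ∧ maxLoad s f = k}

/-- `OPT(σ)`: the maximum over time of the least possible maximum load. -/
noncomputable def OPT {n : ℕ} (σ : List (Event n)) : ℕ :=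
  (Finset.range (σ.length + 1)).sup fun t => optAt (stateAfter (σ.take t))

/-- An online algorithm for `n` machines: after each history `σ` it puts the task `j` on the machine
`assign σ j`, which has to be eligible if `j` is active. Any dependence on the history is allowed. -/
structure OnlineAlgorithm (n : ℕ) where
  /-- the machine of each task after each history -/
  assign : List (Event n) → ℕ → Fin n
  /-- active tasks sit on eligible machines -/
  respects : ∀ σ, Valid σ → Respects (stateAfter σ) (assign σ)

/-- `A(σ)`: the maximum over time of the maximum load of the algorithm. -/
def OnlineAlgorithm.cost {n : ℕ} (A : OnlineAlgorithm n) (σ : List (Event n)) : ℕ :=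
  (Finset.range (σ.length + 1)).sup fun t => maxLoad (stateAfter (σ.take t)) (A.assign (σ.take t))

/-- The number of tasks that are active after both of the histories `p` and `q` and that sit on
different machines after `p` and after `q`. -/
def moved {n : ℕ} (A : OnlineAlgorithm n) (p q : List (Event n)) : ℕ :=
  (((stateAfter p).active ∩ (stateAfter q).active).filter
    fun j => A.assign p j ≠ A.assign q j).card

/-- The total number of reassignments that the algorithm makes on `σ`. -/
def OnlineAlgorithm.reassignments {n : ℕ} (A : OnlineAlgorithm n) (σ : List (Event n)) : ℕ :=
  ∑ t ∈ Finset.range σ.length, moved A (σ.take t) (σ.take (t + 1))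

/-! ### Sanity checks -/

lemma stateAfter_snoc {n : ℕ} (p : List (Event n)) (a : Event n) :
    stateAfter (p ++ [a]) = (stateAfter p).step a := by
  simp [stateAfter, List.foldl_append]

lemma valid_take {n : ℕ} (σ : List (Event n)) (h : Valid σ) (t : ℕ) : Valid (σ.take t) := by
  intro p a q hp
  apply h p a (q ++ σ.drop t)
  rw [← List.cons_append, ← List.append_assoc, ← hp, List.take_append_drop]

/-- After a legal sequence every active task has an eligible machine. -/
lemma elig_nonempty {n : ℕ} (σ : List (Event n)) (h : Valid σ) :
    (stateAfter σ).active ⊆ (stateAfter σ).seen ∧
    ∀ j ∈ (stateAfter σ).seen, ((stateAfter σ).elig j).Nonempty := by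
  induction σ using List.reverseRecOn with
  | nil => simp [stateAfter]
  | append_singleton p a ih =>
    have hp : Valid p := by
      have := valid_take _ h p.length
      simpa using this
    obtain ⟨ih1, ih2⟩ := ih hp
    have hleg := h p a [] rfl
    rw [stateAfter_snoc]
    cases a with
    | arrive j M =>
      refine ⟨Finset.insert_subset_insert _ ih1, ?_⟩
      intro i hi
      simp only [State.step, Finset.mem_insert] at hi ⊢
      by_cases hij : i = j
      · subst hij; simpa using hleg.2
      · rw [Function.update_of_ne hij]
        exact ih2 i (hi.resolve_left hij)
    | depart j =>
      exact ⟨(Finset.erase_subset _ _).trans ih1, ih2⟩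

/-- There are online algorithms for each positive number of machines. -/
theorem nonempty_onlineAlgorithm {n : ℕ} (hn : 0 < n) : Nonempty (OnlineAlgorithm n) := by
  classical
  refine ⟨⟨fun σ j => if h : ((stateAfter σ).elig j).Nonempty then h.choose else ⟨0, hn⟩, ?_⟩⟩
  intro σ hσ j hj
  obtain ⟨h1, h2⟩ := elig_nonempty σ hσ
  have h3 := h2 j (h1 hj)
  simp only [h3, dif_pos]
  exact h3.choose_spec

end Pool.Agent.Helper88.LoadModel
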