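import Mathlib
import Pool.Agent.helper88.LoadModel

/-!
# The lower bound for MP_4bcfd7_lc: iterated covers of a bundle of parallel edges

Tasks with two eligible machines are edges; a placement of the tasks is an orientation of the current
graph. A *gadget* of stage `k` and parameter `D` consists of vertices, edges, and a timeline of
insertions, deletions and *bursts* of vertices (bursts are only marks, not real events), so that

* every edge is inserted once and later deleted once;
* at all times the current graph can be oriented with all loads at most `1`; at the deletion of an edge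
  `e` the graph without `e` even has such an orientation with load `0` at both ends of `e` (`Good`);
* during its life every edge sees at least `k` alternations between bursts of its two ends;
* every vertex bursts exactly `k` times, and `2 |E| = D |V|`.

If all loads are at most `c`, then in each alternation of an edge either it is moved in between, or
it sits on the bursting vertex at one of the two bursts. Hence `k |E| ≤ moves + 2 c k |V|`
(`main_count`), so that `moves ≥ k |E| / 2` for `D = 8 c`, while there are only `2 |E|` events.

The gadget of stage `0` has two vertices and `D` parallel edges, inserted and deleted one after the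
other. The *lift* of a gadget (`trav`, `Gadget.lift`) has the vertices `(v, h)` and the edges `(e, h)`
for all `h : E → Bool`, where `(e, h)` joins `(x e, h)` and `(y e, h with the bit e flipped)`. Its
timeline runs through the old timeline with the set `Q` of all `h`, doing each insertion and each
burst for all `h ∈ Q`; at the deletion of `e` it first runs through the rest of the old timeline with
the half of `Q` where the bit `e` is `false`, then with the other half, and then deletes all `(e, h)`;
at the end of the old timeline all vertices `(v, h)`, `h ∈ Q`, burst. This adds at least one alternation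
for each edge and exactly one burst for each vertex (`alt_trav`, `nb_trav`), and keeps the orientation
property (`good_trav`).
-/

set_option autoImplicit false
set_option linter.unusedSectionVars false
set_option linter.unusedSimpArgs false

namespace Pool.Agent.Helper88.LoadLowerBound

open Pool.Agent.Helper88.LoadModel

/-- abstract timeline events -/
inductive Ev (V E : Type)
  | ins (e : E)
  | del (e : E)
  | burst (v : V)

open Ev

section defs
variable {V E : Type} [DecidableEq V] [DecidableEq E]

/-- insertions (true) and deletions (false) of `e` in `L` -/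
def evs (e : E) : List (Ev V E) → List Bool
  | [] => []
  | .ins e' :: L => if e' = e then true :: evs e L else evs e L
  | .del e' :: L => if e' = e then false :: evs e L else evs e L
  | .burst _ :: L => evs e L

/-- number of bursts of `v` in `L` -/
def nb (v : V) : List (Ev V E) → ℕ
  | [] => 0
  | .ins _ :: L => nb v L
  | .del _ :: L => nb v L
  | .burst w :: L => (if w = v then 1 else 0) + nb v L

/-- the sides (false for `x e`, true for `y e`) of the bursts that `e` sees while alive -/
def tr (x y : E → V) (e : E) : Bool → List (Ev V E) → List Bool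
  | _, [] => []
  | al, .ins e' :: L => tr x y e (al || decide (e' = e)) L
  | al, .del e' :: L => tr x y e (al && !decide (e' = e)) L
  | al, .burst v :: L =>
      (if al then (if v = x e then [false] else if v = y e then [true] else []) else [])
        ++ tr x y e al L

/-- number of alternations of a word, where `l` is the letter before it -/
def alt : Option Bool → List Bool → ℕ
  | _, [] => 0
  | l, b :: w => (if l = some (!b) then 1 else 0) + alt (some b) w

/-- flip coordinate `e` -/
def flip (e : E) (h : E → Bool) : E → Bool := Function.update h e (!h e)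

end defs

section trav
variable {V E : Type} [Fintype V] [DecidableEq E]

/-- the final bursts of all vertices over `Q` -/
noncomputable def leaf (Q : List (E → Bool)) : List (Ev (V × (E → Bool)) (E × (E → Bool))) :=
  Q.flatMap fun h => (Finset.univ : Finset V).toList.map fun v => Ev.burst (v, h)

/-- the lifted timeline -/
noncomputable def trav : List (Ev V E) → List (E → Bool) → List (Ev (V × (E → Bool)) (E × (E → Bool)))
  | [], Q => leaf Q
  | .ins e :: L, Q => Q.map (fun h => Ev.ins (e, h)) ++ trav L Q
  | .burst v :: L, Q => Q.map (fun h => Ev.burst (v, h)) ++ trav L Q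
  | .del e :: L, Q => trav L (Q.filter fun h => !h e) ++
      (trav L (Q.filter fun h => h e) ++ Q.map (fun h => Ev.del (e, h)))

end trav

section lemmas
variable {V E : Type} [DecidableEq V] [DecidableEq E]

@[simp] lemma evs_append (e : E) (L M : List (Ev V E)) : evs e (L ++ M) = evs e L ++ evs e M := by
  induction L with
  | nil => rfl
  | cons a L ih =>
    cases a with
    | ins e' => by_cases h : e' = e <;> simp [evs, h, ih]
    | del e' => by_cases h : e' = e <;> simp [evs, h, ih]
    | burst v => simp [evs, ih]

@[simp] lemma nb_append (v : V) (L M : List (Ev V E)) : nb v (L ++ M) = nb v L + nb v M := by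
  induction L with
  | nil => simp [nb]
  | cons a L ih =>
    cases a with
    | ins e' => simp [nb, ih]
    | del e' => simp [nb, ih]
    | burst w => simp [nb, ih, add_assoc]

lemma alt_append (l : Option Bool) (w z : List Bool) :
    alt l (w ++ z) = alt l w + alt (if w = [] then l else w.getLast?) z := by
  induction w generalizing l with
  | nil => simp [alt]
  | cons b w ih =>
    simp only [List.cons_append, alt, ih]
    by_cases hw : w = []
    · subst hw; simp [alt]
    · obtain ⟨c, w', rfl⟩ := List.exists_cons_of_ne_nil hw
      simp [add_assoc]

lemma alt_two (l : Option Bool) (b : Bool) (p q : ℕ) :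
    1 ≤ alt l (List.replicate (p+1) b ++ List.replicate (q+1) (!b)) := by
  rw [alt_append]
  have : alt (if List.replicate (p+1) b = [] then l else (List.replicate (p+1) b).getLast?)
      (List.replicate (q+1) (!b)) ≥ 1 := by
    rw [if_neg (by simp)]
    have h1 : (List.replicate (p+1) b).getLast? = some b := by
      simp [List.getLast?_replicate]
    rw [h1, List.replicate_succ]
    simp [alt]
  omega

end lemmas


section lift
variable {V E : Type} [Fintype V] [DecidableEq V] [Fintype E] [DecidableEq E]

@[simp] lemma flip_flip (e : E) (h : E → Bool) : flip e (flip e h) = h := by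
  funext a
  by_cases ha : a = e <;> simp [flip, ha]

lemma flip_ne (e e' : E) (hne : e' ≠ e) (h : E → Bool) : flip e h e' = h e' := by
  simp [flip, hne]

lemma flip_same (e : E) (h : E → Bool) : flip e h e = !h e := by
  simp [flip]

lemma flip_ne_self (e : E) (h : E → Bool) : flip e h ≠ h := by
  intro hh
  have := congrFun hh e
  simp [flip] at this

lemma evs_map_ins (e e' : E) (h : E → Bool) (Q : List (E → Bool)) (hQ : Q.Nodup) :
    evs (V := V × (E → Bool)) (e, h) (Q.map fun h' => Ev.ins (e', h')) =
      if e' = e ∧ h ∈ Q then [true] else [] := by
  classical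
  induction Q with
  | nil => simp [evs]
  | cons a Q ih =>
    rw [List.nodup_cons] at hQ
    simp only [List.map_cons, evs, ih hQ.2, Prod.mk.injEq, List.mem_cons]
    by_cases he : e' = e
    · by_cases ha : a = h
      · subst ha; simp [he, hQ.1]
      · simp [he, ha, Ne.symm ha, eq_comm]
    · simp [he]

lemma evs_map_del (e e' : E) (h : E → Bool) (Q : List (E → Bool)) (hQ : Q.Nodup) :
    evs (V := V × (E → Bool)) (e, h) (Q.map fun h' => Ev.del (e', h')) =
      if e' = e ∧ h ∈ Q then [false] else [] := by
  classical
  induction Q with
  | nil => simp [evs]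
  | cons a Q ih =>
    rw [List.nodup_cons] at hQ
    simp only [List.map_cons, evs, ih hQ.2, Prod.mk.injEq, List.mem_cons]
    by_cases he : e' = e
    · by_cases ha : a = h
      · subst ha; simp [he, hQ.1]
      · simp [he, ha, Ne.symm ha, eq_comm]
    · simp [he]

lemma evs_map_burst (e : E) (h : E → Bool) (v : V) (Q : List (E → Bool)) :
    evs (e, h) (Q.map fun h' => Ev.burst (v, h')) = [] := by
  induction Q with
  | nil => rfl
  | cons a Q ih => simpa [evs] using ih

lemma evs_burst_list {V' E' : Type} [DecidableEq E'] (a : E') (l : List V') :
    evs a (l.map Ev.burst) = [] := by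
  induction l with
  | nil => rfl
  | cons b l ih => simpa [evs] using ih

lemma leaf_eq (Q : List (E → Bool)) : leaf (V := V) (E := E) Q =
    (Q.flatMap fun h => (Finset.univ : Finset V).toList.map fun v => (v, h)).map Ev.burst := by
  simp [leaf, List.map_flatMap, Function.comp_def]

lemma evs_leaf (e : E) (h : E → Bool) (Q : List (E → Bool)) :
    evs (e, h) (leaf (V := V) Q) = [] := by
  rw [leaf_eq]; exact evs_burst_list _ _

lemma nb_map_leaf (v : V) (h a : E → Bool) (l : List V) (hl : l.Nodup) :
    nb (E := E × (E → Bool)) (v, h) (l.map fun w => Ev.burst (w, a)) =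
      if a = h ∧ v ∈ l then 1 else 0 := by
  induction l with
  | nil => simp [nb]
  | cons b l ih =>
    rw [List.nodup_cons] at hl
    simp only [List.map_cons, nb, ih hl.2, Prod.mk.injEq, List.mem_cons]
    by_cases he : a = h
    · by_cases ha : b = v
      · subst ha; simp [he, hl.1]
      · simp [he, ha, Ne.symm ha, eq_comm]
    · simp [he]

lemma nb_map_burst (v w : V) (h : E → Bool) (Q : List (E → Bool)) (hQ : Q.Nodup) :
    nb (E := E × (E → Bool)) (v, h) (Q.map fun h' => Ev.burst (w, h')) =
      if w = v ∧ h ∈ Q then 1 else 0 := by
  induction Q with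
  | nil => simp [nb]
  | cons a Q ih =>
    rw [List.nodup_cons] at hQ
    simp only [List.map_cons, nb, ih hQ.2, Prod.mk.injEq, List.mem_cons]
    by_cases he : w = v
    · by_cases ha : a = h
      · subst ha; simp [he, hQ.1]
      · simp [he, ha, Ne.symm ha, eq_comm]
    · simp [he]

lemma nb_map_ins (v : V) (e : E) (h : E → Bool) (Q : List (E → Bool)) :
    nb (v, h) (Q.map fun h' => Ev.ins (e, h')) = 0 := by
  induction Q with
  | nil => rfl
  | cons a Q ih => simpa [nb] using ih

lemma nb_map_del (v : V) (e : E) (h : E → Bool) (Q : List (E → Bool)) :
    nb (v, h) (Q.map fun h' => Ev.del (e, h')) = 0 := by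
  induction Q with
  | nil => rfl
  | cons a Q ih => simpa [nb] using ih

lemma nb_leaf (v : V) (h : E → Bool) (Q : List (E → Bool)) (hQ : Q.Nodup) :
    nb (v, h) (leaf (V := V) Q) = if h ∈ Q then 1 else 0 := by
  induction Q with
  | nil => simp [leaf, nb]
  | cons a Q ih =>
    rw [List.nodup_cons] at hQ
    have h0 : leaf (V := V) (a :: Q) =
        ((Finset.univ : Finset V).toList.map fun v => Ev.burst (v, a)) ++ leaf Q := by
      simp [leaf]
    rw [h0, nb_append, ih hQ.2, nb_map_leaf v h a _ (Finset.nodup_toList _)]
    by_cases ha : a = h
    · subst ha; simp [hQ.1]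
    · simp [ha, Ne.symm ha]

lemma evs_trav (e : E) (h : E → Bool) (L : List (Ev V E)) (Q : List (E → Bool)) (hQ : Q.Nodup)
    (hL : evs e L <:+ [true, false]) :
    evs (e, h) (trav L Q) = if h ∈ Q then evs e L else [] := by
  induction L generalizing Q with
  | nil => simp [trav, evs_leaf, evs]
  | cons a L ih =>
    cases a with
    | ins e' =>
      simp only [trav, evs_append, evs_map_ins e e' h Q hQ]
      by_cases he : e' = e
      · subst he
        have hL' : evs e' L <:+ [true, false] := by
          simp only [evs, if_true] at hL
          exact (List.suffix_cons _ _).trans hL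
        rw [ih Q hQ hL']
        by_cases hh : h ∈ Q <;> simp [hh, evs]
      · have hL' : evs e L <:+ [true, false] := by simpa [evs, he] using hL
        rw [ih Q hQ hL']
        simp [he, evs]
    | burst v =>
      simp only [trav, evs_append, evs_map_burst, List.nil_append]
      have hL' : evs e L <:+ [true, false] := by simpa [evs] using hL
      rw [ih Q hQ hL']
      simp [evs]
    | del e' =>
      simp only [trav, evs_append, evs_map_del e e' h Q hQ]
      by_cases he : e' = e
      · subst he
        have hnil : evs e' L = [] := by
          simp only [evs, if_true] at hL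
          rcases List.suffix_cons_iff.mp hL with h1 | h1
          · simp at h1
          · rcases List.suffix_cons_iff.mp h1 with h2 | h2
            · simpa using h2
            · simp at h2
        have hL' : evs e' L <:+ [true, false] := by rw [hnil]; exact List.nil_suffix
        rw [ih _ (hQ.filter _) hL', ih _ (hQ.filter _) hL', hnil]
        simp [evs, hnil]
      · have hL' : evs e L <:+ [true, false] := by simpa [evs, he] using hL
        rw [ih _ (hQ.filter _) hL', ih _ (hQ.filter _) hL']
        by_cases hh : h ∈ Q
        · cases hb : h e' <;> simp [he, evs, hh, hb]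
        · simp [he, evs, hh]

lemma nb_trav (v : V) (h : E → Bool) (L : List (Ev V E)) (Q : List (E → Bool)) (hQ : Q.Nodup) :
    nb (v, h) (trav L Q) = if h ∈ Q then nb v L + 1 else 0 := by
  induction L generalizing Q with
  | nil => simp [trav, nb_leaf _ _ _ hQ, nb]
  | cons a L ih =>
    cases a with
    | ins e' =>
      simp only [trav, nb_append, nb_map_ins, ih Q hQ, nb]
      simp
    | burst w =>
      simp only [trav, nb_append, nb_map_burst _ _ _ _ hQ, ih Q hQ, nb]
      by_cases hh : h ∈ Q
      · simp [hh]; ring
      · simp [hh]
    | del e' =>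
      simp only [trav, nb_append, nb_map_del, ih _ (hQ.filter _), nb]
      by_cases hh : h ∈ Q
      · cases hb : h e' <;> simp [hh, hb]
      · simp [hh]


/-! ### traces -/

/-- alive status after a list -/
def alv (e : E) : Bool → List (Ev V E) → Bool
  | al, [] => al
  | al, .ins e' :: L => alv e (al || decide (e' = e)) L
  | al, .del e' :: L => alv e (al && !decide (e' = e)) L
  | al, .burst _ :: L => alv e al L

lemma tr_append {V E : Type} [DecidableEq V] [DecidableEq E] (x y : E → V) (e : E) (al : Bool)
    (L M : List (Ev V E)) : tr x y e al (L ++ M) = tr x y e al L ++ tr x y e (alv e al L) M := by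
  induction L generalizing al with
  | nil => rfl
  | cons a L ih =>
    cases a <;> simp [tr, alv, ih]

lemma alv_eq {V E : Type} [DecidableEq E] (e : E) (al : Bool) (L : List (Ev V E)) :
    alv e al L = (evs e L).getLast?.getD al := by
  induction L generalizing al with
  | nil => rfl
  | cons a L ih =>
    cases a with
    | ins e' =>
      by_cases he : e' = e
      · simp only [alv, evs, he, ih, if_true, decide_true, Bool.or_true]
        rcases hl : evs e L with _ | ⟨b, l⟩ <;> simp [List.getLast?_cons]
      · simp [alv, evs, he, ih]
    | del e' =>
      by_cases he : e' = e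
      · simp only [alv, evs, he, ih, if_true, decide_true]
        rcases hl : evs e L with _ | ⟨b, l⟩ <;> simp [List.getLast?_cons]
      · simp [alv, evs, he, ih]
    | burst v => simp [alv, evs, ih]

lemma tr_nil_of_nb {V E : Type} [DecidableEq V] [DecidableEq E] (x y : E → V) (e : E) (al : Bool)
    (L : List (Ev V E)) (hx : nb (x e) L = 0) (hy : nb (y e) L = 0) : tr x y e al L = [] := by
  induction L generalizing al with
  | nil => rfl
  | cons a L ih =>
    cases a with
    | ins e' => simpa [tr] using ih _ (by simpa [nb] using hx) (by simpa [nb] using hy)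
    | del e' => simpa [tr] using ih _ (by simpa [nb] using hx) (by simpa [nb] using hy)
    | burst v =>
      simp only [nb, Nat.add_eq_zero_iff] at hx hy
      have h1 : v ≠ x e := by intro h; simp [h] at hx
      have h2 : v ≠ y e := by intro h; simp [h] at hy
      simp [tr, h1, h2, ih _ hx.2 hy.2]

lemma tr_false_of_evs {V E : Type} [DecidableEq V] [DecidableEq E] (x y : E → V) (e : E)
    (L : List (Ev V E)) (he : evs e L = []) : tr x y e false L = [] := by
  induction L with
  | nil => rfl
  | cons a L ih =>
    cases a with
    | ins e' =>
      by_cases h : e' = e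
      · simp [evs, h] at he
      · simpa [tr, h] using ih (by simpa [evs, h] using he)
    | del e' =>
      by_cases h : e' = e
      · simp [evs, h] at he
      · simpa [tr, h] using ih (by simpa [evs, h] using he)
    | burst v => simpa [tr] using ih (by simpa [evs] using he)

lemma tr_x_of_evs {V E : Type} [DecidableEq V] [DecidableEq E] (x y : E → V) (e : E)
    (L : List (Ev V E)) (he : evs e L = []) (hy : nb (y e) L = 0) :
    tr x y e true L = List.replicate (nb (x e) L) false := by
  induction L with
  | nil => rfl
  | cons a L ih =>
    cases a with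
    | ins e' =>
      by_cases h : e' = e
      · simp [evs, h] at he
      · simpa [tr, h, nb] using ih (by simpa [evs, h] using he) (by simpa [nb] using hy)
    | del e' =>
      by_cases h : e' = e
      · simp [evs, h] at he
      · simpa [tr, h, nb] using ih (by simpa [evs, h] using he) (by simpa [nb] using hy)
    | burst v =>
      simp only [nb, Nat.add_eq_zero_iff] at hy
      have h2 : v ≠ y e := by intro h; simp [h] at hy
      have := ih (by simpa [evs] using he) hy.2
      by_cases hx : v = x e
      · simp [tr, this, nb, hx, Nat.add_comm 1, List.replicate_succ]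
      · simp [tr, this, nb, hx, h2]

lemma tr_y_of_evs {V E : Type} [DecidableEq V] [DecidableEq E] (x y : E → V) (e : E)
    (L : List (Ev V E)) (he : evs e L = []) (hx : nb (x e) L = 0) :
    tr x y e true L = List.replicate (nb (y e) L) true := by
  induction L with
  | nil => rfl
  | cons a L ih =>
    cases a with
    | ins e' =>
      by_cases h : e' = e
      · simp [evs, h] at he
      · simpa [tr, h, nb] using ih (by simpa [evs, h] using he) (by simpa [nb] using hx)
    | del e' =>
      by_cases h : e' = e
      · simp [evs, h] at he
      · simpa [tr, h, nb] using ih (by simpa [evs, h] using he) (by simpa [nb] using hx)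
    | burst v =>
      simp only [nb, Nat.add_eq_zero_iff] at hx
      have h2 : v ≠ x e := by intro h; simp [h] at hx
      have := ih (by simpa [evs] using he) hx.2
      by_cases hy : v = y e
      · subst hy
        simp [tr, this, nb, Nat.add_comm 1, List.replicate_succ, h2]
      · simp [tr, this, nb, hy, h2]


/-- first end of a lifted edge -/
def xl (x : E → V) : E × (E → Bool) → V × (E → Bool) := fun a => (x a.1, a.2)
/-- second end of a lifted edge -/
def yl (y : E → V) : E × (E → Bool) → V × (E → Bool) := fun a => (y a.1, flip a.1 a.2)

lemma tr_map_burst (x y : E → V) (hxy : ∀ e, x e ≠ y e) (e : E) (h : E → Bool) (v : V)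
    (Q : List (E → Bool)) (hQ : Q.Nodup) (hh : h ∈ Q) (hf : flip e h ∈ Q) :
    tr (xl x) (yl y) (e, h) true (Q.map fun h' => Ev.burst (v, h')) =
      if v = x e then [false] else if v = y e then [true] else [] := by
  by_cases h1 : v = x e
  · subst h1
    rw [tr_x_of_evs _ _ _ _ (evs_map_burst _ _ _ _)]
    · have := nb_map_burst (V := V) (x e) (x e) h Q hQ
      simp only [xl, this]
      simp [hh]
    · have := nb_map_burst (V := V) (y e) (x e) (flip e h) Q hQ
      simp only [yl, this]
      simp [hxy]
  · rw [tr_y_of_evs _ _ _ _ (evs_map_burst _ _ _ _)]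
    · have := nb_map_burst (V := V) (y e) v (flip e h) Q hQ
      simp only [yl, this]
      by_cases h2 : v = y e
      · simp [h1, h2, hf, (hxy e).symm]
      · simp [h1, h2]
    · have := nb_map_burst (V := V) (x e) v h Q hQ
      simp only [xl, this]
      simp [h1]

lemma tr_map_ins (x y : E → V) (e e' : E) (h : E → Bool) (al : Bool)
    (Q : List (E → Bool)) :
    tr (xl x) (yl y) (e, h) al (Q.map fun h' => Ev.ins (e', h')) = [] :=
  tr_nil_of_nb _ _ _ _ _ (nb_map_ins _ _ _ _) (nb_map_ins _ _ _ _)

lemma tr_map_del (x y : E → V) (e e' : E) (h : E → Bool) (al : Bool)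
    (Q : List (E → Bool)) :
    tr (xl x) (yl y) (e, h) al (Q.map fun h' => Ev.del (e', h')) = [] :=
  tr_nil_of_nb _ _ _ _ _ (nb_map_del _ _ _ _) (nb_map_del _ _ _ _)

lemma tr_trav_notMem (x y : E → V) (e : E) (h : E → Bool) (al : Bool) (L : List (Ev V E))
    (Q : List (E → Bool)) (hQ : Q.Nodup) (hh : h ∉ Q) (hf : flip e h ∉ Q) :
    tr (xl x) (yl y) (e, h) al (trav L Q) = [] := by
  apply tr_nil_of_nb
  · have := nb_trav (x e) h L Q hQ
    simpa [xl, hh] using this
  · have := nb_trav (y e) (flip e h) L Q hQ
    simpa [yl, hf] using this

/-- phase 2: `e` alive in the base -/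
lemma tr_trav_alive (x y : E → V) (hxy : ∀ e, x e ≠ y e) (e : E) (h : E → Bool)
    (L : List (Ev V E)) (Q : List (E → Bool)) (hQ : Q.Nodup) (hh : h ∈ Q) (hf : flip e h ∈ Q)
    (hL : evs e L = [false]) :
    ∃ b p q, tr (xl x) (yl y) (e, h) true (trav L Q) =
      tr x y e true L ++ (List.replicate (p+1) b ++ List.replicate (q+1) (!b)) := by
  induction L generalizing Q with
  | nil => simp [evs] at hL
  | cons a L ih =>
    cases a with
    | ins e' =>
      have he : e' ≠ e := by rintro rfl; simp [evs] at hL
      have hL' : evs e L = [false] := by simpa [evs, he] using hL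
      obtain ⟨b, p, q, hb⟩ := ih Q hQ hh hf hL'
      refine ⟨b, p, q, ?_⟩
      rw [trav, tr_append, tr_map_ins, alv_eq, evs_map_ins _ _ _ _ hQ]
      simpa [tr, he] using hb
    | burst v =>
      have hL' : evs e L = [false] := by simpa [evs] using hL
      obtain ⟨b, p, q, hb⟩ := ih Q hQ hh hf hL'
      refine ⟨b, p, q, ?_⟩
      rw [trav, tr_append, tr_map_burst x y hxy e h v Q hQ hh hf, alv_eq, evs_map_burst]
      simp only [List.getLast?_nil, Option.getD_none, hb, tr]
      simp
    | del e' =>
      by_cases he : e' = e
      · subst he
        have hL' : evs e' L = [] := by simpa [evs] using hL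
        have hs : evs e' L <:+ [true, false] := by rw [hL']; exact List.nil_suffix
        have hbase : tr x y e' true (Ev.del e' :: L) = [] := by
          simpa [tr] using tr_false_of_evs x y e' L hL'
        simp only [hbase, List.nil_append]
        rw [trav, tr_append, tr_append, tr_map_del, List.append_nil,
          alv_eq, evs_trav e' h L _ (hQ.filter _) hs, hL']
        simp only [ite_self, List.getLast?_nil, Option.getD_none]
        have hev : ∀ Q' : List (E → Bool), Q'.Nodup → evs (e', h) (trav L Q') = [] := by
          intro Q' hQ'
          rw [evs_trav e' h L _ hQ' hs, hL', ite_self]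
        cases hb : h e' with
        | false =>
          refine ⟨false, nb (x e') L, nb (y e') L, ?_⟩
          rw [tr_x_of_evs _ _ _ _ (hev _ (hQ.filter _)), tr_y_of_evs _ _ _ _ (hev _ (hQ.filter _))]
          · have h1 := nb_trav (x e') h L (Q.filter fun h => !h e') (hQ.filter _)
            have h2 := nb_trav (y e') (flip e' h) L (Q.filter fun h => h e') (hQ.filter _)
            simp only [xl, yl, h1, h2]
            simp [hb, hh, hf, flip_same]
          · have h1 := nb_trav (x e') h L (Q.filter fun h => h e') (hQ.filter _)
            simp only [xl, h1]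
            simp [hb]
          · have h1 := nb_trav (y e') (flip e' h) L (Q.filter fun h => !h e') (hQ.filter _)
            simp only [yl, h1]
            simp [hb, flip_same]
        | true =>
          refine ⟨true, nb (y e') L, nb (x e') L, ?_⟩
          rw [tr_y_of_evs _ _ _ _ (hev _ (hQ.filter _)), tr_x_of_evs _ _ _ _ (hev _ (hQ.filter _))]
          · have h1 := nb_trav (x e') h L (Q.filter fun h => h e') (hQ.filter _)
            have h2 := nb_trav (y e') (flip e' h) L (Q.filter fun h => !h e') (hQ.filter _)
            simp only [xl, yl, h1, h2]
            simp [hb, hh, hf, flip_same]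
          · have h1 := nb_trav (y e') (flip e' h) L (Q.filter fun h => h e') (hQ.filter _)
            simp only [yl, h1]
            simp [hb, flip_same]
          · have h1 := nb_trav (x e') h L (Q.filter fun h => !h e') (hQ.filter _)
            simp only [xl, h1]
            simp [hb]
      · have hL' : evs e L = [false] := by simpa [evs, he] using hL
        have hs : evs e L <:+ [true, false] := by rw [hL']; exact List.suffix_cons _ _
        have hfe : flip e h e' = h e' := flip_ne e e' he h
        have hbase : tr x y e true (Ev.del e' :: L) = tr x y e true L := by simp [tr, he]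
        rw [hbase, trav, tr_append, tr_append, tr_map_del, List.append_nil,
          alv_eq, evs_trav e h L _ (hQ.filter _) hs, hL']
        cases hb : h e' with
        | false =>
          have m1 : h ∈ Q.filter fun h => !h e' := by simp [hh, hb]
          have m2 : flip e h ∈ Q.filter fun h => !h e' := by simp [hf, hfe, hb]
          have m3 : h ∉ Q.filter fun h => h e' := by simp [hb]
          have m4 : flip e h ∉ Q.filter fun h => h e' := by simp [hfe, hb]
          obtain ⟨b, p, q, hb'⟩ := ih _ (hQ.filter _) m1 m2 hL'
          refine ⟨b, p, q, ?_⟩
          rw [hb', if_pos m1, tr_trav_notMem x y e h _ L _ (hQ.filter _) m3 m4, List.append_nil]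
        | true =>
          have m1 : h ∉ Q.filter fun h => !h e' := by simp [hb]
          have m2 : flip e h ∉ Q.filter fun h => !h e' := by simp [hfe, hb]
          have m3 : h ∈ Q.filter fun h => h e' := by simp [hh, hb]
          have m4 : flip e h ∈ Q.filter fun h => h e' := by simp [hf, hfe, hb]
          obtain ⟨b, p, q, hb'⟩ := ih _ (hQ.filter _) m3 m4 hL'
          refine ⟨b, p, q, ?_⟩
          rw [tr_trav_notMem x y e h _ L _ (hQ.filter _) m1 m2, if_neg m1]
          simpa using hb'

/-- phase 1: `e` not yet inserted in the base -/
lemma tr_trav (x y : E → V) (hxy : ∀ e, x e ≠ y e) (e : E) (h : E → Bool)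
    (L : List (Ev V E)) (Q : List (E → Bool)) (hQ : Q.Nodup) (hh : h ∈ Q) (hf : flip e h ∈ Q)
    (hL : evs e L = [true, false]) :
    ∃ b p q, tr (xl x) (yl y) (e, h) false (trav L Q) =
      tr x y e false L ++ (List.replicate (p+1) b ++ List.replicate (q+1) (!b)) := by
  induction L generalizing Q with
  | nil => simp [evs] at hL
  | cons a L ih =>
    cases a with
    | ins e' =>
      by_cases he : e' = e
      · subst he
        have hL' : evs e' L = [false] := by simpa [evs] using hL
        obtain ⟨b, p, q, hb⟩ := tr_trav_alive x y hxy e' h L Q hQ hh hf hL'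
        refine ⟨b, p, q, ?_⟩
        rw [trav, tr_append, tr_map_ins, alv_eq, evs_map_ins _ _ _ _ hQ]
        simpa [tr, hh] using hb
      · have hL' : evs e L = [true, false] := by simpa [evs, he] using hL
        obtain ⟨b, p, q, hb⟩ := ih Q hQ hh hf hL'
        refine ⟨b, p, q, ?_⟩
        rw [trav, tr_append, tr_map_ins, alv_eq, evs_map_ins _ _ _ _ hQ]
        simpa [tr, he] using hb
    | burst v =>
      have hL' : evs e L = [true, false] := by simpa [evs] using hL
      obtain ⟨b, p, q, hb⟩ := ih Q hQ hh hf hL'
      refine ⟨b, p, q, ?_⟩
      rw [trav, tr_append, tr_false_of_evs _ _ _ _ (evs_map_burst _ _ _ _), alv_eq, evs_map_burst]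
      simpa [tr] using hb
    | del e' =>
      have he : e' ≠ e := by rintro rfl; simp [evs] at hL
      have hL' : evs e L = [true, false] := by simpa [evs, he] using hL
      have hs : evs e L <:+ [true, false] := by rw [hL']
      have hfe : flip e h e' = h e' := flip_ne e e' he h
      have hbase : tr x y e false (Ev.del e' :: L) = tr x y e false L := by simp [tr]
      rw [hbase, trav, tr_append, tr_append, tr_map_del, List.append_nil,
        alv_eq, evs_trav e h L _ (hQ.filter _) hs, hL']
      cases hb : h e' with
      | false =>
        have m1 : h ∈ Q.filter fun h => !h e' := by simp [hh, hb]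
        have m2 : flip e h ∈ Q.filter fun h => !h e' := by simp [hf, hfe, hb]
        have m3 : h ∉ Q.filter fun h => h e' := by simp [hb]
        have m4 : flip e h ∉ Q.filter fun h => h e' := by simp [hfe, hb]
        obtain ⟨b, p, q, hb'⟩ := ih _ (hQ.filter _) m1 m2 hL'
        refine ⟨b, p, q, ?_⟩
        rw [hb', if_pos m1, tr_trav_notMem x y e h _ L _ (hQ.filter _) m3 m4, List.append_nil]
      | true =>
        have m1 : h ∉ Q.filter fun h => !h e' := by simp [hb]
        have m2 : flip e h ∉ Q.filter fun h => !h e' := by simp [hfe, hb]
        have m3 : h ∈ Q.filter fun h => h e' := by simp [hh, hb]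
        have m4 : flip e h ∈ Q.filter fun h => h e' := by simp [hf, hfe, hb]
        obtain ⟨b, p, q, hb'⟩ := ih _ (hQ.filter _) m3 m4 hL'
        refine ⟨b, p, q, ?_⟩
        rw [tr_trav_notMem x y e h _ L _ (hQ.filter _) m1 m2, if_neg m1]
        simpa using hb'

lemma alt_trav (x y : E → V) (hxy : ∀ e, x e ≠ y e) (e : E) (h : E → Bool)
    (L : List (Ev V E)) (Q : List (E → Bool)) (hQ : Q.Nodup) (hh : h ∈ Q) (hf : flip e h ∈ Q)
    (hL : evs e L = [true, false]) :
    alt none (tr x y e false L) + 1 ≤ alt none (tr (xl x) (yl y) (e, h) false (trav L Q)) := by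
  obtain ⟨b, p, q, hb⟩ := tr_trav x y hxy e h L Q hQ hh hf hL
  rw [hb, alt_append]
  have := alt_two (if tr x y e false L = [] then none else (tr x y e false L).getLast?) b p q
  omega


/-! ### orientations -/

/-- the edges in `A` can be directed to endpoints, injectively, and avoiding `F` -/
def Orient {V E : Type} (x y : E → V) (A : Set E) (F : Set V) : Prop :=
  ∃ o : E → V, (∀ e ∈ A, o e = x e ∨ o e = y e) ∧ Set.InjOn o A ∧ ∀ e ∈ A, o e ∉ F

lemma Orient.mono {V E : Type} {x y : E → V} {A B : Set E} {F G : Set V}
    (h : Orient x y A F) (hB : B ⊆ A) (hG : G ⊆ F) : Orient x y B G := by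
  obtain ⟨o, h1, h2, h3⟩ := h
  exact ⟨o, fun e he => h1 e (hB he), h2.mono hB, fun e he hh => h3 e (hB he) (hG hh)⟩

/-- orientability at all times, in the strong sense at deletions -/
def Good {V E : Type} (x y : E → V) : Set E → List (Ev V E) → Prop
  | A, [] => Orient x y A ∅
  | A, .ins e :: L => Orient x y A ∅ ∧ Good x y (insert e A) L
  | A, .del e :: L => Orient x y (A \ {e}) {x e, y e} ∧ Good x y (A \ {e}) L
  | A, .burst _ :: L => Good x y A L

lemma Good.orient {V E : Type} {x y : E → V} {A : Set E} {L : List (Ev V E)}
    (h : Good x y A L) : Orient x y A ∅ := by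
  classical
  induction L generalizing A with
  | nil => exact h
  | cons a L ih =>
    cases a with
    | ins e => exact h.1
    | burst v => exact ih (A := A) h
    | del e =>
      obtain ⟨o, h1, h2, h3⟩ := h.1
      refine ⟨Function.update o e (x e), ?_, ?_, by simp⟩
      · intro a ha
        by_cases hae : a = e
        · subst hae; simp
        · simpa [hae] using h1 a ⟨ha, hae⟩
      · intro a ha b hb hab
        by_cases hae : a = e
        · by_cases hbe : b = e
          · rw [hae, hbe]
          · exfalso
            subst hae
            simp only [Function.update_self, Function.update_of_ne hbe] at hab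
            exact h3 b ⟨hb, hbe⟩ (by rw [← hab]; simp)
        · by_cases hbe : b = e
          · exfalso
            subst hbe
            simp only [Function.update_self, Function.update_of_ne hae] at hab
            exact h3 a ⟨ha, hae⟩ (by rw [hab]; simp)
          · simp only [Function.update_of_ne hae, Function.update_of_ne hbe] at hab
            exact h2 ⟨ha, hae⟩ ⟨hb, hbe⟩ hab

/-- product block -/
def blk (A : Set E) (Q : List (E → Bool)) : Set (E × (E → Bool)) := {a | a.1 ∈ A ∧ a.2 ∈ Q}

/-- a context: oriented edges whose heads lie outside the block -/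
def Ctx (x y : E → V) (C : Set (E × (E → Bool))) (Q : List (E → Bool)) : Prop :=
  ∃ o : E × (E → Bool) → V × (E → Bool), (∀ a ∈ C, o a = xl x a ∨ o a = yl y a) ∧ Set.InjOn o C ∧
    ∀ a ∈ C, (o a).2 ∉ Q

lemma orient_blk {x y : E → V} {A : Set E} {F : Set V} {Q : List (E → Bool)}
    {C : Set (E × (E → Bool))} (hA : Orient x y A F) (hcl : ∀ e ∈ A, ∀ h ∈ Q, flip e h ∈ Q)
    (hC : Ctx x y C Q) :
    Orient (xl x) (yl y) (blk A Q ∪ C) {p | p.1 ∈ F ∧ p.2 ∈ Q} := by
  classical
  obtain ⟨o, h1, h2, h3⟩ := hA
  obtain ⟨oC, g1, g2, g3⟩ := hC
  have key : ∀ a ∈ blk A Q, (o a.1, if o a.1 = x a.1 then a.2 else flip a.1 a.2).2 ∈ Q := by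
    intro a ha
    by_cases hx : o a.1 = x a.1
    · simpa [hx] using ha.2
    · simpa [hx] using hcl a.1 ha.1 a.2 ha.2
  refine ⟨fun a => if a ∈ blk A Q then (o a.1, if o a.1 = x a.1 then a.2 else flip a.1 a.2)
    else oC a, ?_, ?_, ?_⟩
  · intro a ha
    by_cases hb : a ∈ blk A Q
    · simp only [hb, if_true]
      by_cases hx : o a.1 = x a.1
      · left; simp [hx, xl]
      · right
        have := (h1 a.1 hb.1).resolve_left hx
        rw [if_neg hx, this]; rfl
    · simp only [hb, if_false]
      exact g1 a (ha.resolve_left hb)
  · intro a ha b hb hab
    by_cases ha' : a ∈ blk A Q <;> by_cases hb' : b ∈ blk A Q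
    · simp only [ha', hb', if_true, Prod.mk.injEq] at hab
      have he : a.1 = b.1 := h2 ha'.1 hb'.1 hab.1
      have h22 := hab.2
      rw [he] at h22
      by_cases hx : o b.1 = x b.1
      · simp only [hx, if_true] at h22
        exact Prod.ext he h22
      · simp only [hx, if_false] at h22
        have := congrArg (flip b.1) h22
        simp only [flip_flip] at this
        exact Prod.ext he this
    · simp only [ha', hb', if_true, if_false] at hab
      exact absurd (hab ▸ key a ha') (g3 b (hb.resolve_left hb'))
    · simp only [ha', hb', if_true, if_false] at hab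
      exact absurd (hab.symm ▸ key b hb') (g3 a (ha.resolve_left ha'))
    · simp only [ha', hb', if_false] at hab
      exact g2 (ha.resolve_left ha') (hb.resolve_left hb') hab
  · intro a ha
    by_cases hb : a ∈ blk A Q
    · simp only [hb, if_true]
      intro hF
      exact h3 a.1 hb.1 hF.1
    · simp only [hb, if_false]
      intro hF
      exact g3 a (ha.resolve_left hb) hF.2

lemma good_map_ins {x y : E → V} (e : E) (Q : List (E → Bool)) (B : Set (E × (E → Bool)))
    (N : List (Ev (V × (E → Bool)) (E × (E → Bool))))
    (h1 : Orient (xl x) (yl y) (B ∪ {a | a.1 = e ∧ a.2 ∈ Q}) ∅)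
    (h2 : Good (xl x) (yl y) (B ∪ {a | a.1 = e ∧ a.2 ∈ Q}) N) :
    Good (xl x) (yl y) B ((Q.map fun h => Ev.ins (e, h)) ++ N) := by
  induction Q generalizing B with
  | nil => simpa using h2
  | cons q Q ih =>
    have hset : insert (e, q) B ∪ {a | a.1 = e ∧ a.2 ∈ Q} =
        B ∪ {a : E × (E → Bool) | a.1 = e ∧ a.2 ∈ q :: Q} := by
      ext a
      obtain ⟨a1, a2⟩ := a
      simp only [Set.mem_union, Set.mem_insert_iff, Set.mem_ofPred_eq, List.mem_cons, Prod.mk.injEq]
      tauto
    refine ⟨h1.mono Set.subset_union_left (Set.empty_subset _), ?_⟩
    apply ih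
    · rw [hset]; exact h1
    · rw [hset]; exact h2

lemma good_map_del {x y : E → V} (hxy : ∀ e, x e ≠ y e) (e : E) (Q : List (E → Bool))
    (hQ : Q.Nodup) (Q0 : List (E → Bool)) (hsub : ∀ h ∈ Q, h ∈ Q0) (hcl : ∀ h ∈ Q0, flip e h ∈ Q0)
    (C : Set (E × (E → Bool))) (hCe : ∀ h ∈ Q0, (e, h) ∉ C) (hC : Ctx x y C Q0)
    (N : List (Ev (V × (E → Bool)) (E × (E → Bool))))
    (h2 : Good (xl x) (yl y) C N) :
    Good (xl x) (yl y) (C ∪ {a | a.1 = e ∧ a.2 ∈ Q}) ((Q.map fun h => Ev.del (e, h)) ++ N) := by
  classical
  induction Q with
  | nil => simpa using h2
  | cons q Q ih =>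
    rw [List.nodup_cons] at hQ
    have hset : (C ∪ {a : E × (E → Bool) | a.1 = e ∧ a.2 ∈ q :: Q}) \ {(e, q)} =
        C ∪ {a | a.1 = e ∧ a.2 ∈ Q} := by
      ext a
      obtain ⟨a1, a2⟩ := a
      simp only [Set.mem_union, Set.mem_sdiff, Set.mem_singleton_iff, Set.mem_ofPred_eq,
        List.mem_cons, Prod.mk.injEq]
      constructor
      · rintro ⟨h | ⟨h, h' | h'⟩, hn⟩
        · exact Or.inl h
        · exact absurd ⟨h, h'⟩ hn
        · exact Or.inr ⟨h, h'⟩
      · rintro (h | ⟨h, h'⟩)
        · refine ⟨Or.inl h, ?_⟩
          rintro ⟨rfl, rfl⟩
          exact hCe _ (hsub _ (by simp)) h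
        · refine ⟨Or.inr ⟨h, Or.inr h'⟩, ?_⟩
          rintro ⟨rfl, rfl⟩
          exact hQ.1 h'
    refine ⟨?_, ?_⟩
    · rw [hset]
      obtain ⟨oC, g1, g2, g3⟩ := hC
      have hq : q ∈ Q0 := hsub q (by simp)
      refine ⟨fun a => if a ∈ C then oC a else xl x a, ?_, ?_, ?_⟩
      · intro a ha
        by_cases hb : a ∈ C
        · simpa [hb] using g1 a hb
        · simp [hb]
      · intro a ha b hb hab
        by_cases ha' : a ∈ C <;> by_cases hb' : b ∈ C
        · simp only [ha', hb', if_true] at hab
          exact g2 ha' hb' hab
        · simp only [ha', hb', if_true, if_false] at hab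
          have hb2 := hb.resolve_left hb'
          have := g3 a ha'
          rw [hab] at this
          exact absurd (hsub _ (List.mem_cons_of_mem _ hb2.2)) this
        · simp only [ha', hb', if_true, if_false] at hab
          have ha2 := ha.resolve_left ha'
          have := g3 b hb'
          rw [← hab] at this
          exact absurd (hsub _ (List.mem_cons_of_mem _ ha2.2)) this
        · simp only [ha', hb', if_false, xl, Prod.mk.injEq] at hab
          have ha2 := ha.resolve_left ha'
          have hb2 := hb.resolve_left hb'
          exact Prod.ext (ha2.1.trans hb2.1.symm) hab.2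
      · intro a ha
        by_cases hb : a ∈ C
        · simp only [hb, if_true, Set.mem_insert_iff, Set.mem_singleton_iff, not_or]
          have := g3 a hb
          constructor
          · intro h; rw [h] at this; exact this hq
          · intro h; rw [h] at this; exact this (hcl q hq)
        · have ha2 : a.1 = e ∧ a.2 ∈ Q := ha.resolve_left hb
          simp only [hb, if_false, Set.mem_insert_iff, Set.mem_singleton_iff, not_or, xl, yl,
            Prod.mk.injEq, not_and]
          constructor
          · intro _ h; rw [h] at ha2; exact hQ.1 ha2.2
          · intro h; rw [ha2.1] at h; exact absurd h (hxy e)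
    · rw [hset]
      exact ih hQ.2 fun h hh => hsub h (List.mem_cons_of_mem _ hh)


lemma good_trav {x y : E → V} (hxy : ∀ e, x e ≠ y e) (L : List (Ev V E)) (A : Set E)
    (Q : List (E → Bool)) (hQ : Q.Nodup) (C : Set (E × (E → Bool)))
    (M : List (Ev (V × (E → Bool)) (E × (E → Bool))))
    (hA : Good x y A L)
    (hw1 : ∀ e ∈ A, evs e L = [false]) (hw2 : ∀ e ∉ A, evs e L = [true, false] ∨ evs e L = [])
    (hcl : ∀ e, evs e L ≠ [] → ∀ h ∈ Q, flip e h ∈ Q)
    (hC : Ctx x y C Q) (hC2 : ∀ a ∈ C, a.2 ∈ Q → evs a.1 L = [])
    (hM : Good (xl x) (yl y) C M) :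
    Good (xl x) (yl y) (blk A Q ∪ C) (trav L Q ++ M) := by
  induction L generalizing A Q C M with
  | nil =>
    have hAe : A = ∅ := by
      apply Set.eq_empty_of_forall_notMem
      intro e he
      have := hw1 e he
      simp [evs] at this
    have hb : blk A Q ∪ C = C := by
      rw [hAe]; ext a; simp [blk]
    rw [hb, trav, leaf_eq]
    generalize (Q.flatMap fun h => (Finset.univ : Finset V).toList.map fun v => (v, h)) = l
    induction l with
    | nil => simpa using hM
    | cons b l ih => simpa [Good] using ih
  | cons a L ih =>
    cases a with
    | ins e =>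
      have heA : e ∉ A := by
        intro he
        have := hw1 e he
        simp [evs] at this
      have hevs : evs e L = [false] := by
        rcases hw2 e heA with h | h
        · simpa [evs] using h
        · simp [evs] at h
      have hA2 : Good x y (insert e A) L := hA.2
      have hcl' : ∀ e', evs e' L ≠ [] → ∀ h ∈ Q, flip e' h ∈ Q := by
        intro e' he'
        apply hcl
        by_cases hee : e = e'
        · simp [evs, hee]
        · simpa [evs, hee] using he'
      have hset : blk A Q ∪ C ∪ {a | a.1 = e ∧ a.2 ∈ Q} = blk (insert e A) Q ∪ C := by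
        ext a
        simp only [blk, Set.mem_union, Set.mem_ofPred_eq, Set.mem_insert_iff]
        tauto
      rw [trav, List.append_assoc]
      apply good_map_ins
      · rw [hset]
        refine (orient_blk hA2.orient ?_ hC).mono le_rfl (Set.empty_subset _)
        intro e' he' h hh
        apply hcl' e' _ h hh
        rcases he' with rfl | he'
        · simp [hevs]
        · have := hw1 e' he'
          have hne : e ≠ e' := by rintro rfl; exact heA he'
          rw [show evs e' (Ev.ins e :: L) = evs e' L by simp [evs, hne]] at this
          simp [this]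
      · rw [hset]
        apply ih (insert e A) Q hQ C M hA2 _ _ hcl' hC _ hM
        · intro e' he'
          rcases he' with rfl | he'
          · exact hevs
          · have := hw1 e' he'
            have hne : e ≠ e' := by rintro rfl; exact heA he'
            simpa [evs, hne] using this
        · intro e' he'
          rw [Set.mem_insert_iff, not_or] at he'
          have hne : e ≠ e' := Ne.symm he'.1
          simpa [evs, hne] using hw2 e' he'.2
        · intro a ha haQ
          have := hC2 a ha haQ
          have hne : e ≠ a.1 := by
            intro h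
            simp [evs, h] at this
          simpa [evs, hne] using this
    | burst v =>
      rw [trav, List.append_assoc]
      have h1 : Good (xl x) (yl y) (blk A Q ∪ C) (trav L Q ++ M) := by
        apply ih A Q hQ C M hA _ _ _ hC _ hM
        · intro e he; simpa [evs] using hw1 e he
        · intro e he; simpa [evs] using hw2 e he
        · intro e he; exact hcl e (by simpa [evs] using he)
        · intro a ha haQ; simpa [evs] using hC2 a ha haQ
      have h2 : ∀ (l : List (E → Bool)), Good (xl x) (yl y) (blk A Q ∪ C)
          ((l.map fun h' => Ev.burst (v, h')) ++ (trav L Q ++ M)) := by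
        intro l
        induction l with
        | nil => simpa using h1
        | cons b l ih => simpa [Good] using ih
      exact h2 Q
    | del e =>
      have heA : e ∈ A := by
        by_contra he
        rcases hw2 e he with h | h <;> simp [evs] at h
      have hevs : evs e L = [] := by simpa [evs] using hw1 e heA
      have hcle : ∀ h ∈ Q, flip e h ∈ Q := hcl e (by simp [evs])
      set Q0 := Q.filter (fun h => !h e) with hQ0
      set Q1 := Q.filter (fun h => h e) with hQ1
      set B := A \ {e} with hB
      obtain ⟨hA1, hA2⟩ := hA
      have hwB1 : ∀ e' ∈ B, evs e' L = [false] := by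
        intro e' he'
        have hne : e ≠ e' := fun h => he'.2 h.symm
        simpa [evs, hne] using hw1 e' he'.1
      have hwB2 : ∀ e' ∉ B, evs e' L = [true, false] ∨ evs e' L = [] := by
        intro e' he'
        by_cases hne : e = e'
        · right; rw [← hne]; exact hevs
        · have : e' ∉ A := fun h => he' ⟨h, fun h' => hne h'.symm⟩
          simpa [evs, hne] using hw2 e' this
      have hclL : ∀ e', evs e' L ≠ [] → ∀ h ∈ Q, flip e' h ∈ Q ∧ flip e' h e = h e := by
        intro e' he' h hh
        have hne : e ≠ e' := by rintro rfl; exact he' hevs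
        refine ⟨hcl e' (by simpa [evs, hne] using he') h hh, flip_ne e' e hne h⟩
      have hcl0 : ∀ e', evs e' L ≠ [] → ∀ h ∈ Q0, flip e' h ∈ Q0 := by
        intro e' he' h hh
        rw [hQ0, List.mem_filter] at hh ⊢
        obtain ⟨h1, h2⟩ := hclL e' he' h hh.1
        exact ⟨h1, by rw [h2]; exact hh.2⟩
      have hcl1 : ∀ e', evs e' L ≠ [] → ∀ h ∈ Q1, flip e' h ∈ Q1 := by
        intro e' he' h hh
        rw [hQ1, List.mem_filter] at hh ⊢
        obtain ⟨h1, h2⟩ := hclL e' he' h hh.1
        exact ⟨h1, by rw [h2]; exact hh.2⟩
      have hQmem : ∀ h ∈ Q, h ∈ Q0 ∨ h ∈ Q1 := by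
        intro h hh
        cases hb : h e with
        | false => left; rw [hQ0, List.mem_filter]; simp [hh, hb]
        | true => right; rw [hQ1, List.mem_filter]; simp [hh, hb]
      have hsub0 : ∀ h ∈ Q0, h ∈ Q ∧ h e = false := by
        intro h hh; rw [hQ0, List.mem_filter] at hh; simpa using hh
      have hsub1 : ∀ h ∈ Q1, h ∈ Q ∧ h e = true := by
        intro h hh; rw [hQ1, List.mem_filter] at hh; simpa using hh
      set De : Set (E × (E → Bool)) := {a | a.1 = e ∧ a.2 ∈ Q} with hDe
      have hCe : ∀ h ∈ Q, (e, h) ∉ C := by
        intro h hh hc
        have := hC2 _ hc hh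
        simp [evs] at this
      -- the three stages
      have s3 : Good (xl x) (yl y) (C ∪ De) ((Q.map fun h => Ev.del (e, h)) ++ M) :=
        good_map_del hxy e Q hQ Q (fun h hh => hh) hcle C hCe hC M hM
      -- context for the second half: heads in Q0
      have c2 : Ctx x y (C ∪ De) Q1 := by
        classical
        obtain ⟨oC, g1, g2, g3⟩ := hC
        refine ⟨fun a => if a ∈ C then oC a else if a.2 e = false then xl x a else yl y a,
          ?_, ?_, ?_⟩
        · intro a _
          by_cases hb : a ∈ C
          · simpa [hb] using g1 a hb
          · by_cases hb2 : a.2 e = false <;> simp [hb, hb2]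
        · intro a ha b hb hab
          have hhead : ∀ c ∈ De, ((if c.2 e = false then xl x c else yl y c : V × (E → Bool))).2 ∈ Q := by
            intro c hc
            by_cases hb2 : c.2 e = false
            · simpa [hb2, xl] using hc.2
            · simp only [hb2, if_false, yl]
              rw [hc.1]; exact hcle _ hc.2
          by_cases ha' : a ∈ C <;> by_cases hb' : b ∈ C
          · simp only [ha', hb', if_true] at hab
            exact g2 ha' hb' hab
          · simp only [ha', hb', if_true, if_false] at hab
            exact absurd (hab ▸ hhead b (hb.resolve_left hb')) (g3 a ha')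
          · simp only [ha', hb', if_true, if_false] at hab
            exact absurd (hab ▸ hhead a (ha.resolve_left ha')) (g3 b hb')
          · have ha2 : a.1 = e ∧ a.2 ∈ Q := ha.resolve_left ha'
            have hb2 : b.1 = e ∧ b.2 ∈ Q := hb.resolve_left hb'
            simp only [ha', hb', if_false] at hab
            by_cases h1 : a.2 e = false <;> by_cases h2 : b.2 e = false
            · simp only [h1, h2, if_true, xl, Prod.mk.injEq] at hab
              exact Prod.ext (ha2.1.trans hb2.1.symm) hab.2
            · simp only [h1, h2, if_true, if_false, reduceCtorEq, xl, yl, Prod.mk.injEq, ha2.1, hb2.1] at hab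
              exact absurd hab.1 (hxy e)
            · simp only [h1, h2, if_true, if_false, reduceCtorEq, xl, yl, Prod.mk.injEq, ha2.1, hb2.1] at hab
              exact absurd hab.1.symm (hxy e)
            · simp only [h1, h2, if_false, reduceCtorEq, yl, Prod.mk.injEq, ha2.1, hb2.1] at hab
              have := congrArg (flip e) hab.2
              simp only [flip_flip] at this
              exact Prod.ext (ha2.1.trans hb2.1.symm) this
        · intro a ha
          by_cases hb : a ∈ C
          · simp only [hb, if_true]
            exact fun h => g3 a hb (hsub1 _ h).1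
          · have ha2 : a.1 = e ∧ a.2 ∈ Q := ha.resolve_left hb
            simp only [hb, if_false]
            by_cases h1 : a.2 e = false
            · simp only [h1, if_true, xl]
              intro h
              have := (hsub1 _ h).2
              rw [h1] at this; exact absurd this (by simp)
            · simp only [h1, if_false, reduceCtorEq, yl, ha2.1]
              intro h
              have := (hsub1 _ h).2
              rw [flip_same] at this
              simp at this
              exact h1 this
      have s2 : Good (xl x) (yl y) (blk B Q1 ∪ (C ∪ De)) (trav L Q1 ++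
          ((Q.map fun h => Ev.del (e, h)) ++ M)) := by
        apply ih B Q1 (hQ.filter _) (C ∪ De) _ hA2 hwB1 hwB2 hcl1 c2 _ s3
        intro a ha haQ
        rcases ha with ha | ha
        · have := hC2 a ha (hsub1 _ haQ).1
          have hne : e ≠ a.1 := by
            intro h
            simp [evs, h] at this
          simpa [evs, hne] using this
        · rw [ha.1]; exact hevs
      have c1 : Ctx x y (blk B Q1 ∪ (C ∪ De)) Q0 := by
        classical
        obtain ⟨o, o1, o2, o3⟩ := hA1
        obtain ⟨oC, g1, g2, g3⟩ := hC
        have key : ∀ a ∈ blk B Q1,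
            (o a.1, if o a.1 = x a.1 then a.2 else flip a.1 a.2).2 ∈ Q1 := by
          intro a ha
          by_cases hx : o a.1 = x a.1
          · simpa [hx] using ha.2
          · simpa [hx] using hcl1 a.1 (by rw [hwB1 _ ha.1]; simp) a.2 ha.2
        have hhead : ∀ c ∈ De, ((if c.2 e = true then xl x c else yl y c : V × (E → Bool))).2 ∈ Q1 ∧
            ((if c.2 e = true then xl x c else yl y c : V × (E → Bool))).1 ∈ ({x e, y e} : Set V) := by
          intro c hc
          by_cases hb2 : c.2 e = true
          · simp only [hb2, if_true, xl]
            refine ⟨?_, by rw [hc.1]; simp⟩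
            rw [hQ1, List.mem_filter]
            exact ⟨hc.2, hb2⟩
          · simp only [hb2, yl]
            rw [hc.1]
            refine ⟨?_, by simp⟩
            rw [hQ1, List.mem_filter]
            refine ⟨hcle _ hc.2, ?_⟩
            simpa [flip_same] using hb2
        refine ⟨fun a => if a ∈ blk B Q1 then
            (o a.1, if o a.1 = x a.1 then a.2 else flip a.1 a.2)
          else if a ∈ C then oC a else if a.2 e = true then xl x a else yl y a, ?_, ?_, ?_⟩
        · intro a _
          by_cases hb : a ∈ blk B Q1
          · simp only [hb, if_true]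
            by_cases hx : o a.1 = x a.1
            · left; simp [hx, xl]
            · right
              have := (o1 a.1 hb.1).resolve_left hx
              rw [if_neg hx, this]; rfl
          · by_cases hc : a ∈ C
            · simpa [hb, hc] using g1 a hc
            · by_cases hb2 : a.2 e = true <;> simp [hb, hc, hb2]
        · intro a ha b hb hab
          by_cases ha' : a ∈ blk B Q1 <;> by_cases hb' : b ∈ blk B Q1
          · simp only [ha', hb', if_true, Prod.mk.injEq] at hab
            have he : a.1 = b.1 := o2 ha'.1 hb'.1 hab.1
            have h22 := hab.2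
            rw [he] at h22
            by_cases hx : o b.1 = x b.1
            · simp only [hx, if_true] at h22
              exact Prod.ext he h22
            · simp only [hx, if_false] at h22
              have := congrArg (flip b.1) h22
              simp only [flip_flip] at this
              exact Prod.ext he this
          · exfalso
            simp only [ha', hb', if_true, if_false] at hab
            have k1 := key a ha'
            by_cases hbC : b ∈ C
            · simp only [hbC, if_true] at hab
              rw [hab] at k1
              exact g3 b hbC (hsub1 _ k1).1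
            · simp only [hbC, if_false] at hab
              have hbD := (hb.resolve_left hb').resolve_left hbC
              have := (hhead b hbD).2
              rw [← hab] at this
              exact o3 a.1 ha'.1 this
          · exfalso
            simp only [ha', hb', if_true, if_false] at hab
            have k1 := key b hb'
            by_cases haC : a ∈ C
            · simp only [haC, if_true] at hab
              rw [← hab] at k1
              exact g3 a haC (hsub1 _ k1).1
            · simp only [haC, if_false] at hab
              have haD := (ha.resolve_left ha').resolve_left haC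
              have := (hhead a haD).2
              rw [hab] at this
              exact o3 b.1 hb'.1 this
          · have ha1 := ha.resolve_left ha'
            have hb1 := hb.resolve_left hb'
            simp only [ha', hb', if_false] at hab
            by_cases haC : a ∈ C <;> by_cases hbC : b ∈ C
            · simp only [haC, hbC, if_true] at hab
              exact g2 haC hbC hab
            · exfalso
              simp only [haC, hbC, if_true, if_false] at hab
              have := (hhead b (hb1.resolve_left hbC)).1
              rw [← hab] at this
              exact g3 a haC (hsub1 _ this).1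
            · exfalso
              simp only [haC, hbC, if_true, if_false] at hab
              have := (hhead a (ha1.resolve_left haC)).1
              rw [hab] at this
              exact g3 b hbC (hsub1 _ this).1
            · have ha2 : a.1 = e ∧ a.2 ∈ Q := ha1.resolve_left haC
              have hb2 : b.1 = e ∧ b.2 ∈ Q := hb1.resolve_left hbC
              simp only [haC, hbC, if_false] at hab
              by_cases h1 : a.2 e = true <;> by_cases h2 : b.2 e = true
              · simp only [h1, h2, if_true, xl, Prod.mk.injEq] at hab
                exact Prod.ext (ha2.1.trans hb2.1.symm) hab.2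
              · simp only [h1, h2, if_true, if_false, reduceCtorEq, xl, yl, Prod.mk.injEq, ha2.1, hb2.1] at hab
                exact absurd hab.1 (hxy e)
              · simp only [h1, h2, if_true, if_false, reduceCtorEq, xl, yl, Prod.mk.injEq, ha2.1, hb2.1] at hab
                exact absurd hab.1.symm (hxy e)
              · simp only [h1, h2, if_false, reduceCtorEq, yl, Prod.mk.injEq, ha2.1, hb2.1] at hab
                have := congrArg (flip e) hab.2
                simp only [flip_flip] at this
                exact Prod.ext (ha2.1.trans hb2.1.symm) this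
        · have hdis : ∀ h ∈ Q1, h ∉ Q0 := by
            intro h h1 h0
            have := (hsub1 _ h1).2
            rw [(hsub0 _ h0).2] at this
            exact absurd this (by simp)
          intro a ha
          by_cases hb : a ∈ blk B Q1
          · simp only [hb, if_true]
            exact hdis _ (key a hb)
          · have ha1 := ha.resolve_left hb
            simp only [hb, if_false]
            by_cases haC : a ∈ C
            · simp only [haC, if_true]
              exact fun h => g3 a haC (hsub0 _ h).1
            · simp only [haC, if_false]
              exact hdis _ (hhead a (ha1.resolve_left haC)).1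
      have s1 : Good (xl x) (yl y) (blk B Q0 ∪ (blk B Q1 ∪ (C ∪ De))) (trav L Q0 ++
          (trav L Q1 ++ ((Q.map fun h => Ev.del (e, h)) ++ M))) := by
        apply ih B Q0 (hQ.filter _) (blk B Q1 ∪ (C ∪ De)) _ hA2 hwB1 hwB2 hcl0 c1 _ s2
        intro a ha haQ
        rcases ha with ha | ha | ha
        · exfalso
          have := (hsub1 _ ha.2).2
          rw [(hsub0 _ haQ).2] at this
          exact absurd this (by simp)
        · have := hC2 a ha (hsub0 _ haQ).1
          have hne : e ≠ a.1 := by
            intro h
            simp [evs, h] at this
          simpa [evs, hne] using this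
        · rw [ha.1]; exact hevs
      have hset : blk A Q ∪ C = blk B Q0 ∪ (blk B Q1 ∪ (C ∪ De)) := by
        ext a
        simp only [blk, Set.mem_union, Set.mem_ofPred_eq, hB, hDe, Set.mem_sdiff,
          Set.mem_singleton_iff]
        constructor
        · rintro (⟨h1, h2⟩ | h)
          · by_cases hae : a.1 = e
            · exact Or.inr (Or.inr (Or.inr ⟨hae, h2⟩))
            · rcases hQmem _ h2 with h3 | h3
              · exact Or.inl ⟨⟨h1, hae⟩, h3⟩
              · exact Or.inr (Or.inl ⟨⟨h1, hae⟩, h3⟩)
          · exact Or.inr (Or.inr (Or.inl h))
        · rintro (⟨⟨h1, _⟩, h3⟩ | ⟨⟨h1, _⟩, h3⟩ | h | ⟨h1, h2⟩)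
          · exact Or.inl ⟨h1, (hsub0 _ h3).1⟩
          · exact Or.inl ⟨h1, (hsub1 _ h3).1⟩
          · exact Or.inr h
          · exact Or.inl ⟨by rw [h1]; exact heA, h2⟩
      rw [hset, trav, List.append_assoc, List.append_assoc]
      exact s1

end lift

/-! ### gadgets -/

/-- A gadget of stage `k` and parameter `D`. -/
structure Gadget (k D : ℕ) where
  V : Type
  E : Type
  [fV : Fintype V]
  [dV : DecidableEq V]
  [fE : Fintype E]
  [dE : DecidableEq E]
  x : E → V
  y : E → V
  hxy : ∀ e, x e ≠ y e
  L : List (Ev V E)
  hevs : ∀ e, evs e L = [true, false]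
  hgood : Good x y ∅ L
  halt : ∀ e, k ≤ alt none (tr x y e false L)
  hnb : ∀ v, nb v L = k
  hcard : 2 * Fintype.card E = D * Fintype.card V
  hpos : 0 < Fintype.card E

attribute [instance] Gadget.fV Gadget.dV Gadget.fE Gadget.dE

section base
variable (D : ℕ)

/-- the timeline of the gadget of stage `0` -/
def baseL (l : List (Fin D)) : List (Ev Bool (Fin D)) := l.flatMap fun e => [Ev.ins e, Ev.del e]

lemma evs_baseL (e : Fin D) (l : List (Fin D)) (hl : l.Nodup) :
    evs e (baseL D l) = if e ∈ l then [true, false] else [] := by
  induction l with
  | nil => simp [baseL, evs]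
  | cons a l ih =>
    rw [List.nodup_cons] at hl
    have h0 : baseL D (a :: l) = [Ev.ins a, Ev.del a] ++ baseL D l := by simp [baseL]
    rw [h0, evs_append, ih hl.2]
    by_cases h : a = e
    · subst h; simp [evs, hl.1]
    · simp [evs, h, Ne.symm h]

lemma nb_baseL (v : Bool) (l : List (Fin D)) : nb v (baseL D l) = 0 := by
  induction l with
  | nil => rfl
  | cons a l ih =>
    have h0 : baseL D (a :: l) = [Ev.ins a, Ev.del a] ++ baseL D l := by simp [baseL]
    rw [h0, nb_append, ih]
    simp [nb]

lemma orient_empty {V E : Type} (x y : E → V) (F : Set V) : Orient x y ∅ F :=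
  ⟨x, by simp, by simp, by simp⟩

lemma good_baseL (l : List (Fin D)) :
    Good (fun _ => false) (fun _ => true) ∅ (baseL D l) := by
  induction l with
  | nil => exact orient_empty _ _ _
  | cons a l ih =>
    have h0 : baseL D (a :: l) = Ev.ins a :: Ev.del a :: baseL D l := by simp [baseL]
    rw [h0]
    have h1 : (insert a (∅ : Set (Fin D))) \ {a} = ∅ := by simp
    refine ⟨orient_empty _ _ _, ?_, ?_⟩
    · rw [h1]; exact orient_empty _ _ _
    · rw [h1]; exact ih

/-- The gadget of stage `0`. -/
def baseGadget (hD : 0 < D) : Gadget 0 D where
  V := Bool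
  E := Fin D
  x := fun _ => false
  y := fun _ => true
  hxy := by simp
  L := baseL D (List.finRange D)
  hevs := fun e => by rw [evs_baseL D e _ (List.nodup_finRange D)]; simp
  hgood := good_baseL D _
  halt := by simp
  hnb := fun v => nb_baseL D v _
  hcard := by simp [Nat.mul_comm]
  hpos := by simpa using hD

end base

/-- The lift of a gadget. -/
noncomputable def Gadget.lift {k D : ℕ} (G : Gadget k D) : Gadget (k + 1) D where
  V := G.V × (G.E → Bool)
  E := G.E × (G.E → Bool)
  x := xl G.x
  y := yl G.y
  hxy := fun a h => G.hxy a.1 (congrArg Prod.fst h)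
  L := trav G.L (Finset.univ : Finset (G.E → Bool)).toList
  hevs := fun a => by
    have := evs_trav a.1 a.2 G.L _ (Finset.nodup_toList Finset.univ) (by rw [G.hevs a.1])
    rw [G.hevs a.1] at this
    simpa using this
  hgood := by
    have := good_trav (x := G.x) (y := G.y) G.hxy G.L ∅ (Finset.univ : Finset (G.E → Bool)).toList
      (Finset.nodup_toList _) ∅ [] G.hgood (by simp) (fun e _ => Or.inl (G.hevs e)) (by simp)
      ⟨xl G.x, by simp, by simp, by simp⟩ (by simp) (orient_empty _ _ _)
    simpa [blk] using this
  halt := fun a => by
    have h1 := alt_trav G.x G.y G.hxy a.1 a.2 G.L (Finset.univ : Finset (G.E → Bool)).toList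
      (Finset.nodup_toList _) (by simp) (by simp) (G.hevs a.1)
    have h2 := G.halt a.1
    have h3 : k + 1 ≤ alt none (tr (xl G.x) (yl G.y) (a.1, a.2) false
      (trav G.L (Finset.univ : Finset (G.E → Bool)).toList)) := by omega
    exact h3
  hnb := fun v => by
    have := nb_trav v.1 v.2 G.L (Finset.univ : Finset (G.E → Bool)).toList (Finset.nodup_toList _)
    rw [G.hnb v.1] at this
    simpa using this
  hcard := by
    rw [Fintype.card_prod, Fintype.card_prod, ← mul_assoc, G.hcard, mul_assoc]
  hpos := by
    rw [Fintype.card_prod]
    exact Nat.mul_pos G.hpos Fintype.card_pos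

lemma exists_gadget (k D : ℕ) (hD : 0 < D) : Nonempty (Gadget k D) := by
  induction k with
  | zero => exact ⟨baseGadget D hD⟩
  | succ k ih => exact ⟨ih.some.lift⟩

/-! ### averaging inequality -/

section ineq
variable {V E : Type} [Fintype V] [DecidableEq V] [Fintype E] [DecidableEq E]
variable (hold : List (Ev V E) → E → V)

/-- edges alive after history `P` -/
def aliveF (P : List (Ev V E)) : Finset E := Finset.univ.filter fun e => evs e P = [true]

lemma mem_aliveF (P : List (Ev V E)) (e : E) : e ∈ aliveF P ↔ evs e P = [true] := by
  simp [aliveF]

/-- number of moves along a timeline, where `hold P e` is the place of `e` after the history `P` -/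
def flips : List (Ev V E) → List (Ev V E) → ℕ
  | _, [] => 0
  | P, a :: L => ((aliveF P ∩ aliveF (P ++ [a])).filter
      fun e => hold P e ≠ hold (P ++ [a]) e).card + flips (P ++ [a]) L

/-- number of moves of `e` -/
def flipsE (e : E) : List (Ev V E) → List (Ev V E) → ℕ
  | _, [] => 0
  | P, a :: L => (if e ∈ (aliveF P ∩ aliveF (P ++ [a])).filter
      fun e => hold P e ≠ hold (P ++ [a]) e then 1 else 0) + flipsE e (P ++ [a]) L

/-- number of bursts at which `e` sits on the bursting vertex -/
def contribE (e : E) : List (Ev V E) → List (Ev V E) → ℕ
  | _, [] => 0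
  | P, .burst v :: L => (if e ∈ (aliveF P).filter fun e => hold P e = v then 1 else 0)
      + contribE e (P ++ [.burst v]) L
  | P, .ins e' :: L => contribE e (P ++ [.ins e']) L
  | P, .del e' :: L => contribE e (P ++ [.del e']) L

lemma sum_flipsE (P L : List (Ev V E)) : ∑ e, flipsE hold e P L = flips hold P L := by
  induction L generalizing P with
  | nil => simp [flipsE, flips]
  | cons a L ih =>
    simp only [flipsE, flips, Finset.sum_add_distrib, ih]
    congr 1
    rw [Finset.sum_ite_mem]
    simp

lemma sum_contribE (c : ℕ) (P L : List (Ev V E))
    (hc : ∀ M N, L = M ++ N → ∀ v, ((aliveF (P ++ M)).filter fun e => hold (P ++ M) e = v).card ≤ c) :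
    ∑ e, contribE hold e P L ≤ c * ∑ v, nb v L := by
  induction L generalizing P with
  | nil => simp [contribE]
  | cons a L ih =>
    have ih' := ih (P ++ [a]) (by
      intro M N h v
      have := hc (a :: M) N (by simp [h]) v
      simpa using this)
    cases a with
    | ins e' => simpa [contribE, nb] using ih'
    | del e' => simpa [contribE, nb] using ih'
    | burst w =>
      simp only [contribE, nb, Finset.sum_add_distrib]
      rw [Finset.sum_ite_mem]
      have h1 := hc [] (Ev.burst w :: L) rfl w
      simp only [List.append_nil] at h1
      have h2 : ∑ v : V, (if w = v then 1 else 0) = 1 := by simp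
      rw [h2, mul_add, mul_one]
      apply add_le_add _ ih'
      simpa using h1

lemma per_edge (x y : E → V) (hxy : ∀ e, x e ≠ y e) (e : E) (P L : List (Ev V E))
    (last : Option Bool)
    (hb : ∀ M v, hold (M ++ [Ev.burst v]) e = hold M e)
    (hv : ∀ M N, L = M ++ N → evs e (P ++ M) = [true] →
      hold (P ++ M) e = x e ∨ hold (P ++ M) e = y e)
    (he : evs e P ++ evs e L = [true, false]) (hl : evs e P = [] → last = none) :
    alt last (tr x y e (decide (evs e P = [true])) L) ≤ flipsE hold e P L + 2 * contribE hold e P L
      + (if evs e P = [true] ∧ last = some (decide (hold P e = y e)) then 1 else 0) := by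
  induction L generalizing P last with
  | nil => simp [tr, alt]
  | cons a L ih =>
    have hv' : ∀ M N, L = M ++ N → evs e (P ++ [a] ++ M) = [true] →
        hold (P ++ [a] ++ M) e = x e ∨ hold (P ++ [a] ++ M) e = y e := by
      intro M N h h'
      have := hv (a :: M) N (by simp [h]) (by simpa using h')
      simpa using this
    cases a with
    | burst v =>
      have e1 : evs e (P ++ [Ev.burst v]) = evs e P := by simp [evs]
      have he' : evs e (P ++ [Ev.burst v]) ++ evs e L = [true, false] := by
        rw [e1]; simpa [evs] using he
      by_cases hal : evs e P = [true]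
      · have hside := hv [] _ rfl (by simpa using hal)
        simp only [List.append_nil] at hside
        have hmem : e ∈ aliveF P := (mem_aliveF P e).2 hal
        simp only [tr, flipsE, contribE, hal, decide_true, if_true]
        by_cases h1 : v = x e
        · subst h1
          have IH := ih (P ++ [Ev.burst (x e)]) (some false) hv' he' (by rw [e1, hal]; simp)
          rw [e1] at IH
          simp only [hal, decide_true, hb] at IH
          simp only [if_true, List.cons_append, List.nil_append, alt]
          rcases hside with hs | hs
          · have h3 : e ∈ (aliveF P).filter fun e' => hold P e' = x e := by simp [hmem, hs]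
            rw [if_pos h3]
            have : (if last = some (!false) then 1 else 0) ≤ 1 := by split_ifs <;> simp
            simp only [hs, hxy, decide_false] at IH ⊢
            simp only [and_self, if_true] at IH
            omega
          · simp only [hs, decide_true, Option.some.injEq, Bool.false_eq_true, and_false,
              if_false] at IH
            simp only [hs, decide_true, Bool.not_false, true_and]
            omega
        · by_cases h2 : v = y e
          · subst h2
            have IH := ih (P ++ [Ev.burst (y e)]) (some true) hv' he' (by rw [e1, hal]; simp)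
            rw [e1] at IH
            simp only [hal, decide_true, hb] at IH
            simp only [h1, if_true, if_false, List.cons_append, List.nil_append, alt]
            rcases hside with hs | hs
            · simp only [hs, hxy, decide_false, Option.some.injEq, Bool.true_eq_false, and_false,
                if_false] at IH
              simp only [hs, hxy, decide_false, Bool.not_true, true_and]
              omega
            · have h3 : e ∈ (aliveF P).filter fun e' => hold P e' = y e := by simp [hmem, hs]
              rw [if_pos h3]
              have : (if last = some (!true) then 1 else 0) ≤ 1 := by split_ifs <;> simp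
              simp only [hs, decide_true] at IH ⊢
              simp only [and_self, if_true] at IH
              omega
          · have IH := ih (P ++ [Ev.burst v]) last hv' he' (by rw [e1, hal]; simp)
            rw [e1] at IH
            simp only [hal, decide_true, hb] at IH
            simp only [h1, h2, if_false, List.nil_append]
            omega
      · have IH := ih (P ++ [Ev.burst v]) last hv' he' (by rw [e1]; exact hl)
        rw [e1] at IH
        simp only [hal, false_and, if_false] at IH ⊢
        simp only [tr, flipsE, contribE, decide_false, Bool.false_eq_true, if_false,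
          List.nil_append] at IH ⊢
        omega
    | ins e' =>
      by_cases hee : e' = e
      · subst hee
        have hP : evs e' P = [] := by
          rcases hcase : evs e' P with _ | ⟨b, l⟩
          · rfl
          · rw [hcase] at he
            simp only [evs, if_true] at he
            rcases l with _ | ⟨b', l'⟩
            · simp at he
            · have := congrArg List.length he
              simp at this
        have e1 : evs e' (P ++ [Ev.ins e']) = [true] := by simp [evs, hP]
        have he' : evs e' (P ++ [Ev.ins e']) ++ evs e' L = [true, false] := by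
          rw [e1]
          simpa [evs, hP] using he
        have hlast := hl hP
        subst hlast
        have IH := ih (P ++ [Ev.ins e']) none hv' he' (by rw [e1]; simp)
        rw [e1] at IH
        simp only [tr, flipsE, contribE, hP] at IH ⊢
        simp at IH ⊢
        omega
      · have e1 : evs e (P ++ [Ev.ins e']) = evs e P := by simp [evs, hee]
        have he' : evs e (P ++ [Ev.ins e']) ++ evs e L = [true, false] := by
          rw [e1]; simpa [evs, hee] using he
        have IH := ih (P ++ [Ev.ins e']) last hv' he' (by rw [e1]; exact hl)
        rw [e1] at IH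
        simp only [tr, flipsE, contribE, hee, decide_false, Bool.or_false] at IH ⊢
        by_cases hal : evs e P = [true]
        · have m1 : e ∈ aliveF P := (mem_aliveF P e).2 hal
          have m2 : e ∈ aliveF (P ++ [Ev.ins e']) := (mem_aliveF _ e).2 (by rw [e1, hal])
          simp only [hal, true_and] at IH ⊢
          simp only [Finset.mem_filter, Finset.mem_inter, m1, m2, true_and]
          by_cases hh : hold P e = hold (P ++ [Ev.ins e']) e
          · rw [← hh] at IH
            simp only [hh, ne_eq, not_true_eq_false, if_false] at IH ⊢
            omega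
          · simp only [ne_eq, hh, not_false_eq_true, if_true]
            have : (if last = some (decide (hold (P ++ [Ev.ins e']) e = y e)) then 1 else 0) ≤ 1 := by
              split_ifs <;> simp
            omega
        · simp only [hal, false_and, if_false] at IH ⊢
          omega
    | del e' =>
      by_cases hee : e' = e
      · subst hee
        have hP : evs e' L = [] := by
          simp only [evs, if_true] at he
          rcases hcase : evs e' P with _ | ⟨b, l⟩
          · rw [hcase] at he; simp at he
          · rw [hcase] at he
            rcases hcase2 : evs e' L with _ | ⟨b', l'⟩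
            · rfl
            · rw [hcase2] at he
              have := congrArg List.length he
              simp at this
              omega
        have : tr x y e' (decide (evs e' P = [true])) (Ev.del e' :: L) = [] := by
          simp only [tr, decide_true, Bool.not_true, Bool.and_false]
          exact tr_false_of_evs x y e' L hP
        rw [this]
        simp [alt]
      · have e1 : evs e (P ++ [Ev.del e']) = evs e P := by simp [evs, hee]
        have he' : evs e (P ++ [Ev.del e']) ++ evs e L = [true, false] := by
          rw [e1]; simpa [evs, hee] using he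
        have IH := ih (P ++ [Ev.del e']) last hv' he' (by rw [e1]; exact hl)
        rw [e1] at IH
        simp only [tr, flipsE, contribE, hee, decide_false, Bool.not_false, Bool.and_true] at IH ⊢
        by_cases hal : evs e P = [true]
        · have m1 : e ∈ aliveF P := (mem_aliveF P e).2 hal
          have m2 : e ∈ aliveF (P ++ [Ev.del e']) := (mem_aliveF _ e).2 (by rw [e1, hal])
          simp only [hal, true_and] at IH ⊢
          simp only [Finset.mem_filter, Finset.mem_inter, m1, m2, true_and]
          by_cases hh : hold P e = hold (P ++ [Ev.del e']) e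
          · rw [← hh] at IH
            simp only [hh, ne_eq, not_true_eq_false, if_false] at IH ⊢
            omega
          · simp only [ne_eq, hh, not_false_eq_true, if_true]
            have : (if last = some (decide (hold (P ++ [Ev.del e']) e = y e)) then 1 else 0) ≤ 1 := by
              split_ifs <;> simp
            omega
        · simp only [hal, false_and, if_false] at IH ⊢
          omega

end ineq

/-! ### from gadgets to event sequences -/

section bridge

variable {V E : Type} [Fintype V] [DecidableEq V] [Fintype E] [DecidableEq E]
variable {n : ℕ} (φ : V ≃ Fin n) (ι : E → ℕ) (x y : E → V)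

/-- the real events behind a timeline -/
def evSeq : List (Ev V E) → List (Event n)
  | [] => []
  | .ins e :: L => .arrive (ι e) {φ (x e), φ (y e)} :: evSeq L
  | .del e :: L => .depart (ι e) :: evSeq L
  | .burst _ :: L => evSeq L

lemma evSeq_append (L M : List (Ev V E)) : evSeq φ ι x y (L ++ M) = evSeq φ ι x y L ++ evSeq φ ι x y M := by
  induction L with
  | nil => rfl
  | cons a L ih => cases a <;> simp [evSeq, ih]

lemma evSeq_split (L : List (Ev V E)) (p : List (Event n)) (a : Event n) (q : List (Event n))
    (h : evSeq φ ι x y L = p ++ a :: q) :
    ∃ P b Q, L = P ++ b :: Q ∧ evSeq φ ι x y P = p ∧ evSeq φ ι x y [b] = [a] := by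
  induction L generalizing p with
  | nil => simp [evSeq] at h
  | cons b L ih =>
    cases b with
    | ins e =>
      rcases p with _ | ⟨p0, p⟩
      · simp only [evSeq, List.nil_append, List.cons.injEq] at h
        exact ⟨[], Ev.ins e, L, rfl, rfl, by simp [evSeq, h.1]⟩
      · simp only [evSeq, List.cons_append, List.cons.injEq] at h
        obtain ⟨P, b, Q, h1, h2, h3⟩ := ih p h.2
        exact ⟨Ev.ins e :: P, b, Q, by simp [h1], by simp [evSeq, h2, h.1], h3⟩
    | del e =>
      rcases p with _ | ⟨p0, p⟩
      · simp only [evSeq, List.nil_append, List.cons.injEq] at h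
        exact ⟨[], Ev.del e, L, rfl, rfl, by simp [evSeq, h.1]⟩
      · simp only [evSeq, List.cons_append, List.cons.injEq] at h
        obtain ⟨P, b, Q, h1, h2, h3⟩ := ih p h.2
        exact ⟨Ev.del e :: P, b, Q, by simp [h1], by simp [evSeq, h2, h.1], h3⟩
    | burst v =>
      obtain ⟨P, b, Q, h1, h2, h3⟩ := ih p h
      exact ⟨Ev.burst v :: P, b, Q, by simp [h1], by simp [evSeq, h2], h3⟩

lemma evSeq_take (L : List (Ev V E)) (t : ℕ) :
    ∃ P Q, L = P ++ Q ∧ evSeq φ ι x y P = (evSeq φ ι x y L).take t := by
  induction L generalizing t with
  | nil => exact ⟨[], [], rfl, by simp [evSeq]⟩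
  | cons b L ih =>
    cases b with
    | ins e =>
      cases t with
      | zero => exact ⟨[], _, rfl, by simp [evSeq]⟩
      | succ t =>
        obtain ⟨P, Q, h1, h2⟩ := ih t
        exact ⟨Ev.ins e :: P, Q, by simp [h1], by simp [evSeq, h2]⟩
    | del e =>
      cases t with
      | zero => exact ⟨[], _, rfl, by simp [evSeq]⟩
      | succ t =>
        obtain ⟨P, Q, h1, h2⟩ := ih t
        exact ⟨Ev.del e :: P, Q, by simp [h1], by simp [evSeq, h2]⟩
    | burst v =>
      obtain ⟨P, Q, h1, h2⟩ := ih t
      exact ⟨Ev.burst v :: P, Q, by simp [h1], by simp [evSeq, h2]⟩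

variable (hι : Function.Injective ι)
include hι

/-- description of the state after a history -/
lemma state_evSeq (P Q : List (Ev V E)) (hev : ∀ e, evs e (P ++ Q) = [true, false]) :
    (∀ j, j ∈ (stateAfter (evSeq φ ι x y P)).active ↔ ∃ e, ι e = j ∧ evs e P = [true]) ∧
    (∀ j, j ∈ (stateAfter (evSeq φ ι x y P)).seen ↔ ∃ e, ι e = j ∧ evs e P ≠ []) ∧
    (∀ e, evs e P ≠ [] → (stateAfter (evSeq φ ι x y P)).elig (ι e) = {φ (x e), φ (y e)}) := by
  induction P using List.reverseRecOn generalizing Q with
  | nil => simp [evSeq, stateAfter, evs]
  | append_singleton P a ih =>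
    obtain ⟨h1, h2, h3⟩ := ih (a :: Q) (by simpa using hev)
    rw [evSeq_append]
    cases a with
    | burst v =>
      simp only [evSeq, List.append_nil, evs_append, evs]
      exact ⟨h1, h2, h3⟩
    | ins e =>
      have hP : evs e P = [] := by
        have := hev e
        simp only [evs_append, evs, if_true] at this
        rcases hcase : evs e P with _ | ⟨b, l⟩
        · rfl
        · rw [hcase] at this
          rcases l with _ | ⟨b', l'⟩
          · simp at this
          · have := congrArg List.length this
            simp at this
      simp only [evSeq]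
      rw [stateAfter_snoc]
      simp only [State.step]
      refine ⟨?_, ?_, ?_⟩
      · intro j
        rw [Finset.mem_insert, h1]
        constructor
        · rintro (rfl | ⟨e', rfl, he'⟩)
          · exact ⟨e, rfl, by simp [evs, hP]⟩
          · have hne : e ≠ e' := by rintro rfl; rw [hP] at he'; simp at he'
            exact ⟨e', rfl, by simp [evs, hne, he']⟩
        · rintro ⟨e', rfl, he'⟩
          by_cases hne : e = e'
          · left; rw [hne]
          · right; exact ⟨e', rfl, by simpa [evs, hne] using he'⟩
      · intro j
        rw [Finset.mem_insert, h2]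
        constructor
        · rintro (rfl | ⟨e', rfl, he'⟩)
          · exact ⟨e, rfl, by simp [evs]⟩
          · exact ⟨e', rfl, by simp [he']⟩
        · rintro ⟨e', rfl, he'⟩
          by_cases hne : e = e'
          · left; rw [hne]
          · right; exact ⟨e', rfl, by simpa [evs, hne] using he'⟩
      · intro e' he'
        by_cases hne : e = e'
        · subst hne; simp
        · have : ι e' ≠ ι e := fun h => hne (hι h).symm
          rw [Function.update_of_ne this]
          exact h3 e' (by simpa [evs, hne] using he')
    | del e =>
      have hP : evs e P = [true] := by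
        have := hev e
        simp only [evs_append, evs, if_true] at this
        rcases hcase : evs e P with _ | ⟨b, l⟩
        · rw [hcase] at this; simp at this
        · rw [hcase] at this
          rcases l with _ | ⟨b', l'⟩
          · simp at this; simp [this]
          · have := congrArg List.length this
            simp at this
      simp only [evSeq]
      rw [stateAfter_snoc]
      simp only [State.step]
      refine ⟨?_, ?_, ?_⟩
      · intro j
        rw [Finset.mem_erase, h1]
        constructor
        · rintro ⟨hj, e', rfl, he'⟩
          have hne : e ≠ e' := by rintro rfl; exact hj rfl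
          exact ⟨e', rfl, by simp [evs, hne, he']⟩
        · rintro ⟨e', rfl, he'⟩
          have hne : e ≠ e' := by
            rintro rfl
            simp [evs, hP] at he'
          exact ⟨fun h => hne (hι h).symm, e', rfl, by simpa [evs, hne] using he'⟩
      · intro j
        rw [h2]
        constructor
        · rintro ⟨e', rfl, he'⟩
          exact ⟨e', rfl, by simp [he']⟩
        · rintro ⟨e', rfl, he'⟩
          by_cases hne : e = e'
          · subst hne; exact ⟨e, rfl, by simp [hP]⟩
          · exact ⟨e', rfl, by simpa [evs, hne] using he'⟩
      · intro e' he'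
        apply h3
        by_cases hne : e = e'
        · subst hne; simp [hP]
        · simpa [evs, hne] using he'

lemma valid_evSeq (L : List (Ev V E)) (hev : ∀ e, evs e L = [true, false]) :
    Valid (evSeq φ ι x y L) := by
  intro p a q h
  obtain ⟨P, b, Q, rfl, rfl, hb⟩ := evSeq_split φ ι x y L p a q h
  obtain ⟨h1, h2, _⟩ := state_evSeq φ ι x y hι P (b :: Q) hev
  cases b with
  | burst v => simp [evSeq] at hb
  | ins e =>
    simp only [evSeq, List.cons.injEq, and_true] at hb
    subst hb
    refine ⟨?_, by simp⟩
    rw [h2]
    rintro ⟨e', he', hne⟩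
    have := hι he'
    subst this
    have := hev e'
    simp only [evs_append, evs, if_true] at this
    rcases hcase : evs e' P with _ | ⟨b, l⟩
    · exact hne hcase
    · rw [hcase] at this
      rcases l with _ | ⟨b', l'⟩
      · simp at this
      · have := congrArg List.length this
        simp at this
  | del e =>
    simp only [evSeq, List.cons.injEq, and_true] at hb
    subst hb
    show ι e ∈ _
    rw [h1]
    refine ⟨e, rfl, ?_⟩
    have := hev e
    simp only [evs_append, evs, if_true] at this
    rcases hcase : evs e P with _ | ⟨b, l⟩
    · rw [hcase] at this; simp at this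
    · rw [hcase] at this
      rcases l with _ | ⟨b', l'⟩
      · simp at this; simp [this]
      · have := congrArg List.length this
        simp at this

omit hι in
lemma length_evSeq (L : List (Ev V E)) : (evSeq φ ι x y L).length = ∑ e, (evs e L).length := by
  induction L with
  | nil => simp [evSeq, evs]
  | cons a L ih =>
    cases a with
    | burst v => simpa [evSeq, evs] using ih
    | ins e =>
      have : ∀ e', (evs e' (Ev.ins (V := V) e :: L)).length = (if e = e' then 1 else 0) + (evs e' L).length := by
        intro e'
        by_cases h : e = e' <;> simp [evs, h, add_comm]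
      simp only [evSeq, List.length_cons, ih, this, Finset.sum_add_distrib]
      simp [add_comm]
    | del e =>
      have : ∀ e', (evs e' (Ev.del (V := V) e :: L)).length = (if e = e' then 1 else 0) + (evs e' L).length := by
        intro e'
        by_cases h : e = e' <;> simp [evs, h, add_comm]
      simp only [evSeq, List.length_cons, ih, this, Finset.sum_add_distrib]
      simp [add_comm]

end bridge

/-! ### the optimum -/

section opt

/-- the current edges after a timeline -/
def setAfter {V E : Type} : Set E → List (Ev V E) → Set E
  | A, [] => A
  | A, .ins e :: L => setAfter (insert e A) L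
  | A, .del e :: L => setAfter (A \ {e}) L
  | A, .burst _ :: L => setAfter A L

lemma Good.append {V E : Type} {x y : E → V} {A : Set E} {P Q : List (Ev V E)}
    (h : Good x y A (P ++ Q)) : Good x y (setAfter A P) Q := by
  induction P generalizing A with
  | nil => exact h
  | cons a P ih =>
    cases a with
    | ins e => exact ih h.2
    | del e => exact ih h.2
    | burst v => exact ih (A := A) h

lemma mem_setAfter {V E : Type} [DecidableEq E] (e : E) (A : Set E) [Decidable (e ∈ A)]
    (P : List (Ev V E)) : e ∈ setAfter A P ↔ alv e (decide (e ∈ A)) P = true := by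
  classical
  induction P generalizing A with
  | nil => simp [setAfter, alv]
  | cons a P ih =>
    cases a with
    | ins e' =>
      rw [setAfter, ih, alv]
      have : decide (e ∈ insert e' A) = (decide (e ∈ A) || decide (e' = e)) := by
        by_cases h1 : e ∈ A <;> by_cases h2 : e' = e <;> simp [h1, h2, eq_comm (a := e)]
      rw [this]
    | del e' =>
      rw [setAfter, ih, alv]
      have : decide (e ∈ A \ {e'}) = (decide (e ∈ A) && !decide (e' = e)) := by
        by_cases h1 : e ∈ A <;> by_cases h2 : e' = e <;> simp [h1, h2, eq_comm (a := e)]
      rw [this]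
    | burst v => rw [setAfter, ih, alv]

lemma orient_alive {V E : Type} [DecidableEq E] {x y : E → V} (P Q : List (Ev V E))
    (h : Good x y ∅ (P ++ Q)) :
    Orient x y {e | evs e P = [true]} ∅ := by
  classical
  refine h.append.orient.mono ?_ le_rfl
  intro e he
  rw [mem_setAfter, alv_eq]
  simp only [Set.mem_ofPred_eq] at he
  simp [he]

variable {V E : Type} [Fintype V] [DecidableEq V] [Fintype E] [DecidableEq E]
variable {n : ℕ} (φ : V ≃ Fin n) (ι : E → ℕ) (x y : E → V)

lemma optAt_le (hι : Function.Injective ι) (hn : 0 < n) (P Q : List (Ev V E))
    (hev : ∀ e, evs e (P ++ Q) = [true, false]) (h : Good x y ∅ (P ++ Q)) :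
    optAt (stateAfter (evSeq φ ι x y P)) ≤ 1 := by
  classical
  obtain ⟨o, o1, o2, -⟩ := orient_alive P Q h
  obtain ⟨h1, -, h3⟩ := state_evSeq φ ι x y hι P Q hev
  let f : ℕ → Fin n := fun j =>
    if h : ∃ e, ι e = j ∧ evs e P = [true] then φ (o h.choose) else ⟨0, hn⟩
  have hf : ∀ e, evs e P = [true] → f (ι e) = φ (o e) := by
    intro e he
    have hex : ∃ e', ι e' = ι e ∧ evs e' P = [true] := ⟨e, rfl, he⟩
    simp only [f, hex, dif_pos]
    rw [hι hex.choose_spec.1]
  have hr : Respects (stateAfter (evSeq φ ι x y P)) f := by
    intro j hj
    obtain ⟨e, rfl, he⟩ := (h1 j).1 hj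
    rw [hf e he, h3 e (by rw [he]; simp)]
    rcases o1 e he with h | h <;> simp [h]
  have hm : maxLoad (stateAfter (evSeq φ ι x y P)) f ≤ 1 := by
    apply Finset.sup_le
    intro i _
    apply Finset.card_le_one.2
    intro a ha b hb
    rw [Finset.mem_filter] at ha hb
    obtain ⟨e, rfl, he⟩ := (h1 a).1 ha.1
    obtain ⟨e', rfl, he'⟩ := (h1 b).1 hb.1
    have h4 : o e = o e' := by
      apply φ.injective
      rw [← hf e he, ← hf e' he', ha.2, hb.2]
    rw [o2 he he' h4]
  have hmem : maxLoad (stateAfter (evSeq φ ι x y P)) f ∈ {k | ∃ f : ℕ → Fin n,
      Respects (stateAfter (evSeq φ ι x y P)) f ∧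
        maxLoad (stateAfter (evSeq φ ι x y P)) f = k} := ⟨f, hr, rfl⟩
  exact (Nat.sInf_le hmem).trans hm

lemma one_le_optAt {s : State n} {j : ℕ} (hj : j ∈ s.active) (hf : ∃ f, Respects s f) :
    1 ≤ optAt s := by
  obtain ⟨f0, hf0⟩ := hf
  have hne : {k | ∃ f : ℕ → Fin n, Respects s f ∧ maxLoad s f = k}.Nonempty := ⟨_, f0, hf0, rfl⟩
  obtain ⟨f, _, hf2⟩ := Nat.sInf_mem hne
  unfold optAt
  rw [← hf2]
  have h1 : 1 ≤ load s f (f j) := by
    apply Finset.card_pos.2
    exact ⟨j, by simp [hj]⟩
  exact h1.trans (Finset.le_sup (f := fun i => load s f i) (Finset.mem_univ (f j)))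

lemma OPT_evSeq (hι : Function.Injective ι) (hn : 0 < n) (L : List (Ev V E))
    (hev : ∀ e, evs e L = [true, false]) (h : Good x y ∅ L) (hE : 0 < Fintype.card E) :
    OPT (evSeq φ ι x y L) = 1 := by
  apply le_antisymm
  · apply Finset.sup_le
    intro t _
    obtain ⟨P, Q, rfl, h2⟩ := evSeq_take φ ι x y L t
    rw [← h2]
    exact optAt_le φ ι x y hι hn P Q hev h
  · have hlen : 0 < (evSeq φ ι x y L).length := by
      rw [length_evSeq]
      simp only [hev]
      simpa using hE
    have hval := valid_evSeq φ ι x y hι L hev
    rcases hσ : evSeq φ ι x y L with _ | ⟨a, σ⟩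
    · rw [hσ] at hlen; simp at hlen
    · rw [hσ] at hval
      have hleg := hval [] a σ rfl
      cases a with
      | depart j =>
        have : j ∈ (∅ : Finset ℕ) := hleg
        simp at this
      | arrive j M =>
        obtain ⟨_, i, hi⟩ := hleg
        have h1 : 1 ≤ optAt (stateAfter ((Event.arrive j M :: σ).take 1)) := by
          apply one_le_optAt (j := j)
          · simp [stateAfter, State.step]
          · refine ⟨fun _ => i, ?_⟩
            intro j' hj'
            simp only [List.take_succ_cons, List.take_zero, stateAfter, List.foldl_cons,
              State.step, List.foldl_nil, Finset.mem_insert, Finset.notMem_empty, or_false] at hj' ⊢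
            subst hj'
            simpa using hi
        refine h1.trans ?_
        apply Finset.le_sup (f := fun t => optAt (stateAfter ((Event.arrive j M :: σ).take t)))
        simp

end opt

/-! ### the main counting argument -/

section main
variable {V E : Type} [Fintype V] [DecidableEq V] [Fintype E] [DecidableEq E]
variable {n : ℕ} (φ : V ≃ Fin n) (ι : E → ℕ) (x y : E → V) (A : OnlineAlgorithm n)

/-- the place of the edge `e` after the history `P`, according to the algorithm `A` -/
def holdOf (P : List (Ev V E)) (e : E) : V := φ.symm (A.assign (evSeq φ ι x y P) (ι e))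

lemma flips_le (hι : Function.Injective ι) (P Q : List (Ev V E))
    (hev : ∀ e, evs e (P ++ Q) = [true, false]) :
    flips (holdOf φ ι x y A) P Q ≤ ∑ t ∈ Finset.range (evSeq φ ι x y Q).length,
      moved A (evSeq φ ι x y P ++ (evSeq φ ι x y Q).take t)
        (evSeq φ ι x y P ++ (evSeq φ ι x y Q).take (t + 1)) := by
  induction Q generalizing P with
  | nil => simp [flips]
  | cons a Q ih =>
    have hev' : ∀ e, evs e (P ++ [a] ++ Q) = [true, false] := by simpa using hev
    have IH := ih (P ++ [a]) hev'
    have hmove : ((aliveF P ∩ aliveF (P ++ [a])).filter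
        fun e => holdOf φ ι x y A P e ≠ holdOf φ ι x y A (P ++ [a]) e).card ≤
        moved A (evSeq φ ι x y P) (evSeq φ ι x y (P ++ [a])) := by
      obtain ⟨h1, -, -⟩ := state_evSeq φ ι x y hι P (a :: Q) hev
      obtain ⟨h2, -, -⟩ := state_evSeq φ ι x y hι (P ++ [a]) Q hev'
      apply Finset.card_le_card_of_injOn ι _ hι.injOn
      intro e he
      simp only [Finset.coe_filter, Finset.mem_inter, Set.mem_ofPred_eq, mem_aliveF] at he ⊢
      refine ⟨⟨(h1 _).2 ⟨e, rfl, he.1.1⟩, (h2 _).2 ⟨e, rfl, he.1.2⟩⟩, ?_⟩
      intro h
      apply he.2
      simp only [holdOf, h]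
    cases a with
    | burst v =>
      have e1 : evSeq φ ι x y (P ++ [Ev.burst v]) = evSeq φ ι x y P := by
        rw [evSeq_append]; simp [evSeq]
      have h0 : ((aliveF P ∩ aliveF (P ++ [Ev.burst v])).filter
        fun e => holdOf φ ι x y A P e ≠ holdOf φ ι x y A (P ++ [Ev.burst v]) e).card = 0 := by
        rw [Finset.card_eq_zero, Finset.filter_eq_empty_iff]
        intro e _
        simp [holdOf, e1]
      rw [flips, h0, zero_add]
      rw [e1] at IH
      simpa [evSeq] using IH
    | ins e' =>
      rw [flips]
      simp only [evSeq, List.length_cons]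
      rw [Finset.sum_range_succ']
      have e1 : evSeq φ ι x y (P ++ [Ev.ins e']) =
          evSeq φ ι x y P ++ [Event.arrive (ι e') {φ (x e'), φ (y e')}] := by
        rw [evSeq_append]; simp [evSeq]
      rw [e1] at IH hmove
      simp only [List.take_succ_cons, List.take_zero, List.append_nil]
      simp only [List.append_assoc, List.cons_append, List.nil_append] at IH
      rw [add_comm]
      exact add_le_add IH hmove
    | del e' =>
      rw [flips]
      simp only [evSeq, List.length_cons]
      rw [Finset.sum_range_succ']
      have e1 : evSeq φ ι x y (P ++ [Ev.del e']) =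
          evSeq φ ι x y P ++ [Event.depart (ι e')] := by
        rw [evSeq_append]; simp [evSeq]
      rw [e1] at IH hmove
      simp only [List.take_succ_cons, List.take_zero, List.append_nil]
      simp only [List.append_assoc, List.cons_append, List.nil_append] at IH
      rw [add_comm]
      exact add_le_add IH hmove

lemma main_count (hι : Function.Injective ι) (hxy : ∀ e, x e ≠ y e) (L : List (Ev V E))
    (hev : ∀ e, evs e L = [true, false]) (c : ℕ)
    (hcost : A.cost (evSeq φ ι x y L) ≤ c) :
    ∑ e, alt none (tr x y e false L) ≤
      A.reassignments (evSeq φ ι x y L) + 2 * (c * ∑ v, nb v L) := by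
  classical
  have hval := valid_evSeq φ ι x y hι L hev
  have htake : ∀ P Q, L = P ++ Q → evSeq φ ι x y P =
      (evSeq φ ι x y L).take (evSeq φ ι x y P).length := by
    intro P Q h
    rw [h, evSeq_append]
    simp
  have hresp : ∀ P Q, L = P ++ Q → ∀ e, evs e P = [true] →
      holdOf φ ι x y A P e = x e ∨ holdOf φ ι x y A P e = y e := by
    intro P Q h e he
    have hv : Valid (evSeq φ ι x y P) := by
      rw [htake P Q h]; exact valid_take _ hval _
    obtain ⟨h1, -, h3⟩ := state_evSeq φ ι x y hι P Q (by rw [← h]; exact hev)
    have := A.respects _ hv (ι e) ((h1 _).2 ⟨e, rfl, he⟩)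
    rw [h3 e (by rw [he]; simp)] at this
    simp only [Finset.mem_insert, Finset.mem_singleton] at this
    rcases this with h | h
    · left; simp [holdOf, h]
    · right; simp [holdOf, h]
  have hload : ∀ P Q, L = P ++ Q → ∀ v,
      ((aliveF P).filter fun e => holdOf φ ι x y A P e = v).card ≤ c := by
    intro P Q h v
    obtain ⟨h1, -, h3⟩ := state_evSeq φ ι x y hι P Q (by rw [← h]; exact hev)
    have hle : load (stateAfter (evSeq φ ι x y P)) (A.assign (evSeq φ ι x y P)) (φ v) ≤ c := by
      refine le_trans ?_ hcost
      unfold OnlineAlgorithm.cost
      have hmem : (evSeq φ ι x y P).length ∈ Finset.range ((evSeq φ ι x y L).length + 1) := by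
        rw [Finset.mem_range, h, evSeq_append, List.length_append]
        omega
      refine le_trans ?_ (Finset.le_sup (f := fun t => maxLoad
        (stateAfter ((evSeq φ ι x y L).take t)) (A.assign ((evSeq φ ι x y L).take t))) hmem)
      rw [← htake P Q h]
      exact Finset.le_sup (f := fun i => load (stateAfter (evSeq φ ι x y P))
        (A.assign (evSeq φ ι x y P)) i) (Finset.mem_univ (φ v))
    refine le_trans ?_ hle
    apply Finset.card_le_card_of_injOn ι _ hι.injOn
    intro e he
    simp only [Finset.coe_filter, Set.mem_ofPred_eq, mem_aliveF] at he ⊢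
    refine ⟨(h1 _).2 ⟨e, rfl, he.1⟩, ?_⟩
    rw [← he.2]
    simp [holdOf]
  have hburst : ∀ (e : E) (M : List (Ev V E)) (v : V),
      holdOf φ ι x y A (M ++ [Ev.burst v]) e = holdOf φ ι x y A M e := by
    intro e M v
    have : evSeq φ ι x y (M ++ [Ev.burst v]) = evSeq φ ι x y M := by
      rw [evSeq_append]; simp [evSeq]
    simp [holdOf, this]
  have hedge : ∀ e, alt none (tr x y e false L) ≤
      flipsE (holdOf φ ι x y A) e [] L + 2 * contribE (holdOf φ ι x y A) e [] L := by
    intro e
    have := per_edge (holdOf φ ι x y A) x y hxy e [] L none (hburst e)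
      (fun M N h h' => by
        simpa using hresp M N h e (by simpa using h'))
      (by simpa [evs] using hev e) (fun _ => rfl)
    simpa [evs] using this
  calc ∑ e, alt none (tr x y e false L)
      ≤ ∑ e, (flipsE (holdOf φ ι x y A) e [] L + 2 * contribE (holdOf φ ι x y A) e [] L) :=
        Finset.sum_le_sum fun e _ => hedge e
    _ = flips (holdOf φ ι x y A) [] L + 2 * ∑ e, contribE (holdOf φ ι x y A) e [] L := by
        rw [Finset.sum_add_distrib, sum_flipsE, Finset.mul_sum]
    _ ≤ A.reassignments (evSeq φ ι x y L) + 2 * (c * ∑ v, nb v L) := by
        apply add_le_add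
        · have := flips_le φ ι x y A hι [] L (by simpa using hev)
          simpa [evSeq, OnlineAlgorithm.reassignments] using this
        · apply Nat.mul_le_mul_left
          apply sum_contribE
          intro M N h v
          simpa using hload M N h v

end main

/-- The lower bound. -/
theorem main_lower_bound (c C : ℝ) : ∃ n : ℕ, 0 < n ∧ ∃ σ : List (Event n), Valid σ ∧
    (∀ j M, Event.arrive j M ∈ σ → M.card = 2) ∧ OPT σ = 1 ∧
    ∀ A : OnlineAlgorithm n,
      c * (OPT σ : ℝ) < (A.cost σ : ℝ) ∨ C * (σ.length : ℝ) < (A.reassignments σ : ℝ) := by
  classical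
  set c' : ℕ := max 1 ⌈c⌉₊ with hc'
  set C' : ℕ := ⌈C⌉₊ with hC'
  have hc1 : 1 ≤ c' := le_max_left _ _
  have hcc : c ≤ c' := (Nat.le_ceil c).trans (by exact_mod_cast le_max_right _ _)
  have hCC : C ≤ C' := Nat.le_ceil C
  obtain ⟨G⟩ := exists_gadget (4 * C' + 1) (8 * c') (by omega)
  let φ := Fintype.equivFin G.V
  let ι : G.E → ℕ := fun e => (Fintype.equivFin G.E e).val
  have hι : Function.Injective ι := fun a b h => (Fintype.equivFin G.E).injective (Fin.ext h)
  have hVpos : 0 < Fintype.card G.V := by
    rw [Fintype.card_pos_iff]
    obtain ⟨e⟩ := Fintype.card_pos_iff.1 G.hpos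
    exact ⟨G.x e⟩
  have hopt : OPT (evSeq φ ι G.x G.y G.L) = 1 :=
    OPT_evSeq φ ι G.x G.y hι hVpos G.L G.hevs G.hgood G.hpos
  refine ⟨Fintype.card G.V, hVpos, evSeq φ ι G.x G.y G.L, valid_evSeq φ ι G.x G.y hι G.L G.hevs,
    ?_, hopt, ?_⟩
  · intro j M hM
    have : ∀ L : List (Ev G.V G.E), Event.arrive j M ∈ evSeq φ ι G.x G.y L → M.card = 2 := by
      intro L
      induction L with
      | nil => simp [evSeq]
      | cons a L ih =>
        cases a with
        | burst v => simpa [evSeq] using ih
        | del e => simpa [evSeq] using ih
        | ins e =>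
          simp only [evSeq, List.mem_cons, Event.arrive.injEq]
          rintro (⟨_, rfl⟩ | h)
          · rw [Finset.card_pair]
            exact fun h => G.hxy e (φ.injective h)
          · exact ih h
    exact this _ hM
  · intro A
    by_contra hcon
    rw [not_or, not_lt, not_lt, hopt] at hcon
    obtain ⟨h1, h2⟩ := hcon
    have hcost : A.cost (evSeq φ ι G.x G.y G.L) ≤ c' := by
      have : (A.cost (evSeq φ ι G.x G.y G.L) : ℝ) ≤ (c' : ℝ) := by
        calc (A.cost (evSeq φ ι G.x G.y G.L) : ℝ) ≤ c * ((1 : ℕ) : ℝ) := h1
          _ ≤ c' := by simpa using hcc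
      exact_mod_cast this
    have hlen : (evSeq φ ι G.x G.y G.L).length = 2 * Fintype.card G.E := by
      rw [length_evSeq]
      simp only [G.hevs]
      simp [mul_comm]
    have hre : A.reassignments (evSeq φ ι G.x G.y G.L) ≤ C' * (2 * Fintype.card G.E) := by
      have : (A.reassignments (evSeq φ ι G.x G.y G.L) : ℝ) ≤ (C' : ℝ) * (2 * Fintype.card G.E : ℕ) := by
        rw [← hlen]
        exact h2.trans (mul_le_mul_of_nonneg_right hCC (by positivity))
      exact_mod_cast this
    have hmain := main_count φ ι G.x G.y A hι G.hxy G.L G.hevs c' hcost
    have hlow : (4 * C' + 1) * Fintype.card G.E ≤ ∑ e, alt none (tr G.x G.y e false G.L) := by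
      calc (4 * C' + 1) * Fintype.card G.E = ∑ _e : G.E, (4 * C' + 1) := by
            simp [mul_comm]
        _ ≤ _ := Finset.sum_le_sum fun e _ => G.halt e
    have hnb : ∑ v, nb v G.L = (4 * C' + 1) * Fintype.card G.V := by
      simp only [G.hnb]
      simp [mul_comm]
    rw [hnb] at hmain
    have hcard := G.hcard
    have hE := G.hpos
    have h3 : 4 * (c' * Fintype.card G.V) = Fintype.card G.E := by nlinarith
    have h4 : 2 * (c' * ((4 * C' + 1) * Fintype.card G.V)) * 2 =
        (4 * C' + 1) * Fintype.card G.E := by
      rw [← h3]; ring
    nlinarith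

end Pool.Agent.Helper88.LoadLowerBound
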