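import Pool.Agent.TM2Lib.Bits

/-!
# Polynomial time functions on binary trees

`PD f`: the function `f : D → D` is computed (on the string codes of trees) by a Turing machine in
polynomial time.  `Ex` is a small language of loop-free tree programs, all of which are polynomial
time.
-/

namespace Pool.Agent.helper88

open Pool.Agent.TM2Lib Pool.Agent.TM2Lib.D

/-- polynomial time functions on trees -/
def PD (f : D → D) : Prop := Comp encD (fun d => encD (f d))

theorem PD.id : PD (fun d => d) := Comp.refl _

theorem PD.comp {f g : D → D} (hg : PD g) (hf : PD f) : PD (fun d => g (f d)) :=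
  Comp.trans hf (Comp.reindex hg f)

theorem PD.const (c : D) : PD (fun _ => c) := Comp.const _ _

theorem PD.cons {f g : D → D} (hf : PD f) (hg : PD g) : PD (fun d => D.cons (f d) (g d)) :=
  Comp.pair hf hg

/-- is the tree a `cons`? -/
def isCons : D → Bool
  | .nil => false
  | .cons _ _ => true

theorem iterate_const_true (n : ℕ) (b : Bool) : (fun _ : Bool => true)^[n + 1] b = true := by
  rw [Function.iterate_succ_apply']

theorem comp_isCons : PD (fun d => ofBool (isCons d)) := by
  have h1 : Comp (fun s : Bool => encD (ofBool s)) (fun s => encD (ofBool ((fun _ => true) s))) :=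
    Comp.const _ _
  have h2 := Comp.iter (α := D) (σ := Bool) (encσ := ofBool) (step := fun _ => true) h1
    (fun d => d) (fun _ => false) 3 (by
      intro a k _
      have : ∀ b : Bool, (ofBool b).size ≤ 3 := by intro b; cases b <;> simp [ofBool]
      refine (this _).trans ?_
      simp)
  have h3 : Comp (fun d : D => encD d) (fun d => encD (D.cons d (ofBool false))) :=
    Comp.pair (Comp.refl _) (Comp.const _ _)
  refine (Comp.trans h3 h2 : Comp _ _).trans ?_
  have e : (fun a : D => encD (ofBool ((fun _ : Bool => true)^[a.len] false))) =
      (fun d => encD (ofBool (isCons d))) := by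
    funext d
    cases d with
    | nil => rfl
    | cons a b =>
      simp only [D.len, isCons]
      rw [iterate_const_true]
  rw [e]
  exact Comp.refl _

theorem PD.ite {c f g : D → D} (hc : PD c) (hf : PD f) (hg : PD g) :
    PD (fun d => if isCons (c d) then f d else g d) := by
  have h1 : Comp (fun d : D => encD d) (fun d => encD (D.cons (ofBool (isCons (c d))) d)) :=
    Comp.pair (PD.comp comp_isCons hc) (Comp.refl _)
  have h2 := Comp.ite (α := D) (fun d => isCons (c d)) (fun d => d)
    (y := fun d => encD (if isCons (c d) then f d else g d))
    (by
      have := Comp.reindex hf (fun a : {a : D // isCons (c a) = true} => a.1)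
      have e : (fun a : {a : D // isCons (c a) = true} =>
          encD (if isCons (c a.1) then f a.1 else g a.1)) = fun a => encD (f a.1) := by
        funext a
        rw [if_pos a.2]
      rw [e]
      exact this)
    (by
      have := Comp.reindex hg (fun a : {a : D // isCons (c a) = false} => a.1)
      have e : (fun a : {a : D // isCons (c a) = false} =>
          encD (if isCons (c a.1) then f a.1 else g a.1)) = fun a => encD (g a.1) := by
        funext a
        rw [if_neg (by rw [a.2]; decide)]
      rw [e]
      exact this)
  exact Comp.trans h1 h2

theorem hd_isCons (d : D) : D.cons (if isCons d then d else D.cons D.nil D.nil).hd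
    (if isCons d then d else D.cons D.nil D.nil).tl =
      if isCons d then d else D.cons D.nil D.nil := by
  cases d <;> simp [isCons, D.hd, D.tl]

theorem PD.hd0 : PD D.hd := by
  have h0 : PD (fun d => if isCons d then d else D.cons D.nil D.nil) :=
    PD.ite PD.id PD.id (PD.const _)
  have h1 := Comp.hd (fun d => (if isCons d then d else D.cons D.nil D.nil).hd)
    (fun d => (if isCons d then d else D.cons D.nil D.nil).tl)
  simp only [hd_isCons] at h1
  have h2 := Comp.trans h0 h1
  have e : (fun d : D => encD (if isCons d then d else D.cons D.nil D.nil).hd) =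
      fun d => encD (D.hd d) := by
    funext d
    cases d <;> simp [isCons, D.hd]
  rw [e] at h2
  exact h2

theorem PD.tl0 : PD D.tl := by
  have h0 : PD (fun d => if isCons d then d else D.cons D.nil D.nil) :=
    PD.ite PD.id PD.id (PD.const _)
  have h1 := Comp.tl (fun d => (if isCons d then d else D.cons D.nil D.nil).hd)
    (fun d => (if isCons d then d else D.cons D.nil D.nil).tl)
  simp only [hd_isCons] at h1
  have h2 := Comp.trans h0 h1
  have e : (fun d : D => encD (if isCons d then d else D.cons D.nil D.nil).tl) =
      fun d => encD (D.tl d) := by
    funext d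
    cases d <;> simp [isCons, D.tl]
  rw [e] at h2
  exact h2

theorem PD.hd {f : D → D} (hf : PD f) : PD (fun d => (f d).hd) := PD.comp PD.hd0 hf

theorem PD.tl {f : D → D} (hf : PD f) : PD (fun d => (f d).tl) := PD.comp PD.tl0 hf

/-- Loop-free programs: expressions with one input (`app` calls a polynomial time function). -/
inductive Ex : Type
  | inp
  | lit (c : D)
  | hd (e : Ex)
  | tl (e : Ex)
  | cons (a b : Ex)
  | ite (c a b : Ex)
  | app (f : D → D) (hf : PD f) (e : Ex)

namespace Ex

/-- value of a loop-free program -/
def eval : Ex → D → D
  | inp, d => d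
  | lit c, _ => c
  | hd e, d => (e.eval d).hd
  | tl e, d => (e.eval d).tl
  | cons a b, d => D.cons (a.eval d) (b.eval d)
  | ite c a b, d => if isCons (c.eval d) then a.eval d else b.eval d
  | app f _ e, d => f (e.eval d)

theorem pd (e : Ex) : PD e.eval := by
  induction e with
  | inp => exact PD.id
  | lit c => exact PD.const c
  | hd e ih => exact PD.hd ih
  | tl e ih => exact PD.tl ih
  | cons a b iha ihb => exact PD.cons iha ihb
  | ite c a b ihc iha ihb => exact PD.ite ihc iha ihb
  | app f hf e ih =>
    have h : PD (fun d => f (e.eval d)) := PD.comp hf ih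
    exact h

end Ex

end Pool.Agent.helper88
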