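import Pool.Agent.helper88.SurjMachine

/-!
# Correctness of the reduction
-/

namespace Pool.Agent.helper88.Surj

/-- typed version of a polynomial -/
def conv (N : ℕ) (p : RPoly) : Poly (N + 1) :=
  p.map fun m => (m.1, m.2.map (Fin.ofNat (N + 1)))

theorem aeval_conv (N : ℕ) (p : RPoly) (x : Fin (N + 1) → ℝ) :
    MvPolynomial.aeval x (conv N p).toMv = pev (fun i => x (Fin.ofNat (N + 1) i)) p := by
  induction p with
  | nil => simp [conv, Poly.toMv]
  | cons m p ih =>
    rw [pev_cons, ← ih]
    simp only [conv, Poly.toMv, List.map_cons, List.sum_cons, map_add, map_mul,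
      List.map_map]
    congr 1
    congr 1
    · simp
    · rw [map_list_prod, List.map_map]
      congr 1
      apply List.map_congr_left
      intro i _
      simp

/-- the polynomial map of a final state -/
def finalMap {n : ℕ} (S : St n) : PolyMap := ⟨S.c + 1, (polysOf S.out).map (conv S.c)⟩

theorem isSurj_iff (F : PolyMap) : F.IsSurj ↔ ∀ ys : List ℝ, ys.length = F.fs.length →
    ∃ x : Fin F.n → ℝ, F.fs.map (fun p => MvPolynomial.aeval x p.toMv) = ys := by
  constructor
  · intro h ys hys
    obtain ⟨x, hx⟩ := h (fun i => ys.get (i.cast hys.symm))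
    refine ⟨x, ?_⟩
    apply List.ext_get
    · simp [hys]
    · intro i h1 h2
      have := congrFun hx ⟨i, by simpa using h1⟩
      simpa [PolyMap.toFun] using this
  · intro h y
    obtain ⟨x, hx⟩ := h (List.ofFn y) (by simp)
    refine ⟨x, ?_⟩
    funext i
    have h1 : (F.fs.map (fun p => MvPolynomial.aeval x p.toMv))[(i : ℕ)]? =
        (List.ofFn y)[(i : ℕ)]? := by rw [hx]
    rw [List.getElem?_eq_getElem (by simp), List.getElem?_eq_getElem (by simp)] at h1
    simpa [PolyMap.toFun] using h1

theorem finalMap_isSurj_iff {n k base : ℕ} {S : St n} (hI : Inv k base S) (hkc : S.kc = 0) :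
    (finalMap S).IsSurj ↔ ∀ x : ℕ → ℝ, ∃ v : ℕ → ℝ, (∀ j < k, v j = x j) ∧
      ∀ s t p, Entry.gad s t p ∈ S.out → pev v p = 0 := by
  obtain ⟨hn, hk, hkn, hb, hm, hstack, hout, hnodup, hst, hidn⟩ := hI
  rw [hkc, Nat.sub_zero] at hidn
  have hidlt : ∀ j, j ∈ idns S.out ↔ j < k := by
    intro j
    rw [hidn, List.mem_range'_1]; omega
  have hdisj : ∀ j ∈ idns S.out, j ∉ stv S.out := by
    intro j hj hj'
    have h1 := (hidlt j).1 hj
    have h2 := (hst j hj').2
    exact h2 (Or.inl (by omega))
  have hdisj' : ∀ s t p, Entry.gad s t p ∈ S.out → ∀ i ∈ pvars p, i ∉ stv S.out := by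
    intro s t p hp i hi hi'
    exact (hst i hi').2 (hout s t p hp i hi).2
  have hvars : ∀ q ∈ polysOf S.out, ∀ i ∈ pvars q, i < S.c + 1 := by
    intro q hq i hi
    rcases polysOf_vars hq hi with h | h | ⟨s, t, p, h, h'⟩
    · have := (hidlt i).1 h; omega
    · have := (hst i h).1; omega
    · have := (hout s t p h i h').1; omega
  have key := onto_iff (es := S.out) (by rw [hidn]; exact List.nodup_range') hnodup hdisj hdisj'
  rw [isSurj_iff]
  have e : (∀ ys : List ℝ, ys.length = (finalMap S).fs.length →
      ∃ x : Fin (finalMap S).n → ℝ,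
        (finalMap S).fs.map (fun p => MvPolynomial.aeval x p.toMv) = ys) ↔
      ∀ ys : List ℝ, ys.length = (polysOf S.out).length → ∃ v : ℕ → ℝ,
        (polysOf S.out).map (pev v) = ys := by
    constructor
    · intro h ys hys
      obtain ⟨x, hx⟩ := h ys (by simpa [finalMap] using hys)
      refine ⟨fun i => x (Fin.ofNat (S.c + 1) i), ?_⟩
      rw [← hx]
      simp only [finalMap, List.map_map]
      apply List.map_congr_left
      intro q _
      exact (aeval_conv S.c q x).symm
    · intro h ys hys
      obtain ⟨v, hv⟩ := h ys (by simpa [finalMap] using hys)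
      refine ⟨fun i => v i, ?_⟩
      rw [← hv]
      simp only [finalMap, List.map_map]
      apply List.map_congr_left
      intro q hq
      refine (aeval_conv S.c q _).trans ?_
      apply pev_congr
      intro i hi
      have := hvars q hq i hi
      simp only [Fin.ofNat]
      rw [Nat.mod_eq_of_lt this]
  rw [e, key]
  simp only [hidlt]

/-- initial state -/
def init (S : Sentence) : St (S.k + S.l) :=
  ⟨[(S.k + S.l, .fm S.φ)], S.k + S.l + 10,
    gads (S.k + S.l + 1) [[(1, []), (-1, [S.k + S.l])]], S.k⟩

theorem inv_init (S : Sentence) : Inv S.k (S.k + S.l + 1) (init S) := by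
  refine ⟨by omega, le_rfl, by omega, by simp only [init]; omega, by simp only [init]; omega,
    ?_, ?_, ?_, ?_, ?_⟩
  · intro x hx
    simp only [init, List.mem_cons, List.not_mem_nil, or_false] at hx
    subst hx
    simp only [init, isP]
    omega
  · intro s t p hp i hi
    have h := of_mem_gads hp
    simp only [List.mem_cons, List.not_mem_nil, or_false] at h
    subst h
    simp only [pvars, List.flatMap_cons, List.flatMap_nil, List.mem_append, List.mem_cons,
      List.not_mem_nil, or_false, false_or] at hi
    subst hi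
    simp only [init, isP]
    omega
  · exact nodup_stv_gads _ _
  · intro s hs
    have := mem_stv_gads hs
    simp only [List.length_cons, List.length_nil] at this
    simp only [init, isP]
    omega
  · simp [init, idns_gads]

theorem exists_sat_init (S : Sentence) (u : Fin (S.k + S.l) → ℝ) :
    (∃ v, Sat u v (init S)) ↔ S.φ.holds u := by
  constructor
  · rintro ⟨v, h1, h2, h3⟩
    have h4 := h2 (S.k + S.l, .fm S.φ) (by simp [init])
    have h5 := h3 (S.k + S.l + 1 + 3) (S.k + S.l + 1 + 4) [(1, []), (-1, [S.k + S.l])]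
      (by simp [init, gads])
    simp only [Item.val] at h4
    simp only [pev_cons, pev_nil, List.map_cons, List.map_nil, List.prod_cons,
      List.prod_nil, h4] at h5
    by_contra h
    rw [if_neg h] at h5
    norm_num at h5
  · intro h
    refine ⟨fun i => if hi : i < S.k + S.l then u ⟨i, hi⟩ else 1, ?_, ?_, ?_⟩
    · intro i; simp
    · intro x hx
      simp only [init, List.mem_cons, List.not_mem_nil, or_false] at hx
      subst hx
      simp [Item.val, h]
    · intro s t p hp
      have h' := of_mem_gads hp
      simp only [List.mem_cons, List.not_mem_nil, or_false] at h'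
      subst h'
      simp

/-- **Correctness of the reduction.** -/
theorem correct (S : Sentence) (K : ℕ) (hK : (init S).mu ≤ K) :
    (finalMap (step^[K] (init S))).IsSurj ↔ S.IsTrue := by
  have hI := (inv_init S).iterate K
  have hmu : (step^[K] (init S)).mu = 0 := by rw [mu_iterate]; omega
  obtain ⟨hst, hkc⟩ := mu_zero hmu
  rw [finalMap_isSurj_iff hI hkc]
  constructor
  · intro h x
    obtain ⟨v, hv1, hv2⟩ := h (fun i => if hi : i < S.k then x ⟨i, hi⟩ else 0)
    refine ⟨fun j => v (S.k + j), ?_⟩
    have hu : (fun i : Fin (S.k + S.l) => v i) = Fin.append x (fun j => v (S.k + j)) := by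
      funext i
      refine Fin.addCases (fun i => ?_) (fun j => ?_) i
      · rw [Fin.append_left, Fin.val_castAdd, hv1 i i.2]
        simp
      · rw [Fin.append_right, Fin.val_natAdd]
    rw [← hu, ← exists_sat_init]
    refine ⟨v, sat_of_iterate K ⟨fun i => rfl, ?_, hv2⟩⟩
    rw [hst]; simp
  · intro h x
    obtain ⟨y, hy⟩ := h (fun i => x i)
    obtain ⟨v, hv⟩ := exists_sat_iterate (inv_init S) K ((exists_sat_init S _).2 hy)
    refine ⟨v, ?_, hv.2.2⟩
    intro j hj
    have := hv.1 (Fin.castAdd S.l ⟨j, hj⟩)
    rw [Fin.append_left] at this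
    simpa using this

end Pool.Agent.helper88.Surj
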