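import Pool.Agent.helper88.SurjDefs

/-!
# The reduction as a stack machine, and its correctness
-/

namespace Pool.Agent.helper88.Surj

/-- polynomials with variables in `ℕ` -/
abbrev RPoly : Type := List (ℤ × List ℕ)

/-- value of a polynomial -/
def pev (v : ℕ → ℝ) (p : RPoly) : ℝ := (p.map fun m => (m.1 : ℝ) * (m.2.map v).prod).sum

@[simp] theorem pev_nil (v : ℕ → ℝ) : pev v [] = 0 := rfl

@[simp] theorem pev_cons (v : ℕ → ℝ) (m : ℤ × List ℕ) (p : RPoly) :
    pev v (m :: p) = (m.1 : ℝ) * (m.2.map v).prod + pev v p := by
  simp [pev]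

/-- the variables of a polynomial -/
def pvars (p : RPoly) : List ℕ := p.flatMap fun m => m.2

theorem pev_congr {v w : ℕ → ℝ} {p : RPoly} (h : ∀ i ∈ pvars p, v i = w i) :
    pev v p = pev w p := by
  induction p with
  | nil => rfl
  | cons m p ih =>
    rw [pev_cons, pev_cons, ih (fun i hi => h i (by
      simp only [pvars, List.flatMap_cons, List.mem_append] at hi ⊢; exact Or.inr hi))]
    have : m.2.map v = m.2.map w := List.map_congr_left (fun i hi => h i (by
      simp only [pvars, List.flatMap_cons, List.mem_append]; exact Or.inl hi))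
    rw [this]

/-- entries of the output: an identity coordinate, or the pair of coordinates of the gadget of an
equation `p = 0`. -/
inductive Entry
  | idn (j : ℕ)
  | gad (s t : ℕ) (p : RPoly)

/-- the coordinates of an entry -/
def Entry.polys : Entry → List RPoly
  | .idn j => [[(1, [j])]]
  | .gad s t p => [(1, [s, t]) :: p,
      (1, [s, s, s, t]) :: (-1, [t]) :: p.map fun m => (m.1, s :: s :: m.2)]

theorem pev_gadB (v : ℕ → ℝ) (s : ℕ) (p : RPoly) :
    pev v (p.map fun m => (m.1, s :: s :: m.2)) = v s ^ 2 * pev v p := by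
  induction p with
  | nil => simp
  | cons m p ih =>
    simp only [List.map_cons, pev_cons, ih, List.prod_cons]
    ring

/-- items on the stack -/
inductive Item (n : ℕ)
  | tm (t : Tm n)
  | fm (φ : Fm n)

open Classical in
/-- the intended value of the variable of an item -/
noncomputable def Item.val {n : ℕ} (u : Fin n → ℝ) : Item n → ℝ
  | .tm t => t.val u
  | .fm φ => if φ.holds u then 1 else 0

/-- states of the machine -/
structure St (n : ℕ) where
  stack : List (ℕ × Item n)
  c : ℕ
  out : List Entry
  kc : ℕ

/-- children of an item -/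
def kids {n : ℕ} (c : ℕ) : Item n → List (ℕ × Item n)
  | .tm (.var _) => []
  | .tm (.const _) => []
  | .tm (.add a b) => [(c, .tm a), (c + 1, .tm b)]
  | .tm (.mul a b) => [(c, .tm a), (c + 1, .tm b)]
  | .fm (.eq a b) => [(c, .tm a), (c + 1, .tm b)]
  | .fm (.lt a b) => [(c, .tm a), (c + 1, .tm b)]
  | .fm (.le a b) => [(c, .tm a), (c + 1, .tm b)]
  | .fm (.and a b) => [(c, .fm a), (c + 1, .fm b)]
  | .fm (.or a b) => [(c, .fm a), (c + 1, .fm b)]
  | .fm (.not a) => [(c, .fm a)]

/-- equations of an item with variable `i`, children `c`, `c + 1` and auxiliary variable `c + 2` -/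
def eqs {n : ℕ} (i c : ℕ) : Item n → List RPoly
  | .tm (.var j) => [[(1, [(j : ℕ)]), (-1, [i])]]
  | .tm (.const z) => [[(z, []), (-1, [i])]]
  | .tm (.add _ _) => [[(1, [c]), (1, [c + 1]), (-1, [i])]]
  | .tm (.mul _ _) => [[(1, [c, c + 1]), (-1, [i])]]
  | .fm (.eq _ _) => [[(1, [i, i]), (-1, [i])], [(1, [i, c]), (-1, [i, c + 1])],
      [(1, [c, c + 2]), (-1, [c + 1, c + 2]), (-1, []), (-1, [i, c, c + 2]),
        (1, [i, c + 1, c + 2]), (1, [i])]]
  | .fm (.lt _ _) => [[(1, [i, i]), (-1, [i])],
      [(1, [i, c + 1, c + 2, c + 2]), (-1, [i, c, c + 2, c + 2]), (-1, [i])],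
      [(1, [c]), (-1, [c + 1]), (-1, [c + 2, c + 2]), (-1, [i, c]), (1, [i, c + 1]),
        (1, [i, c + 2, c + 2])]]
  | .fm (.le _ _) => [[(1, [i, i]), (-1, [i])],
      [(1, [i, c + 1]), (-1, [i, c]), (-1, [i, c + 2, c + 2])],
      [(1, [c, c + 2, c + 2]), (-1, [c + 1, c + 2, c + 2]), (-1, []),
        (-1, [i, c, c + 2, c + 2]), (1, [i, c + 1, c + 2, c + 2]), (1, [i])]]
  | .fm (.and _ _) => [[(1, [c, c + 1]), (-1, [i])]]
  | .fm (.or _ _) => [[(1, [c]), (1, [c + 1]), (-1, [c, c + 1]), (-1, [i])]]
  | .fm (.not _) => [[(1, []), (-1, [c]), (-1, [i])]]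

/-- gadgets of a list of equations -/
def gads (c : ℕ) : List RPoly → List Entry
  | [] => []
  | p :: ps => .gad (c + 3) (c + 4) p :: gads (c + 2) ps

/-- one step of the machine -/
def step {n : ℕ} : St n → St n
  | ⟨[], c, out, 0⟩ => ⟨[], c, out, 0⟩
  | ⟨[], c, out, j + 1⟩ => ⟨[], c, .idn j :: out, j⟩
  | ⟨(i, it) :: st, c, out, kc⟩ => ⟨kids c it ++ st, c + 9, gads c (eqs i c it) ++ out, kc⟩

/-- `v` satisfies the state -/
def Sat {n : ℕ} (u : Fin n → ℝ) (v : ℕ → ℝ) (S : St n) : Prop :=
  (∀ i : Fin n, v i = u i) ∧ (∀ x ∈ S.stack, v x.1 = x.2.val u) ∧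
    ∀ s t p, Entry.gad s t p ∈ S.out → pev v p = 0

theorem mem_gads {c : ℕ} {ps : List RPoly} {p : RPoly} (hp : p ∈ ps) :
    ∃ s t, Entry.gad s t p ∈ gads c ps := by
  induction ps generalizing c with
  | nil => simp at hp
  | cons q ps ih =>
    rcases List.mem_cons.1 hp with rfl | h
    · exact ⟨c + 3, c + 4, by simp [gads]⟩
    · obtain ⟨s, t, h⟩ := ih (c := c + 2) h
      exact ⟨s, t, by simp [gads, h]⟩

theorem of_mem_gads {c : ℕ} {ps : List RPoly} {s t : ℕ} {p : RPoly}
    (h : Entry.gad s t p ∈ gads c ps) : p ∈ ps := by
  induction ps generalizing c with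
  | nil => simp [gads] at h
  | cons q ps ih =>
    rcases List.mem_cons.1 (by simpa [gads] using h :
      Entry.gad s t p ∈ Entry.gad (c + 3) (c + 4) q :: gads (c + 2) ps) with h | h
    · simp only [Entry.gad.injEq] at h
      rw [h.2.2]; simp
    · exact List.mem_cons_of_mem _ (ih h)

/-- the equations of a node force its value -/
theorem node_sound {n : ℕ} {u : Fin n → ℝ} {v : ℕ → ℝ} (hu : ∀ i : Fin n, v i = u i) (i c : ℕ)
    (it : Item n) (hk : ∀ x ∈ kids c it, v x.1 = x.2.val u)
    (he : ∀ p ∈ eqs i c it, pev v p = 0) : v i = it.val u := by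
  rcases it with t | φ
  · rcases t with j | z | ⟨a, b⟩ | ⟨a, b⟩ <;>
      simp only [kids, eqs, List.mem_cons, List.not_mem_nil, or_false, forall_eq_or_imp,
        forall_eq, pev_cons, pev_nil, List.map_cons, List.map_nil, List.prod_cons,
        List.prod_nil, Item.val, Tm.val, Int.cast_one, Int.cast_neg, IsEmpty.forall_iff,
        implies_true, hu] at hk he ⊢
    · linarith
    · linarith
    · rw [hk.1, hk.2] at he; linarith
    · rw [hk.1, hk.2] at he; linarith
  · rcases φ with ⟨a, b⟩ | ⟨a, b⟩ | ⟨a, b⟩ | ⟨a, b⟩ | ⟨a, b⟩ | a <;>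
      simp only [kids, eqs, List.mem_cons, List.not_mem_nil, or_false, forall_eq_or_imp,
        forall_eq, pev_cons, pev_nil, List.map_cons, List.map_nil, List.prod_cons,
        List.prod_nil, Item.val, Fm.holds, Int.cast_one, Int.cast_neg] at hk he ⊢
    · -- eq
      obtain ⟨ha, hb⟩ := hk
      obtain ⟨h1, h2, h3⟩ := he
      have h1' : v i * (v i - 1) = 0 := by linarith
      rcases mul_eq_zero.1 h1' with h | h
      · rw [h] at h3
        have : a.val u ≠ b.val u := by
          intro hab
          rw [ha, hb, hab] at h3
          linarith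
        rw [if_neg this, h]
      · have h : v i = 1 := by linarith
        rw [h, ha, hb] at h2
        rw [if_pos (by linarith), h]
    · -- lt
      obtain ⟨ha, hb⟩ := hk
      obtain ⟨h1, h2, h3⟩ := he
      have h1' : v i * (v i - 1) = 0 := by linarith
      rcases mul_eq_zero.1 h1' with h | h
      · rw [h, ha, hb] at h3
        have : ¬ a.val u < b.val u := by
          have := mul_self_nonneg (v (c + 2))
          linarith
        rw [if_neg this, h]
      · have h : v i = 1 := by linarith
        rw [h, ha, hb] at h2
        have : a.val u < b.val u := by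
          by_contra hab
          have h5 := mul_self_nonneg (v (c + 2))
          nlinarith
        rw [if_pos this, h]
    · -- le
      obtain ⟨ha, hb⟩ := hk
      obtain ⟨h1, h2, h3⟩ := he
      have h1' : v i * (v i - 1) = 0 := by linarith
      rcases mul_eq_zero.1 h1' with h | h
      · rw [h, ha, hb] at h3
        have : ¬ a.val u ≤ b.val u := by
          intro hab
          have h5 := mul_self_nonneg (v (c + 2))
          nlinarith
        rw [if_neg this, h]
      · have h : v i = 1 := by linarith
        rw [h, ha, hb] at h2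
        have : a.val u ≤ b.val u := by
          have h5 := mul_self_nonneg (v (c + 2))
          nlinarith
        rw [if_pos this, h]
    · obtain ⟨ha, hb⟩ := hk
      rw [ha, hb] at he
      by_cases h1 : a.holds u <;> by_cases h2 : b.holds u <;> simp [h1, h2] at he ⊢ <;>
        linarith
    · obtain ⟨ha, hb⟩ := hk
      rw [ha, hb] at he
      by_cases h1 : a.holds u <;> by_cases h2 : b.holds u <;> simp [h1, h2] at he ⊢ <;>
        linarith
    · rw [hk] at he
      by_cases h1 : a.holds u <;> simp [h1] at he ⊢ <;> linarith

theorem sqrt_facts {x : ℝ} (hx : 0 < x) : ∃ w : ℝ, x * (w * w) = 1 := by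
  refine ⟨(Real.sqrt x)⁻¹, ?_⟩
  have h1 : Real.sqrt x ≠ 0 := (Real.sqrt_pos.2 hx).ne'
  have h2 := Real.mul_self_sqrt hx.le
  field_simp
  nlinarith

/-- the equations of a node can be satisfied -/
theorem node_complete {n : ℕ} {u : Fin n → ℝ} {v : ℕ → ℝ} (hu : ∀ i : Fin n, v i = u i)
    (i c : ℕ) (hi : i < c) (it : Item n) (hv : v i = it.val u) :
    ∃ v' : ℕ → ℝ, (∀ j < c, v' j = v j) ∧ (∀ x ∈ kids c it, v' x.1 = x.2.val u) ∧
      ∀ p ∈ eqs i c it, pev v' p = 0 := by
  have key : ∀ A B W : ℝ, ∃ v' : ℕ → ℝ, (∀ j < c, v' j = v j) ∧ v' c = A ∧ v' (c + 1) = B ∧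
      v' (c + 2) = W := by
    intro A B W
    refine ⟨fun j => if j = c then A else if j = c + 1 then B else if j = c + 2 then W else v j,
      ?_, by simp, by simp, by simp⟩
    intro j hj
    simp only
    rw [if_neg (by omega), if_neg (by omega), if_neg (by omega)]
  rcases it with t | φ
  · rcases t with j | z | ⟨a, b⟩ | ⟨a, b⟩
    · refine ⟨v, fun _ _ => rfl, by simp [kids], ?_⟩
      simp only [eqs, List.mem_cons, List.not_mem_nil, or_false, forall_eq, pev_cons, pev_nil,
        List.map_cons, List.map_nil, List.prod_cons, List.prod_nil, hu, hv, Item.val, Tm.val]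
      push_cast
      ring
    · refine ⟨v, fun _ _ => rfl, by simp [kids], ?_⟩
      simp only [eqs, List.mem_cons, List.not_mem_nil, or_false, forall_eq, pev_cons, pev_nil,
        List.map_cons, List.map_nil, List.prod_cons, List.prod_nil, hv, Item.val, Tm.val]
      push_cast
      ring
    · obtain ⟨v', h0, hA, hB, -⟩ := key (a.val u) (b.val u) 0
      have hi' := (h0 i hi).trans hv
      refine ⟨v', h0, ?_, ?_⟩
      · simp [kids, hA, hB, Item.val]
      · simp only [eqs, List.mem_cons, List.not_mem_nil, or_false, forall_eq, pev_cons, pev_nil,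
          List.map_cons, List.map_nil, List.prod_cons, List.prod_nil, hi', hA, hB, Item.val,
          Tm.val]
        push_cast
        ring
    · obtain ⟨v', h0, hA, hB, -⟩ := key (a.val u) (b.val u) 0
      have hi' := (h0 i hi).trans hv
      refine ⟨v', h0, ?_, ?_⟩
      · simp [kids, hA, hB, Item.val]
      · simp only [eqs, List.mem_cons, List.not_mem_nil, or_false, forall_eq, pev_cons, pev_nil,
          List.map_cons, List.map_nil, List.prod_cons, List.prod_nil, hi', hA, hB, Item.val,
          Tm.val]
        push_cast
        ring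
  · rcases φ with ⟨a, b⟩ | ⟨a, b⟩ | ⟨a, b⟩ | ⟨a, b⟩ | ⟨a, b⟩ | a
    · -- eq
      have hw : ∃ w : ℝ, ∀ β, β = (Item.fm (.eq a b)).val u →
          (a.val u * w - b.val u * w - 1) * (1 - β) = 0 ∧ β * a.val u = β * b.val u ∧
            β * β = β := by
        by_cases hab : a.val u = b.val u
        · refine ⟨0, fun β hβ => ?_⟩
          simp only [Item.val, Fm.holds, if_pos hab] at hβ
          subst hβ
          rw [hab]; norm_num
        · refine ⟨(a.val u - b.val u)⁻¹, fun β hβ => ?_⟩
          simp only [Item.val, Fm.holds, if_neg hab] at hβ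
          subst hβ
          have : a.val u - b.val u ≠ 0 := sub_ne_zero.2 hab
          have h3 := mul_inv_cancel₀ this
          refine ⟨by linarith, by norm_num, by norm_num⟩
      obtain ⟨w, hw⟩ := hw
      obtain ⟨v', h0, hA, hB, hW⟩ := key (a.val u) (b.val u) w
      have hi' := (h0 i hi).trans hv
      obtain ⟨h1, h2, h3⟩ := hw _ hi'
      refine ⟨v', h0, ?_, ?_⟩
      · simp [kids, hA, hB, Item.val]
      · simp only [eqs, List.mem_cons, List.not_mem_nil, or_false, forall_eq_or_imp, forall_eq,
          pev_cons, pev_nil, List.map_cons, List.map_nil, List.prod_cons, List.prod_nil, hA, hB,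
          hW]
        push_cast
        refine ⟨by linarith, by linarith, by linarith⟩
    · -- lt
      have hw : ∃ w : ℝ, ∀ β, β = (Item.fm (.lt a b)).val u →
          (a.val u - b.val u - w * w) * (1 - β) = 0 ∧
            β * ((b.val u - a.val u) * (w * w) - 1) = 0 ∧ β * β = β := by
        by_cases hab : a.val u < b.val u
        · obtain ⟨w, hw⟩ := sqrt_facts (sub_pos.2 hab)
          refine ⟨w, fun β hβ => ?_⟩
          simp only [Item.val, Fm.holds, if_pos hab] at hβ
          subst hβ
          rw [hw]; norm_num
        · refine ⟨Real.sqrt (a.val u - b.val u), fun β hβ => ?_⟩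
          simp only [Item.val, Fm.holds, if_neg hab] at hβ
          subst hβ
          have h3 := Real.mul_self_sqrt (sub_nonneg.2 (not_lt.1 hab))
          refine ⟨by linarith, by norm_num, by norm_num⟩
      obtain ⟨w, hw⟩ := hw
      obtain ⟨v', h0, hA, hB, hW⟩ := key (a.val u) (b.val u) w
      have hi' := (h0 i hi).trans hv
      obtain ⟨h1, h2, h3⟩ := hw _ hi'
      refine ⟨v', h0, ?_, ?_⟩
      · simp [kids, hA, hB, Item.val]
      · simp only [eqs, List.mem_cons, List.not_mem_nil, or_false, forall_eq_or_imp, forall_eq,
          pev_cons, pev_nil, List.map_cons, List.map_nil, List.prod_cons, List.prod_nil, hA, hB,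
          hW]
        push_cast
        refine ⟨by linarith, by linarith, by linarith⟩
    · -- le
      have hw : ∃ w : ℝ, ∀ β, β = (Item.fm (.le a b)).val u →
          ((a.val u - b.val u) * (w * w) - 1) * (1 - β) = 0 ∧
            β * (b.val u - a.val u - w * w) = 0 ∧ β * β = β := by
        by_cases hab : a.val u ≤ b.val u
        · refine ⟨Real.sqrt (b.val u - a.val u), fun β hβ => ?_⟩
          simp only [Item.val, Fm.holds, if_pos hab] at hβ
          subst hβ
          have h3 := Real.mul_self_sqrt (sub_nonneg.2 hab)
          refine ⟨by linarith, by linarith, by norm_num⟩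
        · obtain ⟨w, hw⟩ := sqrt_facts (sub_pos.2 (not_le.1 hab))
          refine ⟨w, fun β hβ => ?_⟩
          simp only [Item.val, Fm.holds, if_neg hab] at hβ
          subst hβ
          rw [hw]; norm_num
      obtain ⟨w, hw⟩ := hw
      obtain ⟨v', h0, hA, hB, hW⟩ := key (a.val u) (b.val u) w
      have hi' := (h0 i hi).trans hv
      obtain ⟨h1, h2, h3⟩ := hw _ hi'
      refine ⟨v', h0, ?_, ?_⟩
      · simp [kids, hA, hB, Item.val]
      · simp only [eqs, List.mem_cons, List.not_mem_nil, or_false, forall_eq_or_imp, forall_eq,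
          pev_cons, pev_nil, List.map_cons, List.map_nil, List.prod_cons, List.prod_nil, hA, hB,
          hW]
        push_cast
        refine ⟨by linarith, by linarith, by linarith⟩
    · obtain ⟨v', h0, hA, hB, -⟩ := key ((Item.fm a).val u) ((Item.fm b).val u) 0
      have hi' := (h0 i hi).trans hv
      refine ⟨v', h0, ?_, ?_⟩
      · simp [kids, hA, hB]
      · simp only [eqs, List.mem_cons, List.not_mem_nil, or_false, forall_eq, pev_cons, pev_nil,
          List.map_cons, List.map_nil, List.prod_cons, List.prod_nil, hi', hA, hB, Item.val,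
          Fm.holds]
        by_cases h1 : a.holds u <;> by_cases h2 : b.holds u <;> simp [h1, h2]
    · obtain ⟨v', h0, hA, hB, -⟩ := key ((Item.fm a).val u) ((Item.fm b).val u) 0
      have hi' := (h0 i hi).trans hv
      refine ⟨v', h0, ?_, ?_⟩
      · simp [kids, hA, hB]
      · simp only [eqs, List.mem_cons, List.not_mem_nil, or_false, forall_eq, pev_cons, pev_nil,
          List.map_cons, List.map_nil, List.prod_cons, List.prod_nil, hi', hA, hB, Item.val,
          Fm.holds]
        by_cases h1 : a.holds u <;> by_cases h2 : b.holds u <;> simp [h1, h2]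
    · obtain ⟨v', h0, hA, hB, -⟩ := key ((Item.fm a).val u) 0 0
      have hi' := (h0 i hi).trans hv
      refine ⟨v', h0, ?_, ?_⟩
      · simp [kids, hA]
      · simp only [eqs, List.mem_cons, List.not_mem_nil, or_false, forall_eq, pev_cons, pev_nil,
          List.map_cons, List.map_nil, List.prod_cons, List.prod_nil, hi', hA, Item.val,
          Fm.holds]
        by_cases h1 : a.holds u <;> simp [h1]

/-! ### invariants -/

/-- the indices of value and auxiliary variables -/
def isP (base i : ℕ) : Prop := i < base ∨ (i - base) % 9 < 3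

/-- the variables `s`, `t` of the gadgets -/
def stv : List Entry → List ℕ
  | [] => []
  | .idn _ :: es => stv es
  | .gad s t _ :: es => s :: t :: stv es

/-- the indices of the identity coordinates -/
def idns : List Entry → List ℕ
  | [] => []
  | .idn j :: es => j :: idns es
  | .gad _ _ _ :: es => idns es

theorem stv_append (a b : List Entry) : stv (a ++ b) = stv a ++ stv b := by
  induction a with
  | nil => rfl
  | cons e a ih => cases e <;> simp [stv, ih]

theorem idns_append (a b : List Entry) : idns (a ++ b) = idns a ++ idns b := by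
  induction a with
  | nil => rfl
  | cons e a ih => cases e <;> simp [idns, ih]

theorem idns_gads (c : ℕ) (ps : List RPoly) : idns (gads c ps) = [] := by
  induction ps generalizing c with
  | nil => rfl
  | cons p ps ih => simp [gads, idns, ih]

theorem mem_stv_gads {c : ℕ} {ps : List RPoly} {s : ℕ} (h : s ∈ stv (gads c ps)) :
    c + 3 ≤ s ∧ s < c + 3 + 2 * ps.length := by
  induction ps generalizing c with
  | nil => simp [gads, stv] at h
  | cons p ps ih =>
    simp only [gads, stv, List.mem_cons, List.length_cons] at h ⊢
    rcases h with h | h | h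
    · omega
    · omega
    · have := ih h; omega

theorem nodup_stv_gads (c : ℕ) (ps : List RPoly) : (stv (gads c ps)).Nodup := by
  induction ps generalizing c with
  | nil => simp [gads, stv]
  | cons p ps ih =>
    simp only [gads, stv, List.nodup_cons, List.mem_cons, not_or]
    refine ⟨⟨by omega, fun h => ?_⟩, fun h => ?_, ih _⟩
    · have := mem_stv_gads h; omega
    · have := mem_stv_gads h; omega

theorem eqs_length {n : ℕ} (i c : ℕ) (it : Item n) : (eqs i c it).length ≤ 3 := by
  rcases it with t | φ
  · cases t <;> simp [eqs]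
  · cases φ <;> simp [eqs]

theorem eqs_vars {n : ℕ} (i c : ℕ) (it : Item n) {p : RPoly} (hp : p ∈ eqs i c it) {j : ℕ}
    (hj : j ∈ pvars p) : j < n ∨ j = i ∨ j = c ∨ j = c + 1 ∨ j = c + 2 := by
  rcases it with t | φ
  · rcases t with z | z | ⟨a, b⟩ | ⟨a, b⟩ <;> simp only [eqs, List.mem_cons,
      List.not_mem_nil, or_false] at hp <;> subst hp <;>
      simp only [pvars, List.flatMap_cons, List.flatMap_nil, List.mem_append, List.mem_cons,
        List.not_mem_nil, or_false, false_or] at hj <;> omega
  · rcases φ with ⟨a, b⟩ | ⟨a, b⟩ | ⟨a, b⟩ | ⟨a, b⟩ | ⟨a, b⟩ | a <;> simp only [eqs, List.mem_cons,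
      List.not_mem_nil, or_false] at hp
    · rcases hp with hp | hp | hp <;> subst hp <;>
      simp only [pvars, List.flatMap_cons, List.flatMap_nil, List.mem_append, List.mem_cons,
        List.not_mem_nil, or_false, false_or] at hj <;> omega
    · rcases hp with hp | hp | hp <;> subst hp <;>
      simp only [pvars, List.flatMap_cons, List.flatMap_nil, List.mem_append, List.mem_cons,
        List.not_mem_nil, or_false, false_or] at hj <;> omega
    · rcases hp with hp | hp | hp <;> subst hp <;>
      simp only [pvars, List.flatMap_cons, List.flatMap_nil, List.mem_append, List.mem_cons,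
        List.not_mem_nil, or_false, false_or] at hj <;> omega
    · subst hp
      simp only [pvars, List.flatMap_cons, List.flatMap_nil, List.mem_append, List.mem_cons,
        List.not_mem_nil, or_false, false_or] at hj; omega
    · subst hp
      simp only [pvars, List.flatMap_cons, List.flatMap_nil, List.mem_append, List.mem_cons,
        List.not_mem_nil, or_false, false_or] at hj; omega
    · subst hp
      simp only [pvars, List.flatMap_cons, List.flatMap_nil, List.mem_append, List.mem_cons,
        List.not_mem_nil, or_false, false_or] at hj; omega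

theorem kids_ids {n : ℕ} (c : ℕ) (it : Item n) {x : ℕ × Item n} (hx : x ∈ kids c it) :
    x.1 = c ∨ x.1 = c + 1 := by
  rcases it with t | φ
  · rcases t with z | z | ⟨a, b⟩ | ⟨a, b⟩ <;> simp only [kids, List.mem_cons,
      List.not_mem_nil, or_false] at hx
    · rcases hx with rfl | rfl <;> simp
    · rcases hx with rfl | rfl <;> simp
  · rcases φ with ⟨a, b⟩ | ⟨a, b⟩ | ⟨a, b⟩ | ⟨a, b⟩ | ⟨a, b⟩ | a <;> simp only [kids,
      List.mem_cons, List.not_mem_nil, or_false] at hx
    · rcases hx with rfl | rfl <;> simp
    · rcases hx with rfl | rfl <;> simp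
    · rcases hx with rfl | rfl <;> simp
    · rcases hx with rfl | rfl <;> simp
    · rcases hx with rfl | rfl <;> simp
    · subst hx; simp

/-- the invariants of the machine -/
structure Inv {n : ℕ} (k base : ℕ) (S : St n) : Prop where
  hn : n ≤ base
  hk : S.kc ≤ k
  hkn : k ≤ n
  hb : base ≤ S.c
  hm : (S.c - base) % 9 = 0
  hstack : ∀ x ∈ S.stack, x.1 < S.c ∧ isP base x.1
  hout : ∀ s t p, Entry.gad s t p ∈ S.out → ∀ i ∈ pvars p, i < S.c ∧ isP base i
  hnodup : (stv S.out).Nodup
  hst : ∀ s ∈ stv S.out, s < S.c ∧ ¬ isP base s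
  hidn : idns S.out = List.range' S.kc (k - S.kc)

theorem Inv.step {n k base : ℕ} {S : St n} (h : Inv k base S) : Inv k base (step S) := by
  obtain ⟨stack, c, out, kc⟩ := S
  obtain ⟨hn, hk, hkn, hb, hm, hstack, hout, hnodup, hst, hidn⟩ := h
  rcases stack with _ | ⟨⟨i, it⟩, st⟩
  · rcases kc with _ | j
    · exact ⟨hn, hk, hkn, hb, hm, hstack, hout, hnodup, hst, hidn⟩
    · refine ⟨hn, by simp only at hk; simp only [Surj.step]; omega, hkn, hb, hm, hstack, ?_,
        hnodup, hst, ?_⟩
      · intro s t p hp
        simp only [Surj.step, List.mem_cons, reduceCtorEq, false_or] at hp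
        exact hout s t p hp
      · simp only [Surj.step, idns] at hidn hk ⊢
        rw [hidn]
        have : k - j = (k - (j + 1)) + 1 := by omega
        rw [this, List.range'_succ]
  · simp only at hb hm hout hst hnodup hidn hk
    have hi := hstack (i, it) (by simp)
    simp only [isP] at hi
    refine ⟨hn, hk, hkn, by simp only [Surj.step]; omega, by simp only [Surj.step]; omega,
      ?_, ?_, ?_, ?_, ?_⟩
    · intro x hx
      simp only [Surj.step, List.mem_append, isP] at hx ⊢
      rcases hx with hx | hx
      · have := kids_ids c it hx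
        rcases this with h | h <;> rw [h] <;> omega
      · have := hstack x (by simp [hx])
        simp only [isP] at this
        omega
    · intro s t p hp j hj
      simp only [Surj.step, List.mem_append, isP] at hp ⊢
      rcases hp with hp | hp
      · have := eqs_vars i c it (of_mem_gads hp) hj
        omega
      · have := hout s t p hp j hj
        simp only [isP] at this
        omega
    · simp only [Surj.step, stv_append]
      rw [List.nodup_append]
      refine ⟨nodup_stv_gads _ _, hnodup, ?_⟩
      intro a ha b hb' hab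
      subst hab
      have h1 := mem_stv_gads ha
      have h2 := hst a hb'
      omega
    · intro s hs
      simp only [Surj.step, stv_append, List.mem_append, isP] at hs ⊢
      rcases hs with hs | hs
      · have h1 := mem_stv_gads hs
        have h2 := eqs_length i c it
        omega
      · have := hst s hs
        simp only [isP] at this
        omega
    · simp only [Surj.step, idns_append, idns_gads, List.nil_append]
      exact hidn

theorem Inv.iterate {n k base : ℕ} {S : St n} (h : Inv k base S) (K : ℕ) :
    Inv k base (Surj.step^[K] S) := by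
  induction K with
  | zero => exact h
  | succ K ih => rw [Function.iterate_succ_apply']; exact ih.step

theorem sat_of_step {n : ℕ} {u : Fin n → ℝ} {v : ℕ → ℝ} {S : St n} (h : Sat u v (step S)) :
    Sat u v S := by
  obtain ⟨stack, c, out, kc⟩ := S
  obtain ⟨h1, h2, h3⟩ := h
  rcases stack with _ | ⟨⟨i, it⟩, st⟩
  · rcases kc with _ | j
    · exact ⟨h1, h2, h3⟩
    · refine ⟨h1, by simp, fun s t p hp => h3 s t p ?_⟩
      simp only [step, List.mem_cons, reduceCtorEq, false_or]
      exact hp
  · simp only [step, List.mem_append] at h2 h3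
    refine ⟨h1, ?_, fun s t p hp => h3 s t p (Or.inr hp)⟩
    intro x hx
    rcases List.mem_cons.1 hx with rfl | hx
    · refine node_sound h1 i c it (fun x hx => h2 x (Or.inl hx)) ?_
      intro p hp
      obtain ⟨s, t, hst⟩ := mem_gads (c := c) hp
      exact h3 s t p (Or.inl hst)
    · exact h2 x (Or.inr hx)

theorem sat_step {n k base : ℕ} {u : Fin n → ℝ} {v : ℕ → ℝ} {S : St n} (hI : Inv k base S)
    (h : Sat u v S) : ∃ v', Sat u v' (step S) := by
  obtain ⟨stack, c, out, kc⟩ := S
  obtain ⟨h1, h2, h3⟩ := h
  rcases stack with _ | ⟨⟨i, it⟩, st⟩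
  · rcases kc with _ | j
    · exact ⟨v, h1, h2, h3⟩
    · refine ⟨v, h1, by simp [step], fun s t p hp => h3 s t p ?_⟩
      simpa only [step, List.mem_cons, reduceCtorEq, false_or] using hp
  · obtain ⟨hn, hk, hkn, hb, hm, hstack, hout, hnodup, hst, hidn⟩ := hI
    simp only at hb hout
    obtain ⟨v', g0, g1, g2⟩ := node_complete h1 i c (hstack (i, it) (by simp)).1 it
      (h2 (i, it) (by simp))
    refine ⟨v', ?_, ?_, ?_⟩
    · intro j
      rw [g0 j (by have := j.2; omega), h1]
    · intro x hx
      simp only [step, List.mem_append] at hx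
      rcases hx with hx | hx
      · exact g1 x hx
      · rw [g0 _ (hstack x (by simp [hx])).1]
        exact h2 x (by simp [hx])
    · intro s t p hp
      simp only [step, List.mem_append] at hp
      rcases hp with hp | hp
      · exact g2 p (of_mem_gads hp)
      · rw [pev_congr (w := v) (fun j hj => g0 j (hout s t p hp j hj).1)]
        exact h3 s t p hp

theorem exists_sat_iterate {n k base : ℕ} {u : Fin n → ℝ} {S : St n} (hI : Inv k base S)
    (K : ℕ) (h : ∃ v, Sat u v S) : ∃ v, Sat u v (step^[K] S) := by
  induction K with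
  | zero => exact h
  | succ K ih =>
    rw [Function.iterate_succ_apply']
    obtain ⟨v, hv⟩ := ih
    exact sat_step (hI.iterate K) hv

theorem sat_of_iterate {n : ℕ} {u : Fin n → ℝ} {v : ℕ → ℝ} {S : St n} (K : ℕ)
    (h : Sat u v (step^[K] S)) : Sat u v S := by
  induction K with
  | zero => exact h
  | succ K ih =>
    rw [Function.iterate_succ_apply'] at h
    exact ih (sat_of_step h)

/-! ### termination -/

/-- number of nodes -/
def Tm.sz {n : ℕ} : Tm n → ℕ
  | .var _ => 1
  | .const _ => 1
  | .add a b => a.sz + b.sz + 1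
  | .mul a b => a.sz + b.sz + 1

/-- number of nodes -/
def Fm.sz {n : ℕ} : Fm n → ℕ
  | .eq a b => a.sz + b.sz + 1
  | .lt a b => a.sz + b.sz + 1
  | .le a b => a.sz + b.sz + 1
  | .and a b => a.sz + b.sz + 1
  | .or a b => a.sz + b.sz + 1
  | .not a => a.sz + 1

/-- number of nodes -/
def Item.sz {n : ℕ} : Item n → ℕ
  | .tm t => t.sz
  | .fm φ => φ.sz

theorem Item.sz_pos {n : ℕ} (it : Item n) : 0 < it.sz := by
  rcases it with t | φ
  · cases t <;> simp [Item.sz, Tm.sz]
  · cases φ <;> simp [Item.sz, Fm.sz]

/-- number of remaining steps -/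
def St.mu {n : ℕ} (S : St n) : ℕ := (S.stack.map fun x => x.2.sz).sum + S.kc

theorem kids_sz {n : ℕ} (c : ℕ) (it : Item n) :
    ((kids c it).map fun x => x.2.sz).sum + 1 = it.sz := by
  rcases it with t | φ
  · cases t <;> simp [kids, Item.sz, Tm.sz]
  · cases φ <;> simp [kids, Item.sz, Fm.sz]

theorem mu_step {n : ℕ} (S : St n) : (step S).mu = S.mu - 1 := by
  obtain ⟨stack, c, out, kc⟩ := S
  rcases stack with _ | ⟨⟨i, it⟩, st⟩
  · rcases kc with _ | j <;> simp [step, St.mu]
  · have := kids_sz c it
    simp only [step, St.mu, List.map_append, List.sum_append, List.map_cons, List.sum_cons]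
    omega

theorem mu_iterate {n : ℕ} (S : St n) (K : ℕ) : (step^[K] S).mu = S.mu - K := by
  induction K with
  | zero => rfl
  | succ K ih => rw [Function.iterate_succ_apply', mu_step, ih]; omega

theorem mu_zero {n : ℕ} {S : St n} (h : S.mu = 0) : S.stack = [] ∧ S.kc = 0 := by
  obtain ⟨stack, c, out, kc⟩ := S
  rcases stack with _ | ⟨⟨i, it⟩, st⟩
  · simp [St.mu] at h; exact ⟨rfl, h⟩
  · have := it.sz_pos
    simp only [St.mu, List.map_cons, List.sum_cons] at h
    omega

/-! ### the surjectivity of the final map -/

/-- all coordinates -/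
def polysOf (es : List Entry) : List RPoly := es.flatMap Entry.polys

/-- a target point: `x` on the identity coordinates and `0` on the gadgets -/
def target (x : ℕ → ℝ) : List Entry → List ℝ
  | [] => []
  | .idn j :: es => x j :: target x es
  | .gad _ _ _ :: es => 0 :: 0 :: target x es

theorem length_target (x : ℕ → ℝ) (es : List Entry) :
    (target x es).length = (polysOf es).length := by
  induction es with
  | nil => rfl
  | cons e es ih =>
    cases e <;> simp [target, polysOf, Entry.polys] at ih ⊢ <;> omega

theorem dir1 {x v : ℕ → ℝ} {es : List Entry} (h : (polysOf es).map (pev v) = target x es) :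
    (∀ j ∈ idns es, v j = x j) ∧ ∀ s t p, Entry.gad s t p ∈ es → pev v p = 0 := by
  induction es with
  | nil => simp [idns]
  | cons e es ih =>
    rcases e with j | ⟨s, t, p⟩
    · simp only [polysOf, List.flatMap_cons, Entry.polys, List.cons_append, List.nil_append,
        List.map_cons, target, List.cons.injEq, pev_cons, pev_nil] at h
      obtain ⟨h1, h2⟩ := h
      obtain ⟨h3, h4⟩ := ih h2
      refine ⟨?_, ?_⟩
      · intro i hi
        simp only [idns, List.mem_cons] at hi
        rcases hi with rfl | hi
        · simpa using h1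
        · exact h3 i hi
      · intro s t p hp
        simp only [List.mem_cons, reduceCtorEq, false_or] at hp
        exact h4 s t p hp
    · simp only [polysOf, List.flatMap_cons, Entry.polys, List.cons_append, List.nil_append,
        List.map_cons, target, List.cons.injEq, pev_cons, pev_nil, List.map_nil,
        List.prod_cons, List.prod_nil, pev_gadB] at h
      obtain ⟨h1, h1', h2⟩ := h
      obtain ⟨h3, h4⟩ := ih h2
      push_cast at h1 h1'
      have ht : v t = 0 := by
        have : v s ^ 2 * (v s * v t + pev v p) = 0 := by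
          have : v s * v t + pev v p = 0 := by linarith
          rw [this]; ring
        nlinarith
      have hp0 : pev v p = 0 := by rw [ht] at h1; linarith
      refine ⟨h3, ?_⟩
      intro s' t' p' hp'
      simp only [List.mem_cons, Entry.gad.injEq] at hp'
      rcases hp' with ⟨-, -, rfl⟩ | hp'
      · exact hp0
      · exact h4 s' t' p' hp'

/-- `x` matches the list `ys` on the identity coordinates -/
def Match (x : ℕ → ℝ) : List Entry → List ℝ → Prop
  | [], _ => True
  | .idn j :: es, y :: ys => y = x j ∧ Match x es ys
  | .gad _ _ _ :: es, _ :: _ :: ys => Match x es ys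
  | _, _ => False

theorem match_congr {x x' : ℕ → ℝ} {es : List Entry} (h : ∀ j ∈ idns es, x j = x' j) :
    ∀ {ys : List ℝ}, Match x es ys → Match x' es ys := by
  induction es with
  | nil => intro ys _; cases ys <;> trivial
  | cons e es ih =>
    intro ys hm
    rcases e with j | ⟨s, t, p⟩
    · rcases ys with _ | ⟨y, ys⟩
      · simp [Match] at hm
      · simp only [Match] at hm ⊢
        refine ⟨hm.1.trans (h j (by simp [idns])), ih (fun i hi => h i (by simp [idns, hi]))
          hm.2⟩
    · rcases ys with _ | ⟨y, _ | ⟨z, ys⟩⟩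
      · simp [Match] at hm
      · simp [Match] at hm
      · simp only [Match] at hm ⊢
        exact ih (fun i hi => h i (by simpa [idns] using hi)) hm

theorem exists_match {es : List Entry} (hnd : (idns es).Nodup) :
    ∀ {ys : List ℝ}, ys.length = (polysOf es).length → ∃ x : ℕ → ℝ, Match x es ys := by
  induction es with
  | nil => intro ys _; exact ⟨0, by cases ys <;> trivial⟩
  | cons e es ih =>
    intro ys hl
    rcases e with j | ⟨s, t, p⟩
    · rcases ys with _ | ⟨y, ys⟩
      · simp [polysOf, Entry.polys] at hl
      · simp only [idns, List.nodup_cons] at hnd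
        obtain ⟨x, hx⟩ := ih hnd.2 (ys := ys) (by
          simp [polysOf, Entry.polys] at hl ⊢; omega)
        refine ⟨Function.update x j y, ?_, match_congr (fun i hi => ?_) hx⟩
        · rw [Function.update_self]
        · rw [Function.update_of_ne]
          rintro rfl
          exact hnd.1 hi
    · rcases ys with _ | ⟨y, _ | ⟨z, ys⟩⟩
      · simp [polysOf, Entry.polys] at hl
      · simp [polysOf, Entry.polys] at hl
      · simp only [idns] at hnd
        obtain ⟨x, hx⟩ := ih hnd (ys := ys) (by
          simp [polysOf, Entry.polys] at hl ⊢; omega)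
        exact ⟨x, hx⟩

theorem cubic (b : ℝ) : ∃ s : ℝ, s ^ 3 - b * s - 1 = 0 := by
  have hc : ContinuousOn (fun s : ℝ => s ^ 3 - b * s - 1) (Set.Icc 0 (|b| + 2)) := by
    fun_prop
  have h0 : (0 : ℝ) ≤ |b| + 2 := by positivity
  have h := intermediate_value_Icc h0 hc
  have hmem : (0 : ℝ) ∈ Set.Icc ((0 : ℝ) ^ 3 - b * 0 - 1)
      ((|b| + 2) ^ 3 - b * (|b| + 2) - 1) := by
    refine ⟨by norm_num, ?_⟩
    have h1 : b ≤ |b| := le_abs_self b
    have h2 := abs_nonneg b
    nlinarith [mul_nonneg h2 h2, mul_nonneg (mul_nonneg h2 h2) h2,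
      mul_le_mul_of_nonneg_right h1 h0]
  obtain ⟨s, _, hs⟩ := h hmem
  exact ⟨s, hs⟩

theorem gadget_onto (α β : ℝ) : ∃ s t : ℝ, s * t = α ∧ s * (s * (s * t)) - t = β := by
  by_cases hα : α = 0
  · refine ⟨0, -β, by rw [hα]; ring, by ring⟩
  · obtain ⟨s, hs⟩ := cubic (β / α)
    have h1 : s * (α * s ^ 2 - β) = α := by
      have h2 : α * (s ^ 3 - β / α * s - 1) = 0 := by rw [hs, mul_zero]
      have h3 : α * (s ^ 3 - β / α * s - 1) = α * s ^ 3 - β * s - α := by
        field_simp
      rw [h3] at h2
      nlinarith
    refine ⟨s, α * s ^ 2 - β, h1, ?_⟩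
    rw [h1]
    ring

theorem mem_polysOf_cons {e : Entry} {es : List Entry} {p : RPoly} :
    p ∈ polysOf (e :: es) ↔ p ∈ e.polys ∨ p ∈ polysOf es := by
  simp [polysOf]

/-- variables of the coordinates -/
theorem polysOf_vars {es : List Entry} {q : RPoly} (hq : q ∈ polysOf es) {i : ℕ}
    (hi : i ∈ pvars q) : i ∈ idns es ∨ i ∈ stv es ∨ ∃ s t p, Entry.gad s t p ∈ es ∧
      i ∈ pvars p := by
  induction es with
  | nil => simp [polysOf] at hq
  | cons e es ih =>
    rw [mem_polysOf_cons] at hq
    rcases hq with hq | hq
    · rcases e with j | ⟨s, t, p⟩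
      · simp only [Entry.polys, List.mem_cons, List.not_mem_nil, or_false] at hq
        subst hq
        simp only [pvars, List.flatMap_cons, List.flatMap_nil, List.append_nil,
          List.mem_cons, List.not_mem_nil, or_false] at hi
        subst hi
        left; simp [idns]
      · simp only [Entry.polys, List.mem_cons, List.not_mem_nil, or_false] at hq
        rcases hq with hq | hq
        · subst hq
          simp only [pvars, List.flatMap_cons, List.mem_append, List.mem_cons,
            List.not_mem_nil, or_false] at hi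
          rcases hi with (hi | hi) | hi
          · right; left; simp [stv, hi]
          · right; left; simp [stv, hi]
          · right; right; exact ⟨s, t, p, by simp, by simpa [pvars] using hi⟩
        · subst hq
          simp only [pvars, List.flatMap_cons, List.mem_append, List.mem_cons,
            List.not_mem_nil, or_false, List.mem_flatMap, List.mem_map] at hi
          rcases hi with (hi | hi | hi | hi) | hi | hi
          · right; left; simp [stv, hi]
          · right; left; simp [stv, hi]
          · right; left; simp [stv, hi]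
          · right; left; simp [stv, hi]
          · right; left; simp [stv, hi]
          · obtain ⟨m', ⟨m, hm, rfl⟩, hi⟩ := hi
            simp only [List.mem_cons] at hi
            rcases hi with hi | hi | hi
            · right; left; simp [stv, hi]
            · right; left; simp [stv, hi]
            · right; right
              exact ⟨s, t, p, by simp, by simp only [pvars, List.mem_flatMap]; exact ⟨m, hm, hi⟩⟩
    · rcases ih hq with h | h | ⟨s, t, p, h, h'⟩
      · left; cases e <;> simp [idns, h]
      · right; left; cases e <;> simp [stv, h]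
      · right; right; exact ⟨s, t, p, by simp [h], h'⟩

theorem dir2 {x v : ℕ → ℝ} {es : List Entry} (hnd : (stv es).Nodup)
    (h1 : ∀ j ∈ idns es, v j = x j) (h2 : ∀ s t p, Entry.gad s t p ∈ es → pev v p = 0)
    (h3 : ∀ j ∈ idns es, j ∉ stv es)
    (h4 : ∀ s t p, Entry.gad s t p ∈ es → ∀ i ∈ pvars p, i ∉ stv es) :
    ∀ {ys : List ℝ}, ys.length = (polysOf es).length → Match x es ys →
      ∃ w : ℕ → ℝ, (∀ i ∉ stv es, w i = v i) ∧ (polysOf es).map (pev w) = ys := by
  induction es with
  | nil =>
    intro ys hl _
    refine ⟨v, fun _ _ => rfl, ?_⟩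
    simp only [polysOf, List.flatMap_nil, List.length_nil, List.length_eq_zero_iff] at hl
    subst hl; rfl
  | cons e es ih =>
    intro ys hl hm
    rcases e with j | ⟨s, t, p⟩
    · rcases ys with _ | ⟨y, ys⟩
      · simp [polysOf, Entry.polys] at hl
      · simp only [Match] at hm
        obtain ⟨w, hw1, hw2⟩ := ih hnd (fun i hi => h1 i (by simp [idns, hi]))
          (fun s t p hp => h2 s t p (by simp [hp]))
          (fun i hi => h3 i (by simp [idns, hi]))
          (fun s t p hp => h4 s t p (by simp [hp])) (ys := ys) (by
          simp [polysOf, Entry.polys] at hl ⊢; omega) hm.2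
        refine ⟨w, hw1, ?_⟩
        have hj : w j = v j := hw1 j (h3 j (by simp [idns]))
        simp only [polysOf, List.flatMap_cons, Entry.polys, List.cons_append, List.nil_append,
          List.map_cons, pev_cons, pev_nil, List.map_nil, List.prod_cons, List.prod_nil]
        rw [hj, h1 j (by simp [idns]), hm.1]
        have : (polysOf es).map (pev w) = ys := hw2
        simp only [polysOf] at this
        rw [this]
        simp
    · rcases ys with _ | ⟨y, _ | ⟨z, ys⟩⟩
      · simp [polysOf, Entry.polys] at hl
      · simp [polysOf, Entry.polys] at hl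
      · simp only [Match] at hm
        simp only [stv, List.nodup_cons, List.mem_cons, not_or] at hnd
        obtain ⟨⟨hst, hs⟩, ht, hnd'⟩ := hnd
        obtain ⟨w, hw1, hw2⟩ := ih hnd' (fun i hi => h1 i (by simpa [idns] using hi))
          (fun s t p hp => h2 s t p (by simp [hp]))
          (fun i hi h => h3 i (by simpa [idns] using hi) (by simp [stv, h]))
          (fun s t p hp i hi h => h4 s t p (by simp [hp]) i hi (by simp [stv, h])) (ys := ys) (by
          simp [polysOf, Entry.polys] at hl ⊢; omega) hm
        obtain ⟨a, b, hab1, hab2⟩ := gadget_onto y z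
        obtain ⟨w', hw'⟩ : ∃ w' : ℕ → ℝ, w' = Function.update (Function.update w s a) t b :=
          ⟨_, rfl⟩
        have e1 : w' s = a := by
          rw [hw', Function.update_of_ne hst, Function.update_self]
        have e2 : w' t = b := by rw [hw', Function.update_self]
        have e3 : ∀ i, i ≠ s → i ≠ t → w' i = w i := by
          intro i h h'
          rw [hw', Function.update_of_ne h', Function.update_of_ne h]
        refine ⟨w', ?_, ?_⟩
        · intro i hi
          simp only [stv, List.mem_cons, not_or] at hi
          rw [e3 i hi.1 hi.2.1, hw1 i hi.2.2]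
        · have hp : pev w' p = 0 := by
            rw [← h2 s t p (by simp)]
            apply pev_congr
            intro i hi
            have := h4 s t p (by simp) i hi
            simp only [stv, List.mem_cons, not_or] at this
            rw [e3 i this.1 this.2.1, hw1 i this.2.2]
          have hrest : (polysOf es).map (pev w') = ys := by
            rw [← hw2]
            apply List.map_congr_left
            intro q hq
            apply pev_congr
            intro i hi
            apply e3
            · rintro rfl
              rcases polysOf_vars hq hi with h | h | ⟨s', t', p', h, h'⟩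
              · exact h3 i (by simpa [idns] using h) (by simp [stv])
              · exact hs h
              · exact h4 s' t' p' (by simp [h]) i h' (by simp [stv])
            · rintro rfl
              rcases polysOf_vars hq hi with h | h | ⟨s', t', p', h, h'⟩
              · exact h3 i (by simpa [idns] using h) (by simp [stv])
              · exact ht h
              · exact h4 s' t' p' (by simp [h]) i h' (by simp [stv])
          simp only [polysOf] at hrest
          simp only [polysOf, List.flatMap_cons, Entry.polys, List.cons_append,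
            List.nil_append, List.map_cons, pev_cons, pev_nil, List.map_nil, List.prod_cons,
            List.prod_nil, pev_gadB, hp, e1, e2, hrest, List.cons.injEq, and_true]
          push_cast
          refine ⟨by linarith, by linarith⟩

/-- surjectivity in terms of the equations -/
theorem onto_iff {es : List Entry} (hid : (idns es).Nodup) (hnd : (stv es).Nodup)
    (h3 : ∀ j ∈ idns es, j ∉ stv es)
    (h4 : ∀ s t p, Entry.gad s t p ∈ es → ∀ i ∈ pvars p, i ∉ stv es) :
    (∀ ys : List ℝ, ys.length = (polysOf es).length → ∃ v : ℕ → ℝ,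
      (polysOf es).map (pev v) = ys) ↔
    ∀ x : ℕ → ℝ, ∃ v : ℕ → ℝ, (∀ j ∈ idns es, v j = x j) ∧
      ∀ s t p, Entry.gad s t p ∈ es → pev v p = 0 := by
  constructor
  · intro h x
    obtain ⟨v, hv⟩ := h (target x es) (length_target x es)
    exact ⟨v, dir1 hv⟩
  · intro h ys hys
    obtain ⟨x, hx⟩ := exists_match hid hys
    obtain ⟨v, hv1, hv2⟩ := h x
    obtain ⟨w, _, hw⟩ := dir2 hnd hv1 hv2 h3 h4 hys hx
    exact ⟨w, hw⟩

end Pool.Agent.helper88.Surj
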