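import Pool.Agent.helper88.SurjHard

/-!
# The surjectivity problem is in `∀∃ℝ`
-/

namespace Pool.Agent.helper88.Surj

open Pool.Agent.TM2Lib Pool.Agent.TM2Lib.D Pool.Agent.helper88

/-! ### addition of unary numbers -/

/-- the sum of the unary numbers in a pair -/
def addD (d : D) : D := (D.cons .nil)^[d.hd.len] d.tl

theorem addD_un (k l : ℕ) : addD (.cons (un k) (un l)) = un (k + l) := by
  simp only [addD, D.hd, D.tl, len_un, iterate_succ_un]

theorem size_iterate_cons (k : ℕ) (d : D) : ((D.cons D.nil)^[k] d).size = 2 * k + d.size := by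
  induction k with
  | zero => simp
  | succ k ih => rw [Function.iterate_succ_apply', size_cons, ih, size_nil]; omega

theorem pd_addD : PD addD := by
  have hs : PD (fun d => D.cons D.nil d) := PD.cons (PD.const _) PD.id
  have h := Comp.iter (α := D) (σ := D) (encσ := fun d => d)
    (step := fun d => D.cons D.nil d) hs (fun d => d.hd) (fun d => d.tl)
    (4 * Polynomial.X) (by
      intro d j hj
      have e : ((fun d => D.cons D.nil d)^[j] d.tl).size = 2 * j + d.tl.size :=
        size_iterate_cons j d.tl
      rw [e]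
      have h1 : (encD (D.cons d.hd d.tl)).length = d.hd.size + d.tl.size + 1 :=
        size_cons _ _
      have h2 := len_lt_size d.hd
      simp only [Polynomial.eval_mul, Polynomial.eval_ofNat, Polynomial.eval_X, h1]
      omega)
  have h0 : PD (fun d => D.cons d.hd d.tl) := PD.cons PD.hd0 PD.tl0
  exact Comp.trans h0 h

/-! ### the machine -/

/-- states -/
structure MS (m n : ℕ) where
  fs : List (Poly n)
  p : Poly n
  vs : List (Fin n)
  tM : Tm (m + (n + 1))
  tP : Tm (m + (n + 1))
  φ : Fm (m + (n + 1))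
  i : ℕ

/-- the variable of index `i` -/
def va (m n i : ℕ) : Tm (m + (n + 1)) := .var (Fin.ofNat (m + n + 1) i)

/-- one step -/
def mstep {m n : ℕ} : MS m n → MS m n
  | ⟨fs, p, v :: vs, tM, tP, φ, i⟩ => ⟨fs, p, vs, .mul (va m n (m + v)) tM, tP, φ, i⟩
  | ⟨fs, (c, vs) :: p, [], tM, tP, φ, i⟩ => ⟨fs, p, vs, .const c, .add tM tP, φ, i⟩
  | ⟨q :: fs, [], [], tM, tP, φ, i⟩ => ⟨fs, q, [], .const 0, .mul (.const (-1)) (va m n i),
      .and (.eq (.add tM tP) (.const 0)) φ, i + 1⟩
  | ⟨[], [], [], tM, tP, φ, i⟩ => ⟨[], [], [], tM, tP, φ, i⟩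

/-- the formula of a final state -/
def MS.fin {m n : ℕ} (S : MS m n) : Fm (m + (n + 1)) :=
  .and (.eq (.add S.tM S.tP) (.const 0)) S.φ

/-- initial state -/
def minit (F : PolyMap) : MS F.fs.length F.n :=
  ⟨F.fs, [], [], .const 0, .const 0, .eq (.const 0) (.const 0), 0⟩

/-- value of a monomial at the real point `w` -/
def mev {n : ℕ} (w : Fin n → ℝ) (m : ℤ × List (Fin n)) : ℝ := (m.1 : ℝ) * (m.2.map w).prod

/-- value of a polynomial at the real point `w` -/
def qev {n : ℕ} (w : Fin n → ℝ) (p : Poly n) : ℝ := (p.map (mev w)).sum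

theorem qev_eq {n : ℕ} (w : Fin n → ℝ) (p : Poly n) : MvPolynomial.aeval w p.toMv = qev w p := by
  induction p with
  | nil => simp [qev, Poly.toMv]
  | cons m p ih =>
    simp only [qev, mev, Poly.toMv, List.map_cons, List.sum_cons, map_add, map_mul] at ih ⊢
    rw [ih]
    congr 1
    congr 1
    · simp
    · rw [map_list_prod, List.map_map]
      congr 1
      apply List.map_congr_left
      intro i _
      simp

/-- the remaining equations -/
def restM {n : ℕ} (x : ℕ → ℝ) (w : Fin n → ℝ) : List (Poly n) → ℕ → Prop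
  | [], _ => True
  | q :: fs, i => qev w q = x i ∧ restM x w fs (i + 1)

/-- the meaning of a state -/
def meaning {m n : ℕ} (x : ℕ → ℝ) (w : Fin n → ℝ) (u : Fin (m + (n + 1)) → ℝ) (S : MS m n) :
    Prop :=
  S.φ.holds u ∧ S.tM.val u * (S.vs.map w).prod + S.tP.val u + qev w S.p = 0 ∧
    restM x w S.fs S.i

theorem meaning_step {m n : ℕ} {x : ℕ → ℝ} {w : Fin n → ℝ} {u : Fin (m + (n + 1)) → ℝ}
    (hx : ∀ i < m, (va m n i).val u = x i) (hw : ∀ v : Fin n, (va m n (m + v)).val u = w v)
    (S : MS m n) (hS : S.i + S.fs.length = m) :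
    meaning x w u (mstep S) ↔ meaning x w u S := by
  obtain ⟨fs, p, vs, tM, tP, φ, i⟩ := S
  rcases vs with _ | ⟨v, vs⟩
  · rcases p with _ | ⟨⟨c, vs⟩, p⟩
    · rcases fs with _ | ⟨q, fs⟩
      · rfl
      · simp only [List.length_cons] at hS
        simp only [mstep, meaning, restM, Fm.holds, Tm.val, hx i (by omega), qev,
          List.map_nil, List.prod_nil, List.sum_nil]
        push_cast
        constructor
        · rintro ⟨⟨h1, h2⟩, h3, h4⟩
          exact ⟨h2, by linarith, by linarith, h4⟩
        · rintro ⟨h1, h2, h3, h4⟩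
          exact ⟨⟨by linarith, h1⟩, by linarith, h4⟩
    · simp only [mstep, meaning, Tm.val, qev, mev, List.map_cons, List.sum_cons, List.map_nil,
        List.prod_nil]
      constructor
      · rintro ⟨h1, h2, h3⟩
        exact ⟨h1, by linarith, h3⟩
      · rintro ⟨h1, h2, h3⟩
        exact ⟨h1, by linarith, h3⟩
  · simp only [mstep, meaning, Tm.val, List.map_cons, List.prod_cons, hw v]
    constructor
    · rintro ⟨h1, h2, h3⟩
      exact ⟨h1, by linarith, h3⟩
    · rintro ⟨h1, h2, h3⟩
      exact ⟨h1, by linarith, h3⟩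

theorem mstep_len {m n : ℕ} (S : MS m n) (hS : S.i + S.fs.length = m) :
    (mstep S).i + (mstep S).fs.length = m := by
  obtain ⟨fs, p, vs, tM, tP, φ, i⟩ := S
  rcases vs with _ | ⟨v, vs⟩
  · rcases p with _ | ⟨⟨c, vs⟩, p⟩
    · rcases fs with _ | ⟨q, fs⟩
      · exact hS
      · simp only [mstep, List.length_cons] at hS ⊢; omega
    · exact hS
  · exact hS

theorem iterate_len {m n : ℕ} {S : MS m n} (hS : S.i + S.fs.length = m) (K : ℕ) :
    (mstep^[K] S).i + (mstep^[K] S).fs.length = m := by
  induction K with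
  | zero => exact hS
  | succ K ih => rw [Function.iterate_succ_apply']; exact mstep_len _ ih

theorem meaning_iterate {m n : ℕ} {x : ℕ → ℝ} {w : Fin n → ℝ} {u : Fin (m + (n + 1)) → ℝ}
    (hx : ∀ i < m, (va m n i).val u = x i) (hw : ∀ v : Fin n, (va m n (m + v)).val u = w v)
    {S : MS m n} (hS : S.i + S.fs.length = m) (K : ℕ) :
    meaning x w u (mstep^[K] S) ↔ meaning x w u S := by
  induction K with
  | zero => rfl
  | succ K ih =>
    rw [Function.iterate_succ_apply', meaning_step hx hw _ (iterate_len hS K)]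
    exact ih

/-- number of remaining steps for a polynomial -/
def pmu {n : ℕ} (p : Poly n) : ℕ := (p.map fun m => m.2.length + 1).sum

/-- number of remaining steps -/
def MS.mu {m n : ℕ} (S : MS m n) : ℕ :=
  S.vs.length + pmu S.p + (S.fs.map fun q => pmu q + 1).sum

theorem mmu_step {m n : ℕ} (S : MS m n) : (mstep S).mu = S.mu - 1 := by
  obtain ⟨fs, p, vs, tM, tP, φ, i⟩ := S
  rcases vs with _ | ⟨v, vs⟩
  · rcases p with _ | ⟨⟨c, vs⟩, p⟩
    · rcases fs with _ | ⟨q, fs⟩
      · rfl
      · simp only [mstep, MS.mu, pmu, List.length_nil, List.map_cons, List.sum_cons,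
          List.map_nil, List.sum_nil]; omega
    · simp only [mstep, MS.mu, pmu, List.length_nil, List.map_cons, List.sum_cons]; omega
  · simp only [mstep, MS.mu, List.length_cons]; omega

theorem mmu_iterate {m n : ℕ} (S : MS m n) (K : ℕ) : (mstep^[K] S).mu = S.mu - K := by
  induction K with
  | zero => rfl
  | succ K ih => rw [Function.iterate_succ_apply', mmu_step, ih]; omega

theorem mmu_zero {m n : ℕ} {S : MS m n} (h : S.mu = 0) : S.vs = [] ∧ S.p = [] ∧ S.fs = [] := by
  obtain ⟨fs, p, vs, tM, tP, φ, i⟩ := S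
  rcases vs with _ | ⟨v, vs⟩
  · rcases p with _ | ⟨⟨c, vs⟩, p⟩
    · rcases fs with _ | ⟨q, fs⟩
      · exact ⟨rfl, rfl, rfl⟩
      · simp [MS.mu, pmu] at h
    · simp [MS.mu, pmu] at h
  · simp [MS.mu] at h

/-- the sentence -/
def msent (F : PolyMap) (K : ℕ) : Sentence :=
  ⟨F.fs.length, F.n + 1, (mstep^[K] (minit F)).fin⟩

theorem restM_iff {n : ℕ} (x : ℕ → ℝ) (w : Fin n → ℝ) (fs : List (Poly n)) : ∀ i : ℕ,
    restM x w fs i ↔ fs.map (fun p => MvPolynomial.aeval w p.toMv) =
      (List.range fs.length).map (fun j => x (i + j)) := by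
  induction fs with
  | nil => intro i; simp [restM]
  | cons q fs ih =>
    intro i
    simp only [restM, ih, List.map_cons, List.length_cons, List.range_succ_eq_map,
      List.map_map, List.cons.injEq, qev_eq, Nat.add_zero]
    have : (fun j => x (i + 1 + j)) = ((fun j => x (i + j)) ∘ Nat.succ) := by
      funext j; simp only [Function.comp]; congr 1; omega
    rw [this]

theorem msent_correct (F : PolyMap) (K : ℕ) (hK : (minit F).mu ≤ K) :
    (msent F K).IsTrue ↔ F.IsSurj := by
  obtain ⟨n, fs⟩ := F
  have hmu : (mstep^[K] (minit ⟨n, fs⟩)).mu = 0 := by rw [mmu_iterate]; omega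
  obtain ⟨h1, h2, h3⟩ := mmu_zero hmu
  have hS : (minit ⟨n, fs⟩).i + (minit ⟨n, fs⟩).fs.length = fs.length := by simp [minit]
  have key : ∀ (u : Fin (fs.length + (n + 1)) → ℝ) (x : ℕ → ℝ) (w : Fin n → ℝ),
      (∀ i < fs.length, (va fs.length n i).val u = x i) →
      (∀ v : Fin n, (va fs.length n (fs.length + v)).val u = w v) →
      ((mstep^[K] (minit ⟨n, fs⟩)).fin.holds u ↔
        fs.map (fun p => MvPolynomial.aeval w p.toMv) = (List.range fs.length).map x) := by
    intro u x w hx hw
    have h4 := meaning_iterate hx hw hS K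
    have h5 : meaning x w u (minit ⟨n, fs⟩) ↔
        fs.map (fun p => MvPolynomial.aeval w p.toMv) = (List.range fs.length).map x := by
      simp [meaning, minit, Fm.holds, Tm.val, qev, restM_iff]
    rw [← h5, ← h4]
    simp only [meaning, h1, h2, h3, MS.fin, Fm.holds, Tm.val, List.map_nil, List.prod_nil,
      qev, List.sum_nil, restM]
    push_cast
    constructor
    · rintro ⟨h6, h7⟩
      exact ⟨h7, by linarith, trivial⟩
    · rintro ⟨h6, h7, _⟩
      exact ⟨by linarith, h6⟩
  have hva : ∀ (x : Fin fs.length → ℝ) (y : Fin (n + 1) → ℝ) (i : ℕ) (hi : i < fs.length),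
      (va fs.length n i).val (Fin.append x y) = x ⟨i, hi⟩ := by
    intro x y i hi
    have : Fin.ofNat (fs.length + n + 1) i = Fin.castAdd (n + 1) ⟨i, hi⟩ := by
      apply Fin.ext
      simp only [Fin.ofNat, Fin.val_castAdd]
      exact Nat.mod_eq_of_lt (by omega)
    simp only [va, Tm.val, this]
    exact Fin.append_left x y ⟨i, hi⟩
  have hva' : ∀ (x : Fin fs.length → ℝ) (y : Fin (n + 1) → ℝ) (v : Fin n),
      (va fs.length n (fs.length + v)).val (Fin.append x y) = y (Fin.castSucc v) := by
    intro x y v
    have : Fin.ofNat (fs.length + n + 1) (fs.length + v) = Fin.natAdd fs.length v.castSucc := by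
      apply Fin.ext
      simp only [Fin.ofNat, Fin.val_natAdd, Fin.val_castSucc]
      exact Nat.mod_eq_of_lt (by omega)
    simp only [va, Tm.val, this]
    exact Fin.append_right x y v.castSucc
  have hT : (msent ⟨n, fs⟩ K).IsTrue ↔ ∀ x : Fin fs.length → ℝ, ∃ y : Fin (n + 1) → ℝ,
      (mstep^[K] (minit ⟨n, fs⟩)).fin.holds (Fin.append x y) := Iff.rfl
  have hQ : (PolyMap.mk n fs).IsSurj ↔ ∀ ys : List ℝ, ys.length = fs.length →
      ∃ x : Fin n → ℝ, fs.map (fun p => MvPolynomial.aeval x p.toMv) = ys := isSurj_iff _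
  rw [hT, hQ]
  constructor
  · intro h ys hys
    obtain ⟨y, hy⟩ := h (fun i => ys.get (i.cast hys.symm))
    obtain ⟨x, hx⟩ : ∃ x : ℕ → ℝ, ∀ i (hi : i < fs.length), x i = ys.get ⟨i, by omega⟩ :=
      ⟨fun i => if hi : i < fs.length then ys.get ⟨i, by omega⟩ else 0, fun i hi =>
        dif_pos hi⟩
    have h6 := (key (Fin.append (fun i => ys.get (i.cast hys.symm)) y) x
      (fun v => y (Fin.castSucc v)) (fun i hi => by rw [hva _ _ i hi, hx i hi]; rfl)
      (fun v => hva' _ _ v)).1 hy
    refine ⟨_, h6.trans ?_⟩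
    apply List.ext_get
    · simpa using hys.symm
    · intro i h1 h2
      simp only [List.get_eq_getElem, List.getElem_map, List.getElem_range]
      rw [hx i (by simpa using h1)]
      rfl
  · intro h x
    obtain ⟨w, hw⟩ := h (List.ofFn x) (by simp)
    refine ⟨fun i => if hi : i.1 < n then w ⟨i.1, hi⟩ else 0, ?_⟩
    refine (key _ (fun i => if hi : i < fs.length then x ⟨i, hi⟩ else 0) w
      (fun i hi => by rw [hva _ _ i hi, dif_pos hi]) (fun v => by
        rw [hva']; simp)).2 ?_
    refine hw.trans ?_
    apply List.ext_get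
    · simp
    · intro i h1 h2
      simp only [List.get_eq_getElem, List.getElem_map, List.getElem_range,
        List.getElem_ofFn]
      rw [dif_pos (by simpa using h1)]

/-! ### the program -/

/-- codes of states -/
def encMS {m n : ℕ} (S : MS m n) : D :=
  .cons (encList encPoly S.fs) (.cons (encPoly S.p) (.cons (encList (fun i : Fin n => un i) S.vs)
    (.cons (encTm S.tM) (.cons (encTm S.tP) (.cons (encFm S.φ) (.cons (un S.i) (un m)))))))

namespace Q

/-- field `fs` -/
def fs : Ex := .hd .inp
/-- field `p` -/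
def p : Ex := .hd (.tl .inp)
/-- field `vs` -/
def vs : Ex := .hd (.tl (.tl .inp))
/-- field `tM` -/
def tM : Ex := .hd (.tl (.tl (.tl .inp)))
/-- field `tP` -/
def tP : Ex := .hd (.tl (.tl (.tl (.tl .inp))))
/-- field `φ` -/
def φ : Ex := .hd (.tl (.tl (.tl (.tl (.tl .inp)))))
/-- field `i` -/
def i : Ex := .hd (.tl (.tl (.tl (.tl (.tl (.tl .inp))))))
/-- the number `m` -/
def m : Ex := .tl (.tl (.tl (.tl (.tl (.tl (.tl .inp))))))
/-- assemble a state -/
def mk (a b c d e f g h : Ex) : Ex :=
  .cons a (.cons b (.cons c (.cons d (.cons e (.cons f (.cons g h))))))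
/-- tagged pair -/
def t2 (k : ℕ) (a b : Ex) : Ex := .cons (.lit (un k)) (.cons a b)
/-- tagged -/
def t1 (k : ℕ) (a : Ex) : Ex := .cons (.lit (un k)) a
/-- the constant zero -/
def zero : Ex := t1 1 (.lit (encInt 0))

/-- the step -/
def stepEx : Ex :=
  .ite vs (mk fs p (.tl vs) (t2 3 (t1 0 (.app addD pd_addD (.cons m (.hd vs)))) tM) tP φ i m)
    (.ite p (mk fs (.tl p) (.tl (.hd p)) (t1 1 (.hd (.hd p))) (t2 2 tM tP) φ i m)
      (.ite fs (mk (.tl fs) (.hd fs) (.lit .nil) zero
        (t2 3 (t1 1 (.lit (encInt (-1)))) (t1 0 i)) (t2 7 (t2 4 (t2 2 tM tP) zero) φ)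
        (.cons (.lit .nil) i) m) .inp))

/-- the initial state -/
def initEx : Ex :=
  mk (.tl .inp) (.lit .nil) (.lit .nil) zero zero (t2 4 zero zero) (.lit .nil)
    (.app addD pd_addD (.cons (.tl .inp) (.lit .nil)))

/-- the final sentence, from the instance and the final state -/
def finEx : Ex :=
  .cons (.tl (.tl (.tl (.tl (.tl (.tl (.tl (.tl .inp))))))))
    (.cons (.cons (.lit .nil) (.hd (.hd .inp)))
      (t2 7 (t2 4 (t2 2 (.hd (.tl (.tl (.tl (.tl .inp))))) (.hd (.tl (.tl (.tl (.tl (.tl .inp)))))))
        zero) (.hd (.tl (.tl (.tl (.tl (.tl (.tl .inp)))))))))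

end Q

theorem encTm_va {m n i : ℕ} (h : i ≤ m + n) : encTm (va m n i) = .cons (un 0) (un i) := by
  simp only [va, encTm, Fin.ofNat]
  rw [Nat.mod_eq_of_lt (by omega)]

theorem mstepEx_eval {m n : ℕ} (S : MS m n) (h : S.i + S.fs.length = m) :
    Q.stepEx.eval (encMS S) = encMS (mstep S) := by
  obtain ⟨fs, p, vs, tM, tP, φ, i⟩ := S
  rcases vs with _ | ⟨v, vs⟩
  · rcases p with _ | ⟨⟨c, vs⟩, p⟩
    · rcases fs with _ | ⟨q, fs⟩
      · rfl
      · simp only at h
        have e : encTm (va m n i) = .cons (un 0) (un i) := encTm_va (by omega)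
        have e1 : encMS (mstep ⟨q :: fs, [], [], tM, tP, φ, i⟩ : MS m n) =
          .cons (encList encPoly fs) (.cons (encPoly q) (.cons .nil
            (.cons (encTm (.const 0 : Tm (m + (n + 1)))) (.cons (.cons (un 3) (.cons
              (encTm (.const (-1) : Tm (m + (n + 1)))) (encTm (va m n i))))
              (.cons (encFm (.and (.eq (.add tM tP) (.const 0)) φ)) (.cons (un (i + 1))
                (un m))))))) := rfl
        rw [e1, e]
        rfl
    · rfl
  · have e : encTm (va m n (m + v)) = .cons (un 0) (un (m + v)) :=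
      encTm_va (by have := v.2; omega)
    have e1 : encMS (mstep ⟨fs, p, v :: vs, tM, tP, φ, i⟩ : MS m n) =
      .cons (encList encPoly fs) (.cons (encPoly p) (.cons
        (encList (fun i : Fin n => un i) vs)
        (.cons (.cons (un 3) (.cons (encTm (va m n (m + v))) (encTm tM))) (.cons (encTm tP)
          (.cons (encFm φ) (.cons (un i) (un m))))))) := rfl
    rw [e1, e, ← addD_un m v]
    rfl

theorem miterate_eval {m n : ℕ} (S : MS m n) (h : S.i + S.fs.length = m) (K : ℕ) :
    Q.stepEx.eval^[K] (encMS S) = encMS (mstep^[K] S) := by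
  induction K with
  | zero => rfl
  | succ K ih =>
    rw [Function.iterate_succ_apply', Function.iterate_succ_apply', ih,
      mstepEx_eval _ (iterate_len h K)]

theorem len_encList {α : Type} (f : α → D) (l : List α) : (encList f l).len = l.length := by
  induction l with
  | nil => rfl
  | cons a l ih => simp only [encList, D.len, ih, List.length_cons]

theorem iterate_succ_nil (k : ℕ) : (D.cons D.nil)^[k] D.nil = un k := by
  have := iterate_succ_un k 0
  simpa [un] using this

theorem minitEx_eval (F : PolyMap) : Q.initEx.eval (encPolyMap F) = encMS (minit F) := by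
  have e : addD (.cons (encList encPoly F.fs) .nil) = un F.fs.length := by
    simp only [addD, D.hd, D.tl, len_encList, iterate_succ_nil]
  have e1 : encMS (minit F) = .cons (encList encPoly F.fs) (.cons .nil (.cons .nil
    (.cons (encTm (.const 0 : Tm 0)) (.cons (encTm (.const 0 : Tm 0))
      (.cons (encFm (.eq (.const 0) (.const 0) : Fm 0)) (.cons .nil
        (un F.fs.length))))))) := rfl
  rw [e1, ← e]
  rfl

theorem mfinEx_eval (F : PolyMap) (K : ℕ) :
    Q.finEx.eval (.cons (encPolyMap F) (encMS (mstep^[K] (minit F)))) =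
      encSentence (msent F K) := rfl

theorem msize_step {m n : ℕ} (S : MS m n) (h : S.i + S.fs.length = m) :
    (encMS (mstep S)).size ≤ (encMS S).size + (4 * m + 100) := by
  have s0 : (encInt 0).size = 3 := by simp [encInt, bitsD, ofBool, Nat.zero_bits]
  obtain ⟨fs, p, vs, tM, tP, φ, i⟩ := S
  rcases vs with _ | ⟨v, vs⟩
  · rcases p with _ | ⟨⟨c, vs⟩, p⟩
    · rcases fs with _ | ⟨q, fs⟩
      · simp [mstep]
      · simp only [List.length_cons] at h
        have e : encTm (va m n i) = .cons (un 0) (un i) := encTm_va (by omega)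
        have e1 : encMS (mstep ⟨q :: fs, [], [], tM, tP, φ, i⟩ : MS m n) =
          .cons (encList encPoly fs) (.cons (encPoly q) (.cons .nil
            (.cons (encTm (.const 0 : Tm (m + (n + 1)))) (.cons (.cons (un 3) (.cons
              (encTm (.const (-1) : Tm (m + (n + 1)))) (encTm (va m n i))))
              (.cons (encFm (.and (.eq (.add tM tP) (.const 0)) φ)) (.cons (un (i + 1))
                (un m))))))) := rfl
        rw [e1, e]
        simp only [encMS, encList, encPoly, encFm, encTm, size_cons, size_nil, size_un, s0,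
          size_neg]
        omega
    · have e1 : encMS (mstep ⟨fs, (c, vs) :: p, [], tM, tP, φ, i⟩ : MS m n) =
        .cons (encList encPoly fs) (.cons (encPoly p) (.cons
          (encList (fun i : Fin n => un i) vs) (.cons (.cons (un 1) (encInt c))
          (.cons (.cons (un 2) (.cons (encTm tM) (encTm tP)))
            (.cons (encFm φ) (.cons (un i) (un m))))))) := rfl
      have e2 : encPoly ((c, vs) :: p) = .cons (.cons (encInt c)
        (encList (fun i : Fin n => un i) vs)) (encPoly p) := rfl
      rw [e1]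
      simp only [encMS, e2, encList, size_cons, size_nil, size_un]
      omega
  · have e : encTm (va m n (m + v)) = .cons (un 0) (un (m + v)) :=
      encTm_va (by have := v.2; omega)
    have e1 : encMS (mstep ⟨fs, p, v :: vs, tM, tP, φ, i⟩ : MS m n) =
      .cons (encList encPoly fs) (.cons (encPoly p) (.cons
        (encList (fun i : Fin n => un i) vs)
        (.cons (.cons (un 3) (.cons (encTm (va m n (m + v))) (encTm tM))) (.cons (encTm tP)
          (.cons (encFm φ) (.cons (un i) (un m))))))) := rfl
    rw [e1, e]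
    simp only [encMS, encList, size_cons, size_un]
    omega

theorem msize_iterate {m n : ℕ} (S : MS m n) (h : S.i + S.fs.length = m) (K : ℕ) :
    (encMS (mstep^[K] S)).size ≤ (encMS S).size + K * (4 * m + 100) := by
  induction K with
  | zero => simp
  | succ K ih =>
    have := msize_step _ (iterate_len h K)
    rw [Function.iterate_succ_apply', Nat.succ_mul]
    omega

theorem pmu_le {n : ℕ} (p : Poly n) : pmu p ≤ (encPoly p).size := by
  induction p with
  | nil => simp [pmu]
  | cons q p ih =>
    have e2 : encPoly (q :: p) = .cons (.cons (encInt q.1)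
        (encList (fun i : Fin n => un i) q.2)) (encPoly p) := rfl
    have h1 := len_lt_size (encList (fun i : Fin n => un i) q.2)
    rw [len_encList] at h1
    simp only [pmu, List.map_cons, List.sum_cons, e2, size_cons] at ih ⊢
    omega

/-- number of steps -/
def mSteps (F : PolyMap) : ℕ := (encD (encPolyMap F)).length

theorem mmu_le (F : PolyMap) : (minit F).mu ≤ mSteps F := by
  have h2 : mSteps F = (encPolyMap F).size := rfl
  have h3 : ∀ l : List (Poly F.n), (l.map fun q => pmu q + 1).sum ≤ (encList encPoly l).size := by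
    intro l
    induction l with
    | nil => simp
    | cons q l ih =>
      have := pmu_le q
      simp only [List.map_cons, List.sum_cons, encList, size_cons]
      omega
  have h4 := h3 F.fs
  rw [h2]
  simp only [minit, MS.mu, encPolyMap, size_cons, size_un, List.length_nil, pmu, List.map_nil,
    List.sum_nil] at h4 ⊢
  omega

theorem comp_mrun : Comp (fun F : PolyMap => encD (encPolyMap F))
    (fun F => encD (encMS (mstep^[mSteps F] (minit F)))) := by
  have h0 := Comp.reindex (Ex.pd Q.initEx) encPolyMap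
  simp only [minitEx_eval] at h0
  have h1 : Comp (fun F : PolyMap => encD (encPolyMap F))
      (fun F => encD (D.cons (ofBits (encD (encPolyMap F))) (encMS (minit F)))) :=
    Comp.pair (Comp.bits _) h0
  have hlen : ∀ F : PolyMap, (minit F).i + (minit F).fs.length = F.fs.length := by
    intro F; simp [minit]
  have h2 := Comp.iter (α := PolyMap) (σ := D) (encσ := fun d => d)
    (step := Q.stepEx.eval) (Ex.pd Q.stepEx) (fun F => ofBits (encD (encPolyMap F)))
    (fun F => encMS (minit F))
    (Polynomial.X + Polynomial.X * (4 * Polynomial.X + 100)) (by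
      intro F j hj
      rw [len_ofBits] at hj
      obtain ⟨L, hL⟩ : ∃ L, L = (encD (D.cons (ofBits (encD (encPolyMap F)))
        (encMS (minit F)))).length := ⟨_, rfl⟩
      rw [← hL, miterate_eval _ (hlen F)]
      have hL' : L = (ofBits (encD (encPolyMap F))).size + (encMS (minit F)).size + 1 := by
        rw [hL]; exact size_cons _ _
      have h3 := len_lt_size (ofBits (encD (encPolyMap F)))
      rw [len_ofBits] at h3
      have h5 : (encMS (minit F)).size ≥ 2 * F.fs.length := by
        simp only [encMS, size_cons, size_un]; omega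
      have h4 := msize_iterate (minit F) (hlen F) j
      have h6 : j * (4 * F.fs.length + 100) ≤ L * (4 * L + 100) :=
        Nat.mul_le_mul (by omega) (by omega)
      simp only [Polynomial.eval_add, Polynomial.eval_mul, Polynomial.eval_X,
        Polynomial.eval_ofNat]
      omega)
  have e : (fun F : PolyMap => encD (Q.stepEx.eval^[(ofBits (encD (encPolyMap F))).len]
      (encMS (minit F)))) = fun F => encD (encMS (mstep^[mSteps F] (minit F))) := by
    funext F
    rw [len_ofBits, miterate_eval _ (hlen F)]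
    rfl
  rw [e] at h2
  exact h1.trans h2

theorem comp_member : Comp (fun F : PolyMap => encD (encPolyMap F))
    (fun F => encD (encSentence (msent F (mSteps F)))) := by
  have h := Comp.reindex (Ex.pd Q.finEx)
    (fun F : PolyMap => D.cons (encPolyMap F) (encMS (mstep^[mSteps F] (minit F))))
  simp only [mfinEx_eval] at h
  exact (Comp.pair (Comp.refl _) comp_mrun).trans h

theorem surjectivity_reducesTo : Surjectivity.ReducesTo AETruth :=
  ⟨fun F => msent F (mSteps F), Comp.to_tm comp_member,
    fun F => (msent_correct F _ (mmu_le F)).symm⟩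

/-- **The full-space surjectivity problem is `∀∃ℝ`-complete.** -/
theorem complete : AERComplete Surjectivity := ⟨surjectivity_reducesTo, hard⟩

end Pool.Agent.helper88.Surj
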