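import Pool.Agent.helper88.SurjFinal
import Pool.Agent.helper88.PD

/-!
# The step of the machine as a loop-free tree program
-/

namespace Pool.Agent.helper88.Surj

open Pool.Agent.TM2Lib Pool.Agent.TM2Lib.D Pool.Agent.helper88

/-- codes of items -/
def encItem {n : ℕ} : Item n → D
  | .tm t => encTm t
  | .fm φ => encFm φ

/-- codes of raw polynomials -/
def encRPoly (p : RPoly) : D :=
  encList (fun m => .cons (encInt m.1) (encList un m.2)) p

/-- codes of stack elements -/
def encSI {n : ℕ} (x : ℕ × Item n) : D := .cons (un x.1) (encItem x.2)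

/-- codes of states -/
def encSt {n : ℕ} (S : St n) : D :=
  .cons (encList encSI S.stack)
    (.cons (un S.c) (.cons (encList encRPoly (polysOf S.out)) (un S.kc)))

namespace P

/-- prepend -/
def eL : List Ex → Ex → Ex
  | [], t => t
  | e :: es, t => .cons e (eL es t)

/-- successors -/
def sucs : ℕ → Ex → Ex
  | 0, e => e
  | k + 1, e => .cons (.lit .nil) (sucs k e)

/-- monomial -/
def mono (m : Ex × List Ex) : Ex := .cons m.1 (eL m.2 (.lit .nil))

/-- monomials -/
def monos : List (Ex × List Ex) → List Ex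
  | [] => []
  | m :: ms => mono m :: monos ms

/-- polynomial -/
def poly (p : List (Ex × List Ex)) : Ex := eL (monos p) (.lit .nil)

/-- the stack -/
def stk : Ex := .hd .inp
/-- the counter -/
def ctr : Ex := .hd (.tl .inp)
/-- the output -/
def out : Ex := .hd (.tl (.tl .inp))
/-- the second counter -/
def kc : Ex := .tl (.tl (.tl .inp))
/-- the variable of the item on top of the stack -/
def vI : Ex := .hd (.hd stk)
/-- tag of the item -/
def tag : Ex := .hd (.tl (.hd stk))
/-- arguments of the item -/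
def args : Ex := .tl (.tl (.hd stk))
/-- the constant 1 -/
def one : Ex := .lit (encInt 1)
/-- the constant -1 -/
def neg : Ex := .lit (encInt (-1))

/-- multiply by `s^2` -/
def sq (s : Ex) : List (Ex × List Ex) → List (Ex × List Ex)
  | [] => []
  | m :: ms => (m.1, s :: s :: m.2) :: sq s ms

/-- gadgets -/
def gads : ℕ → List (List (Ex × List Ex)) → List Ex
  | _, [] => []
  | j, p :: ps => poly ((one, [sucs (j + 3) ctr, sucs (j + 4) ctr]) :: p) ::
      poly ((one, [sucs (j + 3) ctr, sucs (j + 3) ctr, sucs (j + 3) ctr, sucs (j + 4) ctr]) ::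
        (neg, [sucs (j + 4) ctr]) :: sq (sucs (j + 3) ctr) p) :: gads (j + 2) ps

/-- result of a node -/
def node (ch : List Ex) (ps : List (List (Ex × List Ex))) : Ex :=
  .cons (eL ch (.tl stk)) (.cons (sucs 9 ctr) (.cons (eL (gads 0 ps) out) kc))

/-- two children -/
def ch2 : List Ex := [.cons ctr (.hd args), .cons (sucs 1 ctr) (.tl args)]

/-- second child -/
def c1 : Ex := sucs 1 ctr
/-- auxiliary variable -/
def c2 : Ex := sucs 2 ctr

def nVar : Ex := node [] [[(one, [args]), (neg, [vI])]]
def nConst : Ex := node [] [[(args, []), (neg, [vI])]]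
def nAdd : Ex := node ch2 [[(one, [ctr]), (one, [c1]), (neg, [vI])]]
def nMul : Ex := node ch2 [[(one, [ctr, c1]), (neg, [vI])]]
def nEq : Ex := node ch2 [[(one, [vI, vI]), (neg, [vI])], [(one, [vI, ctr]), (neg, [vI, c1])],
      [(one, [ctr, c2]), (neg, [c1, c2]), (neg, []), (neg, [vI, ctr, c2]),
        (one, [vI, c1, c2]), (one, [vI])]]
def nLt : Ex := node ch2 [[(one, [vI, vI]), (neg, [vI])],
      [(one, [vI, c1, c2, c2]), (neg, [vI, ctr, c2, c2]), (neg, [vI])],
      [(one, [ctr]), (neg, [c1]), (neg, [c2, c2]), (neg, [vI, ctr]), (one, [vI, c1]),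
        (one, [vI, c2, c2])]]
def nLe : Ex := node ch2 [[(one, [vI, vI]), (neg, [vI])],
      [(one, [vI, c1]), (neg, [vI, ctr]), (neg, [vI, c2, c2])],
      [(one, [ctr, c2, c2]), (neg, [c1, c2, c2]), (neg, []),
        (neg, [vI, ctr, c2, c2]), (one, [vI, c1, c2, c2]), (one, [vI])]]
def nOr : Ex := node ch2 [[(one, [ctr]), (one, [c1]), (neg, [ctr, c1]), (neg, [vI])]]
def nNot : Ex := node [.cons ctr args] [[(one, []), (neg, [ctr]), (neg, [vI])]]

/-- case distinction on a unary number -/
def cases (t : Ex) : List Ex → Ex → Ex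
  | [], d => d
  | e :: es, d => .ite t (cases (.tl t) es d) e

/-- the whole step -/
def stepEx : Ex :=
  .ite stk (cases tag [nVar, nConst, nAdd, nMul, nEq, nLt, nLe, nMul, nOr] nNot)
    (.ite kc (.cons stk (.cons ctr (.cons (.cons (poly [(one, [.tl kc])]) out) (.tl kc)))) .inp)

end P

theorem stepEx_eval {n : ℕ} (S : St n) : P.stepEx.eval (encSt S) = encSt (step S) := by
  obtain ⟨stack, c, out, kc⟩ := S
  rcases stack with _ | ⟨⟨i, it⟩, st⟩
  · rcases kc with _ | j
    · rfl
    · rfl
  · rcases it with t | φ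
    · rcases t with z | z | ⟨a, b⟩ | ⟨a, b⟩
      · rfl
      · rfl
      · rfl
      · rfl
    · rcases φ with ⟨a, b⟩ | ⟨a, b⟩ | ⟨a, b⟩ | ⟨a, b⟩ | ⟨a, b⟩ | a
      · rfl
      · rfl
      · rfl
      · rfl
      · rfl
      · rfl

end Pool.Agent.helper88.Surj
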